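import Pool.Agent.H257.HD.Stm
import Pool.Graph.R_pool_sql_team_seeded_63374d34.N414.LR.END
import Pool.Graph.R_pool_sql_team_seeded_63374d34.N414.LR.CLS

/-!
# Project HD, leaf COF (helper59)
-/

set_option autoImplicit false

namespace Pool.Agent.H257.HD.COF

open Pool.Agent.H494R3.GT Pool.Agent.N557.QW
open Pool.Agent.N414.LR (Op IsIcc)
open Pool.Agent.N414.LR.END (ext_LG mul_mem' star_mem' cf_comm cf_lam_ne)
open Pool.Agent.N414.LR.CLS (v_mul v_one norm_v star_v)
open scoped ENNReal Topology Pointwise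
open Filter

noncomputable section

variable {G Λ : Type} [Group G] [Group Λ]

lemma nsq (x : Op Λ) (y : L2 Λ) : ‖x y‖ ^ 2 = RCLike.re (inner ℂ y ((star x * x) y)) :=
  x.apply_norm_sq_eq_inner_adjoint_right y

lemma norm_eq_of_sq {a b : ℝ} (ha : 0 ≤ a) (hb : 0 ≤ b) (h : a ^ 2 = b ^ 2) : a = b :=
  (pow_left_inj₀ ha hb two_ne_zero).1 h

lemma norm_uni {u : Op Λ} (hu : star u * u = 1) (y : L2 Λ) : ‖u y‖ = ‖y‖ := by
  apply norm_eq_of_sq (norm_nonneg _) (norm_nonneg _)
  rw [nsq, hu]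
  change RCLike.re (inner ℂ y y) = _
  rw [inner_self_eq_norm_sq]

/-- right multiplication by a unitary does not change the trace norm -/
lemma tn_right {x b : Op Λ} (hx : x ∈ LG Λ) (hb : b ∈ LG Λ) (hbu : b * star b = 1) :
    ‖x (b (dl 1))‖ = ‖x (dl 1)‖ := by
  apply norm_eq_of_sq (norm_nonneg _) (norm_nonneg _)
  have e1 : ‖x (b (dl 1))‖ ^ 2 = RCLike.re (cf (star (x * b) * (x * b)) 1) := nsq (x * b) (dl 1)
  have e2 : ‖x (dl 1)‖ ^ 2 = RCLike.re (cf (star x * x) 1) := nsq x (dl 1)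
  rw [e1, e2]
  congr 1
  have e3 : star (x * b) * (x * b) = star b * (star x * x * b) := by
    rw [star_mul]
    simp only [mul_assoc]
  rw [e3, cf_comm (star_mem' hb) (mul_mem' (mul_mem' (star_mem' hx) hx) hb), mul_assoc, hbu,
    mul_one]

lemma tn_star {x : Op Λ} (hx : x ∈ LG Λ) : ‖(star x) (dl 1)‖ = ‖x (dl 1)‖ := by
  apply norm_eq_of_sq (norm_nonneg _) (norm_nonneg _)
  have e1 : ‖(star x) (dl 1)‖ ^ 2 = RCLike.re (cf (star (star x) * star x) 1) :=
    nsq (star x) (dl 1)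
  have e2 : ‖x (dl 1)‖ ^ 2 = RCLike.re (cf (star x * x) 1) := nsq x (dl 1)
  rw [e1, e2, star_star, cf_comm hx (star_mem' hx)]

lemma rgt_rgt (a b : Λ) (y : L2 Λ) : rgt a (rgt b y) = rgt (b * a) y := by
  have : (rgt a * rgt b : Op Λ) = rgt (b * a) := by
    apply op_ext
    intro s
    rw [mul_ap, rgt_dl, rgt_dl, rgt_dl, mul_assoc]
  rw [← this]
  rfl

lemma rgt_one' (y : L2 Λ) : rgt (1 : Λ) y = y := by
  have : (rgt (1 : Λ) : Op Λ) = 1 := by
    apply op_ext
    intro s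
    rw [rgt_dl, mul_one]
    rfl
  rw [this]
  rfl

lemma norm_rgt (a : Λ) (y : L2 Λ) : ‖rgt a y‖ = ‖y‖ := by
  apply norm_uni
  rw [star_rgt]
  apply op_ext
  intro s
  rw [mul_ap, rgt_dl, rgt_dl, mul_inv_cancel_right]
  rfl

lemma comm {z : Op Λ} (hz : z ∈ LG Λ) (t : Λ) (y : L2 Λ) : z (rgt t y) = rgt t (z y) := by
  have := congrArg (fun x : Op Λ => x y) (mem_LG.1 hz t)
  exact this.symm

lemma step (v : G →* unitary (Op Λ)) (hv : ∀ g, (v g : Op Λ) ∈ LG Λ) (w : L2 Λ) (s : G → Λ)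
    (g g' : G) (y : L2 Λ) (ε : ℝ) (h1 : ‖rgt (s g) ((v g : Op Λ) w) - y‖ < ε)
    (h2 : ‖rgt (s g') ((v g' : Op Λ) w) - y‖ < ε) :
    ‖(v (g⁻¹ * g') : Op Λ) w - rgt (s g * (s g')⁻¹) w‖ < 2 * ε := by
  have h3 : ‖rgt (s g') ((v g' : Op Λ) w) - rgt (s g) ((v g : Op Λ) w)‖ < 2 * ε := by
    have e : rgt (s g') ((v g' : Op Λ) w) - rgt (s g) ((v g : Op Λ) w)
        = (rgt (s g') ((v g' : Op Λ) w) - y) - (rgt (s g) ((v g : Op Λ) w) - y) := by abel
    rw [e]
    refine (norm_sub_le _ _).trans_lt ?_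
    linarith
  have h4 : (v (g⁻¹ * g') : Op Λ) w - rgt (s g * (s g')⁻¹) w
      = (v g⁻¹ : Op Λ) (rgt (s g')⁻¹ (rgt (s g') ((v g' : Op Λ) w)
        - rgt (s g) ((v g : Op Λ) w))) := by
    rw [map_sub, map_sub, rgt_rgt, rgt_rgt, mul_inv_cancel, rgt_one', comm (hv _), v_mul,
      ← v_mul v g⁻¹ g, inv_mul_cancel, v_one]
  rw [h4, norm_v, norm_rgt]
  exact h3

lemma lam_apply (t : Λ) (β : L2 Λ) (z : Λ) : (lam t β) z = β (t⁻¹ * z) := by
  rw [lam, UU_apply]
  rfl

lemma rgt_apply (t : Λ) (β : L2 Λ) (z : Λ) : (rgt t β) z = β (z * t⁻¹) := by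
  rw [rgt, UU_apply]
  rfl

lemma coord_le (y : L2 Λ) (z : Λ) : ‖y z‖ ≤ ‖y‖ :=
  lp.norm_apply_le_norm (by norm_num) y z

lemma finite_large (β : L2 Λ) {c : ℝ} (hc : 0 < c) : {z | c ≤ ‖β z‖}.Finite := by
  have h2 : Summable (fun z : Λ => ‖inner ℂ (dl z : L2 Λ) β‖ ^ 2) :=
    (dl_orthonormal (f := (id : Λ → Λ)) Function.injective_id).inner_products_summable β
  have h3 := h2.tendsto_cofinite_zero
  have h4 := h3.eventually (gt_mem_nhds (show (0 : ℝ) < c ^ 2 by positivity))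
  rw [Filter.eventually_cofinite] at h4
  refine h4.subset ?_
  intro z hz
  show ¬ _
  rw [inner_dl, not_lt]
  exact pow_le_pow_left₀ hc.le hz 2

theorem main : S_MIX → S_COF := by
  intro hmix G Λ _ _ v W s V hv hcf hdense hW hWu hpre hesc h
  classical
  have hW1 : star W * W = 1 := hWu.1
  have hW2 : W * star W = 1 := hWu.2
  have hsW : star W ∈ LG Λ := star_mem' hW
  set w : L2 Λ := W (dl 1) with hw
  set b : Op Λ := star W * (v h : Op Λ) * W with hb
  have hbL : b ∈ LG Λ := mul_mem' (mul_mem' hsW (hv h)) hW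
  have hvu : ∀ g, star (v g : Op Λ) * (v g : Op Λ) = 1 := fun g => (v g).2.1
  have hvu' : ∀ g, (v g : Op Λ) * star (v g : Op Λ) = 1 := fun g => (v g).2.2
  have hbu : b * star b = 1 := by
    rw [hb, star_mul, star_mul, star_star]
    calc star W * (v h : Op Λ) * W * (star W * (star (v h : Op Λ) * W))
        = star W * (v h : Op Λ) * (W * star W) * (star (v h : Op Λ) * W) := by
          simp only [mul_assoc]
      _ = star W * ((v h : Op Λ) * star (v h : Op Λ)) * W := by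
          rw [hW2]; simp only [mul_assoc, mul_one, one_mul]
      _ = 1 := by rw [hvu', mul_one, hW1]
  set β : L2 Λ := b (dl 1) with hβ
  -- it is enough to find at most one nonzero coefficient
  by_cases huniq : ∀ x₁ x₂ : Λ, β x₁ ≠ 0 → β x₂ ≠ 0 → x₁ = x₂
  · by_cases hex : ∃ x, β x ≠ 0
    · obtain ⟨x, hx⟩ := hex
      refine ⟨β x, x, ?_⟩
      apply ext_LG hbL ((LG Λ).toStarSubalgebra.smul_mem (lam_mem x) _)
      change β = β x • lam x (dl 1)
      rw [lam_dl, mul_one]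
      apply vec_ext
      intro z
      rw [lp.coeFn_smul, Pi.smul_apply, smul_eq_mul]
      by_cases hz : z = x
      · subst hz
        rw [dl_apply_self, mul_one]
      · rw [dl_apply_ne hz, mul_zero]
        by_contra hne
        exact hz (huniq z x hne hx)
    · push Not at hex
      refine ⟨0, 1, ?_⟩
      apply ext_LG hbL ((LG Λ).toStarSubalgebra.smul_mem (lam_mem 1) _)
      change β = (0 : ℂ) • lam (1 : Λ) (dl 1)
      rw [zero_smul]
      apply vec_ext
      intro z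
      rw [hex z]
      rfl
  exfalso
  push Not at huniq
  obtain ⟨x₁, x₂, hx₁, hx₂, hne⟩ := huniq
  set c : ℝ := min ‖β x₁‖ ‖β x₂‖ with hc
  have hcpos : 0 < c := lt_min (norm_pos_iff.2 hx₁) (norm_pos_iff.2 hx₂)
  set ε : ℝ := min (c / 8) (1 / 16) with hε
  have hεpos : 0 < ε := lt_min (by positivity) (by norm_num)
  have hε1 : 8 * ε ≤ c := by
    have := min_le_left (c / 8) (1 / 16 : ℝ)
    linarith
  have hε2 : 8 * ε < 1 := by
    have := min_le_right (c / 8) (1 / 16 : ℝ)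
    linarith
  obtain ⟨y, hy⟩ := hpre V
  obtain ⟨y', hy'⟩ := hpre (V.map (fun g => g * h))
  have hy'2 : Tendsto (fun g => rgt (s (g * h)) ((v (g * h) : Op Λ) w)) V (𝓝 y') := by
    have := hy'
    rw [Ultrafilter.coe_map, Filter.tendsto_map'_iff] at this
    exact this
  have hE1 : ∀ᶠ g in V, ‖rgt (s g) ((v g : Op Λ) w) - y‖ < ε := by
    have := (Metric.tendsto_nhds.1 hy) ε hεpos
    simpa only [dist_eq_norm] using this
  have hE2 : ∀ᶠ g in V, ‖rgt (s (g * h)) ((v (g * h) : Op Λ) w) - y'‖ < ε := by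
    have := (Metric.tendsto_nhds.1 hy'2) ε hεpos
    simpa only [dist_eq_norm] using this
  obtain ⟨g', hg'1, hg'2⟩ := (hE1.and hE2).exists
  set Φ : Set Λ := {z | c / 2 ≤ ‖β z‖} with hΦ
  have hΦf : Φ.Finite := finite_large β (by positivity)
  set Ψ : Set Λ := Φ * Φ⁻¹ with hΨ
  have hΨf : Ψ.Finite := hΦf.mul hΦf.inv
  set x : Λ := x₁ * x₂⁻¹ with hx
  have hx1 : x ≠ 1 := by
    intro h0
    exact hne (mul_inv_eq_one.1 h0)
  set a : Op Λ := (v g' : Op Λ) * W * lam x * star W * star (v g' : Op Λ) with ha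
  have haL : a ∈ LG Λ := mul_mem' (mul_mem' (mul_mem' (mul_mem' (hv g') hW) (lam_mem x)) hsW)
    (star_mem' (hv g'))
  have hatr : cf a 1 = 0 := by
    have e1 : a = ((v g' : Op Λ) * W) * (lam x * star W * star (v g' : Op Λ)) := by
      rw [ha]
      simp only [mul_assoc]
    rw [e1, cf_comm (mul_mem' (hv g') hW)
      (mul_mem' (mul_mem' (lam_mem x) hsW) (star_mem' (hv g')))]
    have e2 : lam x * star W * star (v g' : Op Λ) * ((v g' : Op Λ) * W) = lam x := by
      calc lam x * star W * star (v g' : Op Λ) * ((v g' : Op Λ) * W)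
          = lam x * star W * (star (v g' : Op Λ) * (v g' : Op Λ)) * W := by
            simp only [mul_assoc]
        _ = lam x := by rw [hvu, mul_one, mul_assoc, hW1, mul_one]
    rw [e2]
    exact cf_lam_ne hx1
  have hE3 : ∀ᶠ g in V, ∀ z ∈ Ψ, ‖inner ℂ (W (dl z))
      ((star (v g : Op Λ) * a * (v g : Op Λ)) w)‖ < 1 / 2 := by
    rw [Filter.eventually_all_finite hΨf]
    intro z _
    have h1 := hmix G Λ v V a hv hcf hdense hesc haL hatr (W (dl z)) w
    have h2 := (Metric.tendsto_nhds.1 h1) (1 / 2) (by norm_num)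
    simpa only [dist_zero_right] using h2
  obtain ⟨g, ⟨hg1, hg2⟩, hg3⟩ := ((hE1.and hE2).and hE3).exists
  set γ : G := g⁻¹ * g' with hγ
  set t : Λ := s g * (s g')⁻¹ with ht
  set t' : Λ := s (g * h) * (s (g' * h))⁻¹ with ht'
  set u : Op Λ := star W * (v γ : Op Λ) * W with hu
  have huL : u ∈ LG Λ := mul_mem' (mul_mem' hsW (hv γ)) hW
  have huu : star u * u = 1 := by
    rw [hu, star_mul, star_mul, star_star]
    calc star W * (star (v γ : Op Λ) * W) * (star W * (v γ : Op Λ) * W)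
        = star W * star (v γ : Op Λ) * (W * star W) * ((v γ : Op Λ) * W) := by
          simp only [mul_assoc]
      _ = star W * (star (v γ : Op Λ) * (v γ : Op Λ)) * W := by
          rw [hW2]; simp only [mul_assoc, mul_one, one_mul]
      _ = 1 := by rw [hvu, mul_one, hW1]
  have hWn : ∀ y : L2 Λ, ‖(star W) y‖ = ‖y‖ := fun y => norm_uni (by rw [star_star]; exact hW2) y
  have hWW : ∀ y : L2 Λ, (star W) (W y) = y := by
    intro y
    have := congrArg (fun z : Op Λ => z y) hW1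
    exact this
  have hWW' : ∀ y : L2 Λ, W ((star W) y) = y := by
    intro y
    have := congrArg (fun z : Op Λ => z y) hW2
    exact this
  -- first estimate
  have k1 : ‖u (dl 1) - dl t‖ < 2 * ε := by
    have h1 := step v hv w s g g' y ε hg1 hg'1
    have h2 : u (dl 1) - dl t = (star W) ((v γ : Op Λ) w - rgt t w) := by
      rw [map_sub, comm hsW, hw, hWW, rgt_dl, one_mul]
      rfl
    rw [h2, hWn]
    exact h1
  -- second estimate
  have k2 : ‖u β - rgt t' β‖ < 2 * ε := by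
    have h1 := step v hv w s (g * h) (g' * h) y' ε hg2 hg'2
    have h2 : u β - rgt t' β = (star W) ((v h : Op Λ)
        ((v ((g * h)⁻¹ * (g' * h)) : Op Λ) w - rgt t' w)) := by
      have h3 : (v h : Op Λ) ((v ((g * h)⁻¹ * (g' * h)) : Op Λ) w)
          = (v γ : Op Λ) ((v h : Op Λ) w) := by
        rw [← v_mul, ← v_mul]
        congr 3
        rw [hγ]
        group
      rw [map_sub, map_sub, h3, comm (hv h), comm hsW]
      have h4 : β = (star W) ((v h : Op Λ) w) := rfl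
      rw [← h4]
      congr 1
      have h5 : u β = (star W) ((v γ : Op Λ) (W β)) := rfl
      rw [h5, h4, hWW']
    rw [h2, hWn, norm_v]
    exact h1
  have k3 : ‖u (dl 1) - lam t (dl 1)‖ < 2 * ε := by
    rw [lam_dl, mul_one]
    exact k1
  have hdL : u - lam t ∈ LG Λ := (LG Λ).toStarSubalgebra.sub_mem huL (lam_mem t)
  have k4 : ‖u β - lam t β‖ < 2 * ε := by
    have h1 : u β - lam t β = (u - lam t) (b (dl 1)) := rfl
    rw [h1, tn_right hdL hbL hbu]
    exact k3
  have k5 : ‖lam t β - rgt t' β‖ < 4 * ε := by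
    have e : lam t β - rgt t' β = (u β - rgt t' β) - (u β - lam t β) := by abel
    rw [e]
    refine (norm_sub_le _ _).trans_lt ?_
    linarith
  have k6 : ∀ z : Λ, c ≤ ‖β z‖ → t * z * t'⁻¹ ∈ Φ := by
    intro z hz
    have h1 := (coord_le (lam t β - rgt t' β) (t * z)).trans_lt k5
    rw [lp.coeFn_sub, Pi.sub_apply, lam_apply, rgt_apply, inv_mul_cancel_left] at h1
    have h2 : ‖β z‖ - ‖β (t * z * t'⁻¹)‖ ≤ ‖β z - β (t * z * t'⁻¹)‖ := norm_sub_norm_le _ _
    change c / 2 ≤ ‖β (t * z * t'⁻¹)‖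
    linarith
  have hz : t * x * t⁻¹ ∈ Ψ := by
    refine ⟨t * x₁ * t'⁻¹, k6 x₁ (min_le_left _ _), (t * x₂ * t'⁻¹)⁻¹, ?_, ?_⟩
    · rw [Set.mem_inv, inv_inv]
      exact k6 x₂ (min_le_right _ _)
    · change t * x₁ * t'⁻¹ * (t * x₂ * t'⁻¹)⁻¹ = t * x * t⁻¹
      rw [hx]
      group
  -- conjugation
  have k7 : ‖(lam t * lam x * star (lam t)) (dl 1) - (u * lam x * star u) (dl 1)‖ < 4 * ε := by
    have e : (lam t * lam x * star (lam t)) (dl 1) - (u * lam x * star u) (dl 1)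
        = -((u - lam t) ((lam x * star (lam t)) (dl 1)))
          - u (lam x ((star (u - lam t)) (dl 1))) := by
      rw [star_sub]
      simp only [mul_ap, ContinuousLinearMap.sub_apply, map_sub]
      abel
    have n1 : ‖(u - lam t) ((lam x * star (lam t)) (dl 1))‖ < 2 * ε := by
      have : (lam x * star (lam t)) ∈ LG Λ := mul_mem' (lam_mem x) (star_mem' (lam_mem t))
      rw [tn_right hdL this]
      · exact k3
      · rw [star_mul, star_star, star_lam, star_lam]
        calc lam x * lam t⁻¹ * (lam t * lam x⁻¹) = lam x * (lam t⁻¹ * lam t) * lam x⁻¹ := by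
              simp only [mul_assoc]
          _ = 1 := by rw [← lam_mul, inv_mul_cancel, lam_one, mul_one, ← lam_mul, mul_inv_cancel,
              lam_one]
    have n2 : ‖u (lam x ((star (u - lam t)) (dl 1)))‖ < 2 * ε := by
      rw [norm_uni huu, norm_uni (by rw [star_lam, ← lam_mul, inv_mul_cancel, lam_one]),
        tn_star hdL]
      exact k3
    rw [e]
    refine (norm_sub_le _ _).trans_lt ?_
    rw [norm_neg]
    linarith
  have k8 : (lam t * lam x * star (lam t)) (dl 1) = dl (t * x * t⁻¹) := by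
    rw [star_lam, mul_ap, mul_ap, lam_dl, lam_dl, lam_dl, mul_one]
    congr 1
    group
  have k9 : 1 / 2 < ‖((u * lam x * star u) (dl 1)) (t * x * t⁻¹)‖ := by
    have h1 := (coord_le ((lam t * lam x * star (lam t)) (dl 1) - (u * lam x * star u) (dl 1))
      (t * x * t⁻¹)).trans_lt k7
    rw [k8, lp.coeFn_sub, Pi.sub_apply, dl_apply_self] at h1
    have h2 : ‖(1 : ℂ)‖ - ‖((u * lam x * star u) (dl 1)) (t * x * t⁻¹)‖
        ≤ ‖(1 : ℂ) - ((u * lam x * star u) (dl 1)) (t * x * t⁻¹)‖ := norm_sub_norm_le _ _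
    rw [norm_one] at h2
    linarith
  have k10 : ((u * lam x * star u) (dl 1)) (t * x * t⁻¹)
      = inner ℂ (W (dl (t * x * t⁻¹))) ((star (v g : Op Λ) * a * (v g : Op Λ)) w) := by
    have e1 : inner ℂ (W (dl (t * x * t⁻¹))) ((star (v g : Op Λ) * a * (v g : Op Λ)) w)
        = inner ℂ (dl (t * x * t⁻¹)) ((star W) ((star (v g : Op Λ) * a * (v g : Op Λ)) w)) := by
      rw [ContinuousLinearMap.star_eq_adjoint W, ContinuousLinearMap.adjoint_inner_right]
    rw [e1, inner_dl]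
    have e2 : (v γ : Op Λ) = star (v g : Op Λ) * (v g' : Op Λ) := by
      rw [hγ, map_mul, star_v]
      rfl
    have e3 : u * lam x * star u = star W * (star (v g : Op Λ) * a * (v g : Op Λ)) * W := by
      rw [hu, e2, ha]
      simp only [star_mul, star_star, mul_assoc]
    rw [e3]
    rfl
  rw [k10] at k9
  exact absurd (hg3 _ hz) (not_lt.2 k9.le)

end

end Pool.Agent.H257.HD.COF
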