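import Pool.Agent.H257.HD.Stm

/-!
# Project HD, leaf DIA: a tight projection has a large diagonal entry in all translates
-/

set_option autoImplicit false

namespace Pool.Agent.H257.HD.DIA

open Pool.Agent.H494R3.GT Pool.Agent.N557.QW Pool.Agent.H257.HD
open Pool.Agent.N414.LR (Op)
open scoped ENNReal Topology Pointwise
open Filter

noncomputable section

variable {P : Type}

lemma isPr_ad {u e : Op P} (hu : u ∈ unitary (Op P)) (he : IsPr e) : IsPr (ad u e) := by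
  have h1 : star u * u = 1 := (Unitary.mem_iff.1 hu).1
  refine ⟨?_, ?_⟩
  · unfold ad
    calc u * e * star u * (u * e * star u) = u * e * (star u * u) * e * star u := by
          simp only [mul_assoc]
      _ = u * (e * e) * star u := by rw [h1, mul_one]; simp only [mul_assoc]
      _ = u * e * star u := by rw [he.1]
  · unfold ad
    rw [star_mul, star_mul, star_star, he.2, mul_assoc]

lemma en_pr {f : Op P} (hf : IsPr f) (b c : P) :
    en f b c = inner ℂ (f (dl b)) (f (dl c)) := by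
  have h : f = star f * f := by rw [hf.2, hf.1]
  unfold en
  rw [← inner_dl]
  conv_lhs => rw [h]
  rw [mul_ap, ContinuousLinearMap.star_eq_adjoint, ContinuousLinearMap.adjoint_inner_right]

lemma norm_en_diag {f : Op P} (hf : IsPr f) (b : P) : ‖en f b b‖ = ‖f (dl b)‖ ^ 2 := by
  rw [en_pr hf, inner_self_eq_norm_sq_to_K]
  simp

lemma enorm_en_sq_le {f : Op P} (hf : IsPr f) (b c : P) :
    ‖en f b c‖ₑ ^ 2 ≤ ‖en f b b‖ₑ * ‖f (dl c)‖ₑ ^ 2 := by
  have h1 : ‖en f b c‖ ≤ ‖f (dl b)‖ * ‖f (dl c)‖ := by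
    rw [en_pr hf]; exact norm_inner_le_norm _ _
  have h2 : ‖en f b c‖ ^ 2 ≤ ‖en f b b‖ * ‖f (dl c)‖ ^ 2 := by
    rw [norm_en_diag hf, ← mul_pow]
    exact pow_le_pow_left₀ (norm_nonneg _) h1 2
  have h3 : ‖en f b c‖ₑ ^ 2 = ENNReal.ofReal (‖en f b c‖ ^ 2) := by
    rw [ENNReal.ofReal_pow (norm_nonneg _), ofReal_norm_eq_enorm]
  have h4 : ‖en f b b‖ₑ * ‖f (dl c)‖ₑ ^ 2 = ENNReal.ofReal (‖en f b b‖ * ‖f (dl c)‖ ^ 2) := by
    rw [ENNReal.ofReal_mul (norm_nonneg _), ENNReal.ofReal_pow (norm_nonneg _),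
      ofReal_norm_eq_enorm, ofReal_norm_eq_enorm]
  rw [h3, h4]
  exact ENNReal.ofReal_le_ofReal h2

open scoped Classical in
lemma tsum_shift {Λ : Type} [Group Λ] (A : Finset Λ) (c : Λ) (K : ℝ≥0∞) :
    ∑' b : Λ, (if b * c⁻¹ ∈ (A : Set Λ) then K else 0) = A.card * K := by
  rw [← (Equiv.mulRight c).tsum_eq (fun b : Λ => if b * c⁻¹ ∈ (A : Set Λ) then K else 0)]
  simp only [Equiv.coe_mulRight, mul_inv_cancel_right, Finset.mem_coe]
  rw [tsum_eq_sum (s := A) (fun b hb => by simp [hb])]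
  simp

open scoped Classical in
lemma key {Λ : Type} [Group Λ] (hb : HSB Λ) {f : Op Λ} (hf : IsPr f) (A : Finset Λ)
    (κ : ℝ≥0∞) (hκ : ∀ s, ‖en f s s‖ₑ ≤ κ) :
    hs f ≤ tl (A : Set Λ) f + A.card * κ * hs f := by
  have h1 : hs f = tl (A : Set Λ) f +
      ∑' b, ∑' c, (if b * c⁻¹ ∈ (A : Set Λ) then ‖en f b c‖ₑ ^ 2 else 0) := by
    unfold hs tl
    rw [← ENNReal.tsum_add]
    refine tsum_congr fun b => ?_
    rw [← ENNReal.tsum_add]
    refine tsum_congr fun c => ?_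
    split_ifs <;> simp
  have h2 : ∑' b, ∑' c, (if b * c⁻¹ ∈ (A : Set Λ) then ‖en f b c‖ₑ ^ 2 else 0) ≤
      A.card * κ * hs f := by
    rw [ENNReal.tsum_comm]
    calc ∑' c, ∑' b, (if b * c⁻¹ ∈ (A : Set Λ) then ‖en f b c‖ₑ ^ 2 else 0)
        ≤ ∑' c, ∑' b, (if b * c⁻¹ ∈ (A : Set Λ) then κ * ‖f (dl c)‖ₑ ^ 2 else 0) := by
          refine ENNReal.tsum_le_tsum fun c => ENNReal.tsum_le_tsum fun b => ?_
          split_ifs
          · refine (enorm_en_sq_le hf b c).trans ?_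
            gcongr
            exact hκ b
          · exact le_rfl
      _ = ∑' c, A.card * κ * ‖f (dl c)‖ₑ ^ 2 := by
          refine tsum_congr fun c => ?_
          rw [tsum_shift, mul_assoc]
      _ = A.card * κ * hs f := by
          rw [ENNReal.tsum_mul_left, ← hb.col]
  calc hs f = tl (A : Set Λ) f +
      ∑' b, ∑' c, (if b * c⁻¹ ∈ (A : Set Λ) then ‖en f b c‖ₑ ^ 2 else 0) := h1
    _ ≤ _ := by gcongr

theorem main : S_HSB → S_TLB → S_DIA := by
  intro hB _ G Λ _ _ v e he hne hT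
  have hb := hB Λ
  have hm0 : hs e ≠ 0 := fun h => hne (hb.zero e h)
  have hmt : hs e ≠ ∞ := hT.1.ne
  have hhalf : 0 < hs e / 2 := ENNReal.half_pos hm0
  obtain ⟨A, hA, hAt⟩ := hT.2 (hs e / 2) hhalf
  lift A to Finset Λ using hA
  have hN : (0 : ℝ) < 2 * ((A.card : ℝ) + 1) := by positivity
  refine ⟨(2 * ((A.card : ℝ) + 1))⁻¹, inv_pos.2 hN, fun g => ?_⟩
  by_contra hcon
  push Not at hcon
  set f : Op Λ := ad (v g : Op Λ) e with hfdef
  have hu : (v g : Op Λ) ∈ unitary (Op Λ) := (v g).2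
  have hf : IsPr f := isPr_ad hu he
  have hsf : hs f = hs e := by
    have h1 := (hb.uni (star (v g : Op Λ)) ((v g : Op Λ) * e) (Unitary.star_mem hu)).2
    have h2 := (hb.uni (v g : Op Λ) e hu).1
    rw [hfdef]
    unfold ad
    rw [h1, h2]
  have hκ : ∀ s, ‖en f s s‖ₑ ≤ ENNReal.ofReal ((2 * ((A.card : ℝ) + 1))⁻¹) := by
    intro s
    rw [← ofReal_norm_eq_enorm]
    exact ENNReal.ofReal_le_ofReal (hcon s).le
  have h1 := key hb hf A _ hκ
  rw [hsf] at h1
  have h2 : hs e ≤ hs e / 2 + A.card * ENNReal.ofReal ((2 * ((A.card : ℝ) + 1))⁻¹) * hs e := by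
    refine h1.trans ?_
    gcongr
    exact hAt g
  -- pass to real numbers
  have h3 : (hs e).toReal ≤ (hs e).toReal / 2 +
      (A.card : ℝ) * ((2 * ((A.card : ℝ) + 1))⁻¹) * (hs e).toReal := by
    have hfin : hs e / 2 + A.card * ENNReal.ofReal ((2 * ((A.card : ℝ) + 1))⁻¹) * hs e ≠ ∞ := by
      refine ENNReal.add_ne_top.2 ⟨(ENNReal.div_lt_top hmt (by norm_num)).ne, ?_⟩
      refine ENNReal.mul_ne_top (ENNReal.mul_ne_top (by simp) ENNReal.ofReal_ne_top) hmt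
    have h4 := ENNReal.toReal_mono hfin h2
    rw [ENNReal.toReal_add (ENNReal.div_lt_top hmt (by norm_num)).ne
      (ENNReal.mul_ne_top (ENNReal.mul_ne_top (by simp) ENNReal.ofReal_ne_top) hmt),
      ENNReal.toReal_div, ENNReal.toReal_mul, ENNReal.toReal_mul,
      ENNReal.toReal_ofReal (inv_pos.2 hN).le] at h4
    simpa using h4
  have hpos : 0 < (hs e).toReal := ENNReal.toReal_pos hm0 hmt
  have h5 : (A.card : ℝ) * ((2 * ((A.card : ℝ) + 1))⁻¹) < 1 / 2 := by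
    rw [← div_eq_mul_inv, div_lt_div_iff₀ hN (by norm_num)]
    linarith
  nlinarith

end

end Pool.Agent.H257.HD.DIA
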