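import Pool.Agent.H257.HD.Stm
import Pool.Graph.R_pool_sql_team_seeded_63374d34.N414.LR.END

/-! # Project HD, leaf FIN: the final algebra (helper353)

`W* v_h W = β_h lam (x_h)` for all `h` implies that `x` is a group isomorphism, `β` a unitary
character and `v_h = β_h W lam (x_h) W*`. -/

set_option autoImplicit false

namespace Pool.Agent.H257.HD.FIN

open Pool.Agent.H494R3.GT Pool.Agent.N557.QW
open Pool.Agent.N414.LR (Op IsIcc)

noncomputable section

/-- a multiple of a translation determines the coefficient and, if it is not zero, the element -/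
theorem coeff_eq {Λ : Type} [Group Λ] {b c : ℂ} {x y : Λ}
    (h : b • (lam x : Op Λ) = c • lam y) (hb : b ≠ 0) : x = y ∧ b = c := by
  have h1 : (b • (lam x : Op Λ)) (dl 1) = (c • lam y) (dl 1) := by rw [h]
  have h2 : b • (dl x : L2 Λ) = c • dl y := by
    have e1 : (b • (lam x : Op Λ)) (dl 1) = b • dl x := by
      change b • (lam x (dl 1)) = _
      rw [lam_dl, mul_one]
    have e2 : (c • (lam y : Op Λ)) (dl 1) = c • dl y := by
      change c • (lam y (dl 1)) = _
      rw [lam_dl, mul_one]
    rw [← e1, ← e2, h1]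
  have h3 : ∀ z : Λ, b * (dl x : L2 Λ) z = c * (dl y : L2 Λ) z := by
    intro z
    have := congrArg (fun u : L2 Λ => u z) h2
    simpa using this
  have hxy : x = y := by
    by_contra hne
    have := h3 x
    rw [dl_apply_self, dl_apply_ne hne, mul_one, mul_zero] at this
    exact hb this
  refine ⟨hxy, ?_⟩
  subst hxy
  have := h3 x
  rw [dl_apply_self, mul_one, mul_one] at this
  exact this

theorem lam_ne_zero {Λ : Type} [Group Λ] (x : Λ) : (lam x : Op Λ) ≠ 0 := by
  intro h
  have h1 : (lam x : Op Λ) (dl 1) = 0 := by rw [h]; rfl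
  rw [lam_dl, mul_one] at h1
  have h2 := dl_apply_self (P := Λ) x
  rw [h1] at h2
  simp at h2

theorem main : Pool.Agent.H257.HD.S_FIN := by
  intro G Λ _ _ v W hv hcf hd hW hWu hx
  choose β x hβ using hx
  have hs : star W * W = 1 := hWu.1
  have hs' : W * star W = 1 := hWu.2
  -- the unitaries `u h = W* v h W`
  have hv1 : ∀ h, star (v h : Op Λ) * (v h : Op Λ) = 1 := fun h => (v h).2.1
  have hstar : ∀ h, star (star W * (v h : Op Λ) * W) = star W * star (v h : Op Λ) * W := by
    intro h; simp [mul_assoc]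
  have huu : ∀ h, star (star W * (v h : Op Λ) * W) * (star W * (v h : Op Λ) * W) = 1 := by
    intro h
    rw [hstar]
    calc star W * star (v h : Op Λ) * W * (star W * (v h : Op Λ) * W)
        = star W * star (v h : Op Λ) * (W * star W) * (v h : Op Λ) * W := by noncomm_ring
      _ = star W * (star (v h : Op Λ) * (v h : Op Λ)) * W := by rw [hs']; noncomm_ring
      _ = 1 := by rw [hv1, mul_one, hs]
  have hunit : ∀ h, (starRingEnd ℂ) (β h) * β h = 1 := by
    intro h
    have h1 := huu h
    rw [hβ h] at h1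
    have h2 : star (β h • (lam (x h) : Op Λ)) * (β h • lam (x h)) =
        ((starRingEnd ℂ) (β h) * β h) • (lam (1 : Λ) : Op Λ) := by
      rw [star_smul, star_lam, smul_mul_smul_comm, ← lam_mul, inv_mul_cancel]
      rfl
    rw [h2, ← lam_one] at h1
    have h3 : ((starRingEnd ℂ) (β h) * β h - 1) • (lam (1 : Λ) : Op Λ) = 0 := by
      rw [sub_smul, one_smul, h1, sub_self]
    rcases smul_eq_zero.1 h3 with h4 | h4
    · exact sub_eq_zero.1 h4
    · exact absurd h4 (lam_ne_zero _)
  have hne : ∀ h, β h ≠ 0 := by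
    intro h h0
    have := hunit h
    rw [h0, mul_zero] at this
    exact zero_ne_one this
  have hmul : ∀ g h, (β g * β h) • (lam (x g * x h) : Op Λ) = β (g * h) • lam (x (g * h)) := by
    intro g h
    rw [← hβ (g * h), map_mul]
    calc (β g * β h) • (lam (x g * x h) : Op Λ)
        = (β g • lam (x g)) * (β h • lam (x h)) := by
          rw [smul_mul_smul_comm, ← lam_mul]
      _ = (star W * (v g : Op Λ) * W) * (star W * (v h : Op Λ) * W) := by rw [hβ, hβ]
      _ = star W * (v g : Op Λ) * (W * star W) * (v h : Op Λ) * W := by noncomm_ring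
      _ = star W * ((v g : Op Λ) * (v h : Op Λ)) * W := by rw [hs']; noncomm_ring
      _ = star W * ((v g * v h : unitary (Op Λ)) : Op Λ) * W := by
          rfl
  have hmul' : ∀ g h, x g * x h = x (g * h) ∧ β g * β h = β (g * h) := fun g h =>
    coeff_eq (hmul g h) (mul_ne_zero (hne g) (hne h))
  have hone : x 1 = 1 ∧ β 1 = 1 := by
    have h1 := hmul' 1 1
    rw [mul_one] at h1
    exact ⟨mul_eq_left.1 h1.1, by
      have := h1.2
      have h2 : β 1 * β 1 = β 1 * 1 := by rw [this, mul_one]
      exact mul_left_cancel₀ (hne 1) h2⟩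
  let f : G →* Λ :=
    { toFun := x, map_one' := hone.1, map_mul' := fun g h => ((hmul' g h).1).symm }
  have hmem : ∀ g, β g ∈ unitary ℂ := by
    intro g
    refine Unitary.mem_iff.2 ⟨?_, ?_⟩
    · exact hunit g
    · rw [mul_comm]; exact hunit g
  let χ : G →* unitary ℂ :=
    { toFun := fun g => ⟨β g, hmem g⟩
      map_one' := Subtype.ext hone.2
      map_mul' := fun g h => Subtype.ext ((hmul' g h).2).symm }
  have hWr : ∀ s : Λ, W (dl s) = rgt s (W (dl 1)) := by
    intro s
    have h1 : rgt s * W = W * rgt s := mem_LG.1 hW s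
    have h2 : (rgt s * W) (dl 1) = (W * rgt s) (dl 1) := by rw [h1]
    change rgt s (W (dl 1)) = W (rgt s (dl 1)) at h2
    rw [h2, rgt_dl, one_mul]
  have hvW : ∀ g, (v g : Op Λ) (W (dl 1)) = ((χ g : unitary ℂ) : ℂ) • rgt (f g) (W (dl 1)) := by
    intro g
    have h1 : (v g : Op Λ) * W = W * (β g • lam (x g)) := by
      rw [← hβ g]
      calc (v g : Op Λ) * W = (W * star W) * (v g : Op Λ) * W := by rw [hs', one_mul]
        _ = W * (star W * (v g : Op Λ) * W) := by noncomm_ring
    have h2 : ((v g : Op Λ) * W) (dl 1) = (W * (β g • lam (x g))) (dl 1) := by rw [h1]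
    change (v g : Op Λ) (W (dl 1)) = W (β g • (lam (x g) (dl 1))) at h2
    rw [h2, lam_dl, mul_one, map_smul, hWr]
    rfl
  obtain ⟨hbij, hfin⟩ := Pool.Agent.N414.LR.END.t_end G Λ v f χ W hv hcf hd hW hWu hvW
  refine ⟨MulEquiv.ofBijective f hbij, χ, ?_⟩
  intro g
  rw [hfin g]
  rfl

end

end Pool.Agent.H257.HD.FIN
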