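import Pool.Agent.H257.HD.FIN

/-! # Project HD, leaf FIN for subgroups (helper353, adapted) -/

set_option autoImplicit false

namespace Pool.Agent.H257.HD.FIN2

open Pool.Agent.H494R3.GT Pool.Agent.N557.QW
open Pool.Agent.N414.LR (Op IsIcc)
open Pool.Agent.H257.HD.FIN

noncomputable section

theorem main (G Λ : Type) [Group G] [Group Λ] (v : G →* unitary (Op Λ)) (W : Op Λ)
    (hcf : ∀ g, g ≠ 1 → cf (v g : Op Λ) 1 = 0) (_hW : W ∈ LG Λ) (hWu : W ∈ unitary (Op Λ))
    (hx : ∀ h : G, ∃ (β : ℂ) (x : Λ), star W * (v h : Op Λ) * W = β • lam x) :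
    ∃ (f : G →* Λ) (χ : G →* unitary ℂ), Function.Injective f ∧
      ∀ g, (v g : Op Λ) = ((χ g : unitary ℂ) : ℂ) • (W * lam (f g) * star W) := by
  choose β x hβ using hx
  have hs : star W * W = 1 := hWu.1
  have hs' : W * star W = 1 := hWu.2
  have hv1 : ∀ h, star (v h : Op Λ) * (v h : Op Λ) = 1 := fun h => (v h).2.1
  have hstar : ∀ h, star (star W * (v h : Op Λ) * W) = star W * star (v h : Op Λ) * W := by
    intro h; simp [mul_assoc]
  have huu : ∀ h, star (star W * (v h : Op Λ) * W) * (star W * (v h : Op Λ) * W) = 1 := by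
    intro h
    rw [hstar]
    calc star W * star (v h : Op Λ) * W * (star W * (v h : Op Λ) * W)
        = star W * star (v h : Op Λ) * (W * star W) * (v h : Op Λ) * W := by noncomm_ring
      _ = star W * (star (v h : Op Λ) * (v h : Op Λ)) * W := by rw [hs']; noncomm_ring
      _ = 1 := by rw [hv1, mul_one, hs]
  have hunit : ∀ h, (starRingEnd ℂ) (β h) * β h = 1 := by
    intro h
    have h1 := huu h
    rw [hβ h] at h1
    have h2 : star (β h • (lam (x h) : Op Λ)) * (β h • lam (x h)) =
        ((starRingEnd ℂ) (β h) * β h) • (lam (1 : Λ) : Op Λ) := by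
      rw [star_smul, star_lam, smul_mul_smul_comm, ← lam_mul, inv_mul_cancel]
      rfl
    rw [h2, ← lam_one] at h1
    have h3 : ((starRingEnd ℂ) (β h) * β h - 1) • (lam (1 : Λ) : Op Λ) = 0 := by
      rw [sub_smul, one_smul, h1, sub_self]
    rcases smul_eq_zero.1 h3 with h4 | h4
    · exact sub_eq_zero.1 h4
    · exact absurd h4 (lam_ne_zero _)
  have hne : ∀ h, β h ≠ 0 := by
    intro h h0
    have := hunit h
    rw [h0, mul_zero] at this
    exact zero_ne_one this
  have hmul : ∀ g h, (β g * β h) • (lam (x g * x h) : Op Λ) = β (g * h) • lam (x (g * h)) := by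
    intro g h
    rw [← hβ (g * h), map_mul]
    calc (β g * β h) • (lam (x g * x h) : Op Λ)
        = (β g • lam (x g)) * (β h • lam (x h)) := by
          rw [smul_mul_smul_comm, ← lam_mul]
      _ = (star W * (v g : Op Λ) * W) * (star W * (v h : Op Λ) * W) := by rw [hβ, hβ]
      _ = star W * (v g : Op Λ) * (W * star W) * (v h : Op Λ) * W := by noncomm_ring
      _ = star W * ((v g : Op Λ) * (v h : Op Λ)) * W := by rw [hs']; noncomm_ring
      _ = star W * ((v g * v h : unitary (Op Λ)) : Op Λ) * W := by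
          rfl
  have hmul' : ∀ g h, x g * x h = x (g * h) ∧ β g * β h = β (g * h) := fun g h =>
    coeff_eq (hmul g h) (mul_ne_zero (hne g) (hne h))
  have hone : x 1 = 1 ∧ β 1 = 1 := by
    have h1 := hmul' 1 1
    rw [mul_one] at h1
    exact ⟨mul_eq_left.1 h1.1, by
      have := h1.2
      have h2 : β 1 * β 1 = β 1 * 1 := by rw [this, mul_one]
      exact mul_left_cancel₀ (hne 1) h2⟩
  let f : G →* Λ :=
    { toFun := x, map_one' := hone.1, map_mul' := fun g h => ((hmul' g h).1).symm }
  have hmem : ∀ g, β g ∈ unitary ℂ := by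
    intro g
    refine Unitary.mem_iff.2 ⟨?_, ?_⟩
    · exact hunit g
    · rw [mul_comm]; exact hunit g
  let χ : G →* unitary ℂ :=
    { toFun := fun g => ⟨β g, hmem g⟩
      map_one' := Subtype.ext hone.2
      map_mul' := fun g h => Subtype.ext ((hmul' g h).2).symm }
  have hform : ∀ g, (v g : Op Λ) = ((χ g : unitary ℂ) : ℂ) • (W * lam (f g) * star W) := by
    intro g
    have h1 : W * (star W * (v g : Op Λ) * W) * star W = (v g : Op Λ) := by
      calc W * (star W * (v g : Op Λ) * W) * star W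
          = (W * star W) * (v g : Op Λ) * (W * star W) := by simp only [mul_assoc]
        _ = (v g : Op Λ) := by rw [hs', one_mul, mul_one]
    rw [← h1, hβ g, mul_smul_comm, smul_mul_assoc]
    rfl
  refine ⟨f, χ, ?_, hform⟩
  rw [injective_iff_map_eq_one]
  intro g hg
  by_contra hg1
  have h1 := hcf g hg1
  rw [hform g, hg, lam_one, mul_one, hs'] at h1
  rw [cf] at h1
  have h2 : (((χ g : unitary ℂ) : ℂ) • (1 : Op Λ)) (dl 1) = ((χ g : unitary ℂ) : ℂ) • dl 1 := rfl
  rw [h2, inner_smul_right, inner_dl, dl_apply_self, mul_one] at h1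
  exact hne g h1

end

end Pool.Agent.H257.HD.FIN2
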