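import Pool.Agent.H257.HD.Stm
import Pool.Graph.R_seed8.W440.RC.PTA

/-!
# Project HD (helper257), leaf GAP (helper807): the averaging operator of a finite generating set
-/

set_option autoImplicit false

namespace Pool.Agent.H257.HD.GAP

open Pool.Agent.W661.RC (HasT)
open Finset

noncomputable section

theorem norm_uni {H : Type} [NormedAddCommGroup H] [InnerProductSpace ℂ H] [CompleteSpace H]
    (u : unitary (H →L[ℂ] H)) (v : H) : ‖(u : H →L[ℂ] H) v‖ = ‖v‖ :=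
  ContinuousLinearMap.norm_map_of_mem_unitary u.2 v

/-- the norm of a sum and the mutual distances -/
theorem sum_identity {ι H : Type} [NormedAddCommGroup H] [InnerProductSpace ℂ H]
    (S : Finset ι) (x : ι → H) :
    2 * ‖∑ s ∈ S, x s‖ ^ 2 + ∑ s ∈ S, ∑ t ∈ S, ‖x s - x t‖ ^ 2 =
      2 * (S.card * ∑ s ∈ S, ‖x s‖ ^ 2) := by
  have h1 : ‖∑ s ∈ S, x s‖ ^ 2 = ∑ s ∈ S, ∑ t ∈ S, RCLike.re (inner ℂ (x s) (x t)) := by
    rw [← inner_self_eq_norm_sq (𝕜 := ℂ), sum_inner, map_sum]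
    refine sum_congr rfl fun s _ => ?_
    rw [inner_sum, map_sum]
  have h2 : ∀ s t, ‖x s - x t‖ ^ 2 =
      ‖x s‖ ^ 2 - 2 * RCLike.re (inner ℂ (x s) (x t)) + ‖x t‖ ^ 2 := fun s t =>
    norm_sub_sq (𝕜 := ℂ) (x s) (x t)
  rw [h1]
  simp_rw [h2, sum_add_distrib, sum_sub_distrib, sum_const, ← mul_sum, nsmul_eq_mul]
  rw [← mul_sum]
  ring

theorem avg_le {ι H : Type} [NormedAddCommGroup H] [InnerProductSpace ℂ H] [DecidableEq ι]
    (S : Finset ι) (x : ι → H) (o : ι) (ho : o ∈ S) (a : ℝ) (ha : ∀ s ∈ S, ‖x s‖ = a) :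
    ‖∑ s ∈ S, x s‖ ^ 2 + ∑ s ∈ S, ‖x s - x o‖ ^ 2 ≤ (S.card * a) ^ 2 := by
  have h := sum_identity S x
  have h3 : ∑ s ∈ S, ‖x s‖ ^ 2 = S.card * a ^ 2 := by
    rw [sum_congr rfl fun s hs => by rw [ha s hs], sum_const, nsmul_eq_mul]
  have h4 : 2 * ∑ s ∈ S, ‖x s - x o‖ ^ 2 ≤ ∑ s ∈ S, ∑ t ∈ S, ‖x s - x t‖ ^ 2 := by
    rw [← Finset.add_sum_erase S (fun s => ∑ t ∈ S, ‖x s - x t‖ ^ 2) ho]
    have h5 : ∑ t ∈ S, ‖x o - x t‖ ^ 2 = ∑ s ∈ S, ‖x s - x o‖ ^ 2 :=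
      sum_congr rfl fun s _ => by rw [norm_sub_rev]
    have h6 : ∑ s ∈ S, ‖x s - x o‖ ^ 2 = ∑ s ∈ S.erase o, ‖x s - x o‖ ^ 2 := by
      rw [← Finset.add_sum_erase S (fun s => ‖x s - x o‖ ^ 2) ho]
      simp
    have h7 : ∑ s ∈ S.erase o, ‖x s - x o‖ ^ 2 ≤ ∑ s ∈ S.erase o, ∑ t ∈ S, ‖x s - x t‖ ^ 2 := by
      refine sum_le_sum fun s _ => ?_
      exact Finset.single_le_sum (f := fun t => ‖x s - x t‖ ^ 2) (fun t _ => by positivity) ho
    rw [h5]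
    linarith
  rw [h3] at h
  nlinarith

theorem main : S_GAP := by
  classical
  intro G _ hT S h1 hS
  set k := S.card with hk
  let e := S.equivFin
  let γ : FreeGroup (Fin k) →* G := FreeGroup.lift (fun i => ((e.symm i : S) : G))
  have hγ : Function.Surjective γ := by
    rw [← MonoidHom.range_eq_top, FreeGroup.range_lift_eq_closure, ← hS]
    congr 1
    ext g
    constructor
    · rintro ⟨i, rfl⟩
      exact (e.symm i).2
    · intro hg
      exact ⟨e ⟨g, hg⟩, by simp⟩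
  obtain ⟨c, hc, hcc⟩ := W440.RC.main G k γ hT hγ
  have hk0 : 0 < (k : ℝ) := by
    have : 0 < S.card := Finset.card_pos.2 ⟨1, h1⟩
    exact_mod_cast this
  set q : ℝ := max 0 (1 - c / (k : ℝ) ^ 2) with hq
  have hq0 : 0 ≤ q := le_max_left _ _
  have hq1 : q < 1 := by
    rw [hq, max_lt_iff]
    refine ⟨one_pos, ?_⟩
    have : 0 < c / (k : ℝ) ^ 2 := by positivity
    linarith
  refine ⟨Real.sqrt q, Real.sqrt_nonneg _, ?_, ?_⟩
  · rw [Real.sqrt_lt' one_pos]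
    simpa using hq1
  · intro H _ _ _ π hni ξ
    have h2 := hcc H π hni ξ
    have h3 : ∑ s : Fin k, ‖(π (γ (FreeGroup.of s)) : H →L[ℂ] H) ξ - ξ‖ ^ 2 =
        ∑ s ∈ S, ‖(π s : H →L[ℂ] H) ξ - ξ‖ ^ 2 := by
      rw [← Finset.sum_coe_sort S (fun s => ‖(π s : H →L[ℂ] H) ξ - ξ‖ ^ 2)]
      rw [← Equiv.sum_comp e.symm (fun s : S => ‖(π (s : G) : H →L[ℂ] H) ξ - ξ‖ ^ 2)]
      refine Finset.sum_congr rfl fun i _ => ?_
      simp [γ]
    rw [h3] at h2
    have h4 := avg_le S (fun s => (π s : H →L[ℂ] H) ξ) 1 h1 ‖ξ‖ (fun s _ => norm_uni _ _)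
    have h5 : (π 1 : H →L[ℂ] H) ξ = ξ := by simp
    simp only [h5] at h4
    have h6 : ‖∑ s ∈ S, (π s : H →L[ℂ] H) ξ‖ ^ 2 ≤ (Real.sqrt q * k * ‖ξ‖) ^ 2 := by
      have h7 : (Real.sqrt q * k * ‖ξ‖) ^ 2 = q * k ^ 2 * ‖ξ‖ ^ 2 := by
        rw [mul_pow, mul_pow, Real.sq_sqrt hq0]
      have h8 : (1 - c / (k : ℝ) ^ 2) * k ^ 2 * ‖ξ‖ ^ 2 ≤ q * k ^ 2 * ‖ξ‖ ^ 2 := by
        have : 1 - c / (k : ℝ) ^ 2 ≤ q := le_max_right _ _
        gcongr
      have h9 : (1 - c / (k : ℝ) ^ 2) * k ^ 2 * ‖ξ‖ ^ 2 = (k * ‖ξ‖) ^ 2 - c * ‖ξ‖ ^ 2 := by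
        field_simp
      rw [h7]
      rw [h9] at h8
      linarith
    exact le_of_sq_le_sq h6 (by positivity)

theorem pow : S_POW := by
  classical
  intro G _ S r H _ _ _ π hr h n
  induction n with
  | zero =>
    intro ξ
    simp
  | succ n ih =>
    intro ξ
    have h1 : ∑ w ∈ Fintype.piFinset (fun _ : Fin (n + 1) => S),
        (π (List.ofFn w).prod : H →L[ℂ] H) ξ =
        ∑ s ∈ S, (π s : H →L[ℂ] H) (∑ w ∈ Fintype.piFinset (fun _ : Fin n => S),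
          (π (List.ofFn w).prod : H →L[ℂ] H) ξ) := by
      simp_rw [map_sum]
      rw [← Finset.sum_product']
      symm
      refine Finset.sum_nbij' (fun p => Fin.cons p.1 p.2) (fun w => (w 0, Fin.tail w)) ?_ ?_ ?_ ?_ ?_
      · intro p hp
        rw [Finset.mem_product] at hp
        rw [Fintype.mem_piFinset]
        intro i
        refine Fin.cases ?_ ?_ i
        · simpa using hp.1
        · intro j
          simpa using Fintype.mem_piFinset.1 hp.2 j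
      · intro w hw
        rw [Fintype.mem_piFinset] at hw
        rw [Finset.mem_product]
        exact ⟨hw 0, Fintype.mem_piFinset.2 fun j => hw j.succ⟩
      · intro p _
        simp
      · intro w _
        simp
      · intro p _
        simp [List.ofFn_cons]
    rw [h1]
    calc _ ≤ r * S.card * ‖∑ w ∈ Fintype.piFinset (fun _ : Fin n => S),
          (π (List.ofFn w).prod : H →L[ℂ] H) ξ‖ := h _
      _ ≤ r * S.card * ((r * S.card) ^ n * ‖ξ‖) := by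
        gcongr
        exact ih ξ
      _ = (r * S.card) ^ (n + 1) * ‖ξ‖ := by ring

end

end Pool.Agent.H257.HD.GAP
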