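import Pool.Agent.H257.HD.Stm
import Pool.Graph.R_pool_sql_team_seeded_63374d34.N169.QWP.COM

/-!
# HSB: elementary properties of the Hilbert–Schmidt norm (helper274 for helper257)
-/

set_option autoImplicit false

namespace Pool.Agent.H257.HD.HSBp

open Pool.Agent.H494R3.GT Pool.Agent.N557.QW
open Pool.Agent.N414.LR (Op IsIcc)
open scoped ENNReal Topology Pointwise
open Filter

noncomputable section

variable {P : Type}

theorem nsq (x : L2 P) : ‖x‖ₑ ^ 2 = ∑' b, ‖x b‖ₑ ^ 2 := by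
  have h0 : (0 : ℝ) < (2 : ℝ≥0∞).toReal := by norm_num
  have h1 := lp.hasSum_norm h0 x
  have e2 : (2 : ℝ≥0∞).toReal = ((2 : ℕ) : ℝ) := by norm_num
  rw [e2, Real.rpow_natCast] at h1
  have h2 : HasSum (fun b => ‖x b‖ ^ 2) (‖x‖ ^ 2) := by
    refine h1.congr_fun ?_
    intro b
    rw [Real.rpow_natCast]
  have h3 : ENNReal.ofReal (‖x‖ ^ 2) = ∑' b, ENNReal.ofReal (‖x b‖ ^ 2) := by
    rw [← h2.tsum_eq, ENNReal.ofReal_tsum_of_nonneg (fun b => by positivity) h2.summable]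
  rw [ENNReal.ofReal_pow (norm_nonneg _), ofReal_norm] at h3
  rw [h3]
  refine tsum_congr fun b => ?_
  rw [ENNReal.ofReal_pow (norm_nonneg _), ofReal_norm]

theorem col (T : Op P) : hs T = ∑' c, ‖T (dl c)‖ₑ ^ 2 := by
  unfold hs en
  rw [ENNReal.tsum_comm]
  exact tsum_congr fun c => (nsq _).symm

theorem star_hs (T : Op P) : hs (star T) = hs T := by
  unfold hs en
  rw [ENNReal.tsum_comm]
  refine tsum_congr fun b => tsum_congr fun c => ?_
  rw [Pool.Agent.N169.QWP.star_ap]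
  congr 1
  rw [← ofReal_norm, ← ofReal_norm, RCLike.norm_conj]

theorem uni_norm {u : Op P} (hu : u ∈ unitary (Op P)) (x : L2 P) : ‖u x‖ = ‖x‖ := by
  have h1 : star u * u = 1 := (Unitary.mem_iff.1 hu).1
  have h2 : inner ℂ (u x) (u x) = inner ℂ x x := by
    rw [← ContinuousLinearMap.adjoint_inner_right, ← ContinuousLinearMap.star_eq_adjoint,
      ← mul_ap, h1]
    rfl
  rw [inner_self_eq_norm_sq_to_K, inner_self_eq_norm_sq_to_K] at h2
  have h3 : ‖u x‖ ^ 2 = ‖x‖ ^ 2 := by exact_mod_cast h2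
  exact (pow_left_inj₀ (norm_nonneg _) (norm_nonneg _) two_ne_zero).1 h3

theorem uni_l (u T : Op P) (hu : u ∈ unitary (Op P)) : hs (u * T) = hs T := by
  rw [col, col]
  refine tsum_congr fun c => ?_
  rw [mul_ap, ← ofReal_norm, ← ofReal_norm, uni_norm hu]

theorem esq {E : Type*} [SeminormedAddCommGroup E] (x y : E) :
    ‖x + y‖ₑ ^ 2 ≤ 2 * ‖x‖ₑ ^ 2 + 2 * ‖y‖ₑ ^ 2 := by
  have h : (‖x + y‖₊ : NNReal) ^ 2 ≤ 2 * ‖x‖₊ ^ 2 + 2 * ‖y‖₊ ^ 2 := by
    rw [← NNReal.coe_le_coe]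
    push_cast
    have h1 := norm_add_le x y
    have h2 : 0 ≤ ‖x + y‖ := norm_nonneg _
    have h3 : 0 ≤ ‖x‖ := norm_nonneg _
    have h4 : 0 ≤ ‖y‖ := norm_nonneg _
    nlinarith [sq_nonneg (‖x‖ - ‖y‖)]
  have h' : ((‖x + y‖₊ ^ 2 : NNReal) : ℝ≥0∞) ≤ ((2 * ‖x‖₊ ^ 2 + 2 * ‖y‖₊ ^ 2 : NNReal) : ℝ≥0∞) :=
    ENNReal.coe_le_coe.2 h
  push_cast at h'
  exact h'

theorem vec (T : Op P) (x : L2 P) : ‖T x‖ₑ ^ 2 ≤ hs T * ‖x‖ₑ ^ 2 := by
  rw [nsq (T x), ← star_hs, col, ← ENNReal.tsum_mul_right]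
  refine ENNReal.tsum_le_tsum fun b => ?_
  have h1 : (T x) b = inner ℂ (star T (dl b)) x := by
    rw [ContinuousLinearMap.star_eq_adjoint, ContinuousLinearMap.adjoint_inner_left, inner_dl]
  have h2 : ‖(T x) b‖ ≤ ‖star T (dl b)‖ * ‖x‖ := by
    rw [h1]; exact norm_inner_le_norm _ _
  have h3 : ‖(T x) b‖ₑ ≤ ‖star T (dl b)‖ₑ * ‖x‖ₑ := by
    rw [← ofReal_norm, ← ofReal_norm, ← ofReal_norm,
      ← ENNReal.ofReal_mul (norm_nonneg _)]
    exact ENNReal.ofReal_le_ofReal h2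
  calc ‖(T x) b‖ₑ ^ 2 ≤ (‖star T (dl b)‖ₑ * ‖x‖ₑ) ^ 2 := by gcongr
    _ = _ := by rw [mul_pow]

theorem mull (S T : Op P) : hs (S * T) ≤ ‖S‖ₑ ^ 2 * hs T := by
  rw [col, col, ← ENNReal.tsum_mul_left]
  refine ENNReal.tsum_le_tsum fun c => ?_
  have h3 : ‖(S * T) (dl c)‖ₑ ≤ ‖S‖ₑ * ‖T (dl c)‖ₑ := by
    rw [mul_ap, ← ofReal_norm, ← ofReal_norm, ← ofReal_norm,
      ← ENNReal.ofReal_mul (norm_nonneg _)]
    exact ENNReal.ofReal_le_ofReal (S.le_opNorm _)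
  calc ‖(S * T) (dl c)‖ₑ ^ 2 ≤ (‖S‖ₑ * ‖T (dl c)‖ₑ) ^ 2 := by gcongr
    _ = _ := by rw [mul_pow]

theorem main' : S_HSB := by
  intro P
  refine ⟨col, star_hs, ?_, ?_, ?_, vec, ?_, mull, ?_, ?_, ?_⟩
  · intro u T hu
    refine ⟨uni_l u T hu, ?_⟩
    rw [← star_hs (T * u), star_mul, uni_l _ _ (Unitary.star_mem hu), star_hs]
  · intro S T
    rw [col, col S, col T, ← ENNReal.tsum_mul_left, ← ENNReal.tsum_mul_left, ← ENNReal.tsum_add]
    refine ENNReal.tsum_le_tsum fun c => ?_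
    rw [ContinuousLinearMap.add_apply]
    exact esq _ _
  · intro c T
    rw [col, col, ← ENNReal.tsum_mul_left]
    refine tsum_congr fun a => ?_
    rw [ContinuousLinearMap.smul_apply, enorm_smul, mul_pow]
  · intro S T
    rw [col (S * T), col T, ← ENNReal.tsum_mul_left]
    exact ENNReal.tsum_le_tsum fun c => vec S (T (dl c))
  · intro S T
    rw [← star_hs (S * T), star_mul]
    refine (mull _ _).trans (le_of_eq ?_)
    rw [star_hs, mul_comm]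
    congr 2
    rw [← ofReal_norm, ← ofReal_norm, ContinuousLinearMap.star_eq_adjoint,
      LinearIsometryEquiv.norm_map]
  · intro T b c
    exact (ENNReal.le_tsum c).trans (ENNReal.le_tsum (f := fun b => ∑' c, ‖en T b c‖ₑ ^ 2) b)
  · intro T hT
    apply op_ext
    intro c
    rw [col, ENNReal.tsum_eq_zero] at hT
    have := hT c
    rw [pow_eq_zero_iff two_ne_zero, enorm_eq_zero] at this
    rw [this]
    rfl

end

end Pool.Agent.H257.HD.HSBp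

namespace Pool.Agent.H257.HD

/-- HSB: elementary properties of the Hilbert–Schmidt norm. -/
theorem HSB.main : S_HSB := HSBp.main'

end Pool.Agent.H257.HD
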