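import Pool.Agent.H257.HD.Stm
import Pool.Graph.R_pool_sql_team_seeded_63374d34.N414.LR.CLS
import Pool.Graph.R_pool_sql_team_seeded_63374d34.N414.LR.END

/-! Project HD, leaf MIX (helper190): `v_g* a v_g → τ(a)` weakly along `V`. -/

set_option autoImplicit false
set_option linter.unusedSectionVars false

namespace Pool.Agent.H257.HD.MIX

open Pool.Agent.H494R3.GT Pool.Agent.N557.QW Pool.Agent.N169.QWP Pool.Agent.H257.HD
open Pool.Agent.N414.LR (Op IsIcc)
open Pool.Agent.N414.LR.CLS Pool.Agent.N414.LR.END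
open Filter Topology

noncomputable section

variable {G Λ : Type} [Group G] [Group Λ]

theorem vu1 (v : G →* unitary (Op Λ)) (g : G) : star (v g : Op Λ) * (v g : Op Λ) = 1 := (v g).2.1

theorem vu2 (v : G →* unitary (Op Λ)) (g : G) : (v g : Op Λ) * star (v g : Op Λ) = 1 := (v g).2.2

theorem nsq (x : Op Λ) : ‖x (dl 1)‖ ^ 2 = RCLike.re (cf (star x * x) 1) := by
  rw [x.apply_norm_sq_eq_inner_adjoint_right (dl 1)]
  rfl

/-- the trace norm is invariant under multiplication by unitaries of `L(Λ)` from the right -/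
theorem norm_right (v : G →* unitary (Op Λ)) (hv : ∀ g, (v g : Op Λ) ∈ LG Λ) (c : Op Λ)
    (hc : c ∈ LG Λ) (g : G) : ‖(c * (v g : Op Λ)) (dl 1)‖ = ‖c (dl 1)‖ := by
  have h : ‖(c * (v g : Op Λ)) (dl 1)‖ ^ 2 = ‖c (dl 1)‖ ^ 2 := by
    rw [nsq, nsq, star_mul]
    congr 1
    have e : star (v g : Op Λ) * star c * (c * (v g : Op Λ)) =
        star (v g : Op Λ) * ((star c * c) * (v g : Op Λ)) := by
      simp only [mul_assoc]
    rw [e, cf_comm (star_mem' (hv g)) (mul_mem' (mul_mem' (star_mem' hc) hc) (hv g)), mul_assoc,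
      vu2, mul_one]
  exact (pow_left_inj₀ (norm_nonneg _) (norm_nonneg _) two_ne_zero).1 h

theorem rgt_norm (s : Λ) (x : L2 Λ) : ‖rgt s x‖ = ‖x‖ := by
  have h : inner ℂ (rgt s x) (rgt s x) = inner ℂ x x := inner_rgt s x x
  rw [inner_self_eq_norm_sq_to_K, inner_self_eq_norm_sq_to_K] at h
  have h2 : ‖rgt s x‖ ^ 2 = ‖x‖ ^ 2 := by exact_mod_cast h
  exact (sq_eq_sq₀ (norm_nonneg _) (norm_nonneg _)).1 h2

/-- `v_g* c v_g δ_t` has the norm of `c δ_1` -/
theorem norm_conj (v : G →* unitary (Op Λ)) (hv : ∀ g, (v g : Op Λ) ∈ LG Λ) (c : Op Λ)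
    (hc : c ∈ LG Λ) (g : G) (t : Λ) :
    ‖(star (v g : Op Λ) * c * (v g : Op Λ)) (dl t)‖ = ‖c (dl 1)‖ := by
  have h1 : (star (v g : Op Λ) * c * (v g : Op Λ)) (dl t) =
      (v g⁻¹ : Op Λ) ((c * (v g : Op Λ)) (dl t)) := by
    rw [star_v]
    rfl
  have h2 : (c * (v g : Op Λ)) (dl t) = rgt t ((c * (v g : Op Λ)) (dl 1)) := by
    have := congrArg (fun y : L2 Λ →L[ℂ] L2 Λ => y (dl 1)) (mem_LG.1 (mul_mem' hc (hv g)) t)
    simp only [mul_ap, rgt_dl, one_mul] at this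
    simp only [mul_ap]
    exact this.symm
  rw [h1, norm_v, h2, rgt_norm, norm_right v hv c hc]

theorem cf_add (x y : Op Λ) (h : Λ) : cf (x + y) h = cf x h + cf y h := by
  rw [cf, cf, cf, ← inner_add_right]
  rfl

/-- conjugation escapes to infinity -/
theorem esc_tendsto (V : Ultrafilter G) (hV : Esc V) (k : G) (hk : k ≠ 1) :
    Tendsto (fun g : G => g⁻¹ * k * g) V cofinite := by
  change Filter.map (fun g : G => g⁻¹ * k * g) V ≤ cofinite
  rw [Filter.le_cofinite_iff_eventually_ne]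
  intro c
  rw [Filter.eventually_map]
  exact hV k hk c

/-- the elements with the mixing property -/
def PM (v : G →* unitary (Op Λ)) (V : Ultrafilter G) (b : Op Λ) : Prop :=
  ∀ x y : L2 Λ, Tendsto (fun g => inner ℂ x ((star (v g : Op Λ) * b * (v g : Op Λ)) y)) V
    (𝓝 (cf b 1 * inner ℂ x y))

theorem pm_v (v : G →* unitary (Op Λ)) (V : Ultrafilter G) (hv : ∀ g, (v g : Op Λ) ∈ LG Λ)
    (h1 : ∀ g, g ≠ 1 → cf (v g : Op Λ) 1 = 0) (hV : Esc V) (k : G) : PM v V (v k : Op Λ) := by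
  intro x y
  by_cases hk : k = 1
  · subst hk
    have e : ∀ g, inner ℂ x ((star (v g : Op Λ) * (v 1 : Op Λ) * (v g : Op Λ)) y) =
        cf (v 1 : Op Λ) 1 * inner ℂ x y := fun g => by
      have e1 : (v 1 : Op Λ) = 1 := by rw [map_one]; rfl
      rw [e1, mul_one, vu1, cf_one_one, one_mul]
      rfl
    exact tendsto_const_nhds.congr fun g => (e g).symm
  · rw [h1 k hk, zero_mul]
    have h2 := (mem_SS v x y).1 (all_mem v x hv h1 y)
    refine (h2.comp (esc_tendsto V hV k hk)).congr fun g => ?_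
    have e : (v (g⁻¹ * k * g) : Op Λ) = star (v g : Op Λ) * (v k : Op Λ) * (v g : Op Λ) := by
      rw [star_v, map_mul, map_mul]
      rfl
    show inner ℂ x ((v (g⁻¹ * k * g) : Op Λ) y) = _
    rw [e]

theorem pm_add (v : G →* unitary (Op Λ)) (V : Ultrafilter G) (b c : Op Λ) (hb : PM v V b)
    (hc : PM v V c) : PM v V (b + c) := by
  intro x y
  have h := (hb x y).add (hc x y)
  rw [cf_add, add_mul]
  refine h.congr fun g => ?_
  rw [mul_add, add_mul, ← inner_add_right]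
  rfl

theorem pm_smul (v : G →* unitary (Op Λ)) (V : Ultrafilter G) (z : ℂ) (b : Op Λ)
    (hb : PM v V b) : PM v V (z • b) := by
  intro x y
  have h := (hb x y).const_mul z
  rw [cf_smul, mul_assoc]
  refine h.congr fun g => ?_
  rw [mul_smul_comm, smul_mul_assoc, ← inner_smul_right]
  rfl

/-- approximation by elements with the mixing property -/
theorem approx (v : G →* unitary (Op Λ)) (V : Ultrafilter G) (hv : ∀ g, (v g : Op Λ) ∈ LG Λ)
    (h1 : ∀ g, g ≠ 1 → cf (v g : Op Λ) 1 = 0)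
    (hd : (Submodule.span ℂ (Set.range fun g => (v g : Op Λ) (dl 1))).topologicalClosure = ⊤)
    (hV : Esc V) (a : Op Λ) (ε : ℝ) (hε : 0 < ε) :
    ∃ b : Op Λ, b ∈ LG Λ ∧ PM v V b ∧ ‖a (dl 1) - b (dl 1)‖ < ε := by
  have hcomb : ∀ s ∈ Submodule.span ℂ (Set.range fun g => (v g : Op Λ) (dl 1)),
      ∃ b : Op Λ, b (dl 1) = s ∧ b ∈ LG Λ ∧ PM v V b := by
    intro s hs
    induction hs using Submodule.span_induction with
    | mem x hx =>
      obtain ⟨g, rfl⟩ := hx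
      exact ⟨_, rfl, hv g, pm_v v V hv h1 hV g⟩
    | zero =>
      refine ⟨(0 : ℂ) • (v 1 : Op Λ), ?_, smul_mem' _ (hv 1),
        pm_smul v V 0 _ (pm_v v V hv h1 hV 1)⟩
      rw [zero_smul]
      rfl
    | add x y _ _ hx hy =>
      obtain ⟨a, ha1, ha2, ha3⟩ := hx
      obtain ⟨b, hb1, hb2, hb3⟩ := hy
      refine ⟨a + b, ?_, (LG Λ).toStarSubalgebra.add_mem ha2 hb2, pm_add v V a b ha3 hb3⟩
      rw [← ha1, ← hb1]
      rfl
    | smul c x _ hx =>
      obtain ⟨a, ha1, ha2, ha3⟩ := hx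
      refine ⟨c • a, ?_, smul_mem' _ ha2, pm_smul v V c a ha3⟩
      rw [← ha1]
      rfl
  have hx : a (dl 1) ∈ closure ((Submodule.span ℂ (Set.range fun g => (v g : Op Λ) (dl 1)) :
      Submodule ℂ (L2 Λ)) : Set (L2 Λ)) := by
    change a (dl 1) ∈ (Submodule.span ℂ
      (Set.range fun g => (v g : Op Λ) (dl 1))).topologicalClosure
    rw [hd]
    exact Submodule.mem_top
  rw [Metric.mem_closure_iff] at hx
  obtain ⟨s, hs, hsx⟩ := hx ε hε
  obtain ⟨b, hb1, hb2, hb3⟩ := hcomb s hs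
  refine ⟨b, hb2, hb3, ?_⟩
  rw [hb1, ← dist_eq_norm]
  exact hsx

/-- the convergence at the basis vectors -/
theorem at_dl (v : G →* unitary (Op Λ)) (V : Ultrafilter G) (hv : ∀ g, (v g : Op Λ) ∈ LG Λ)
    (h1 : ∀ g, g ≠ 1 → cf (v g : Op Λ) 1 = 0)
    (hd : (Submodule.span ℂ (Set.range fun g => (v g : Op Λ) (dl 1))).topologicalClosure = ⊤)
    (hV : Esc V) (a : Op Λ) (ha : a ∈ LG Λ) (ha0 : cf a 1 = 0) (x : L2 Λ) (t : Λ) :
    Tendsto (fun g => inner ℂ x ((star (v g : Op Λ) * a * (v g : Op Λ)) (dl t))) V (𝓝 0) := by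
  rw [Metric.tendsto_nhds]
  intro ε hε
  have hδ : 0 < ε / (3 * (‖x‖ + 1)) := by positivity
  obtain ⟨b, hb, hbP, hab⟩ := approx v V hv h1 hd hV a _ hδ
  have hnd : ∀ s : Λ, ‖(dl s : L2 Λ)‖ = 1 := fun s => by
    have h' : (dl s : L2 Λ) = rgt s (dl 1) := by rw [rgt_dl, one_mul]
    rw [h', rgt_norm]
    exact (t_com Λ).2.unit
  have hx3 : ‖x‖ * (ε / (3 * (‖x‖ + 1))) ≤ ε / 3 := by
    calc ‖x‖ * (ε / (3 * (‖x‖ + 1))) ≤ (‖x‖ + 1) * (ε / (3 * (‖x‖ + 1))) :=
          mul_le_mul_of_nonneg_right (by linarith) hδ.le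
      _ = ε / 3 := by field_simp
  have hcfb : ‖cf b 1‖ ≤ ε / (3 * (‖x‖ + 1)) := by
    have e : cf b 1 = -inner ℂ (dl 1 : L2 Λ) (a (dl 1) - b (dl 1)) := by
      rw [inner_sub_right]
      change inner ℂ (dl 1) (b (dl 1)) = _
      have : inner ℂ (dl (1 : Λ)) (a (dl 1)) = 0 := ha0
      rw [this, zero_sub, neg_neg]
    rw [e, norm_neg]
    refine (norm_inner_le_norm _ _).trans ?_
    rw [hnd, one_mul]
    exact hab.le
  have h2 := (Metric.tendsto_nhds.1 (hbP x (dl t))) (ε / 3) (by positivity)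
  filter_upwards [h2] with g hg
  rw [dist_zero_right]
  rw [dist_eq_norm] at hg
  have e : inner ℂ x ((star (v g : Op Λ) * a * (v g : Op Λ)) (dl t)) =
      inner ℂ x ((star (v g : Op Λ) * (a - b) * (v g : Op Λ)) (dl t)) +
        (inner ℂ x ((star (v g : Op Λ) * b * (v g : Op Λ)) (dl t)) - cf b 1 * inner ℂ x (dl t)) +
        cf b 1 * inner ℂ x (dl t) := by
    have e1 : star (v g : Op Λ) * a * (v g : Op Λ) = star (v g : Op Λ) * (a - b) * (v g : Op Λ) +
        star (v g : Op Λ) * b * (v g : Op Λ) := by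
      rw [mul_sub, sub_mul]
      abel
    rw [e1]
    change inner ℂ x ((star (v g : Op Λ) * (a - b) * (v g : Op Λ)) (dl t) +
        (star (v g : Op Λ) * b * (v g : Op Λ)) (dl t)) = _
    rw [inner_add_right]
    ring
  rw [e]
  have h3 : ‖inner ℂ x ((star (v g : Op Λ) * (a - b) * (v g : Op Λ)) (dl t))‖ ≤ ε / 3 := by
    refine (norm_inner_le_norm _ _).trans ?_
    rw [norm_conj v hv (a - b) ((LG Λ).toStarSubalgebra.sub_mem ha hb) g t]
    refine (mul_le_mul_of_nonneg_left hab.le (norm_nonneg x)).trans hx3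
  have h4 : ‖cf b 1 * inner ℂ x (dl t)‖ ≤ ε / 3 := by
    rw [norm_mul]
    calc ‖cf b 1‖ * ‖inner ℂ x (dl t)‖ ≤ ε / (3 * (‖x‖ + 1)) * ‖x‖ := by
          refine mul_le_mul hcfb ?_ (norm_nonneg _) hδ.le
          refine (norm_inner_le_norm _ _).trans ?_
          rw [hnd, mul_one]
      _ ≤ ε / 3 := by rw [mul_comm]; exact hx3
  calc _ ≤ ‖inner ℂ x ((star (v g : Op Λ) * (a - b) * (v g : Op Λ)) (dl t)) +
        (inner ℂ x ((star (v g : Op Λ) * b * (v g : Op Λ)) (dl t)) -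
          cf b 1 * inner ℂ x (dl t))‖ + ‖cf b 1 * inner ℂ x (dl t)‖ := norm_add_le _ _
    _ ≤ ‖inner ℂ x ((star (v g : Op Λ) * (a - b) * (v g : Op Λ)) (dl t))‖ +
        ‖inner ℂ x ((star (v g : Op Λ) * b * (v g : Op Λ)) (dl t)) -
          cf b 1 * inner ℂ x (dl t)‖ + ‖cf b 1 * inner ℂ x (dl t)‖ :=
        add_le_add (norm_add_le _ _) le_rfl
    _ < ε := by linarith

/-- the vectors `y` with `⟨x, v_g* a v_g y⟩ → 0` -/
def TT (v : G →* unitary (Op Λ)) (V : Ultrafilter G) (a : Op Λ) (x : L2 Λ) :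
    Submodule ℂ (L2 Λ) where
  carrier := {y | Tendsto (fun g : G => inner ℂ x ((star (v g : Op Λ) * a * (v g : Op Λ)) y)) V
    (𝓝 0)}
  add_mem' := by
    intro p q hp hq
    have := Tendsto.add hp hq
    rw [add_zero] at this
    refine this.congr fun g => ?_
    rw [map_add, inner_add_right]
  zero_mem' := by
    refine tendsto_const_nhds.congr fun g => ?_
    rw [map_zero, inner_zero_right]
  smul_mem' := by
    intro c p hp
    have := Tendsto.const_mul c hp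
    rw [mul_zero] at this
    refine this.congr fun g => ?_
    rw [map_smul, inner_smul_right]

theorem conj_bd (v : G →* unitary (Op Λ)) (a : Op Λ) (g : G) (y : L2 Λ) :
    ‖(star (v g : Op Λ) * a * (v g : Op Λ)) y‖ ≤ ‖a‖ * ‖y‖ := by
  have h1 : (star (v g : Op Λ) * a * (v g : Op Λ)) y = (v g⁻¹ : Op Λ) (a ((v g : Op Λ) y)) := by
    rw [star_v]
    rfl
  rw [h1, norm_v]
  refine (a.le_opNorm _).trans ?_
  rw [norm_v]

theorem TT_closed (v : G →* unitary (Op Λ)) (V : Ultrafilter G) (a : Op Λ) (x : L2 Λ) :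
    IsClosed (TT v V a x : Set (L2 Λ)) := by
  apply isClosed_of_closure_subset
  intro y hy
  show Tendsto (fun g : G => inner ℂ x ((star (v g : Op Λ) * a * (v g : Op Λ)) y)) V (𝓝 0)
  rw [Metric.tendsto_nhds]
  intro ε hε
  have hpos : 0 < ε / (2 * (‖x‖ * ‖a‖ + 1)) := by positivity
  obtain ⟨y', hy', hd⟩ := Metric.mem_closure_iff.1 hy _ hpos
  have hy2 : Tendsto (fun g : G => inner ℂ x ((star (v g : Op Λ) * a * (v g : Op Λ)) y')) V
    (𝓝 0) := hy'
  have h1 := (Metric.tendsto_nhds.1 hy2) (ε / 2) (half_pos hε)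
  filter_upwards [h1] with g hg
  rw [dist_zero_right] at hg ⊢
  have e : inner ℂ x ((star (v g : Op Λ) * a * (v g : Op Λ)) y) =
      inner ℂ x ((star (v g : Op Λ) * a * (v g : Op Λ)) y') +
        inner ℂ x ((star (v g : Op Λ) * a * (v g : Op Λ)) (y - y')) := by
    rw [map_sub, inner_sub_right]
    ring
  rw [e]
  have h2 : ‖inner ℂ x ((star (v g : Op Λ) * a * (v g : Op Λ)) (y - y'))‖ ≤
      ‖x‖ * (‖a‖ * ‖y - y'‖) :=
    (norm_inner_le_norm _ _).trans
      (mul_le_mul_of_nonneg_left (conj_bd v a g _) (norm_nonneg x))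
  have h3 : ‖x‖ * (‖a‖ * ‖y - y'‖) ≤ ε / 2 := by
    rw [dist_eq_norm] at hd
    calc ‖x‖ * (‖a‖ * ‖y - y'‖) = (‖x‖ * ‖a‖) * ‖y - y'‖ := by ring
      _ ≤ (‖x‖ * ‖a‖ + 1) * (ε / (2 * (‖x‖ * ‖a‖ + 1))) := by
          refine mul_le_mul (by linarith) hd.le (norm_nonneg _) (by positivity)
      _ = ε / 2 := by field_simp
  calc _ ≤ ‖inner ℂ x ((star (v g : Op Λ) * a * (v g : Op Λ)) y')‖ +
      ‖inner ℂ x ((star (v g : Op Λ) * a * (v g : Op Λ)) (y - y'))‖ := norm_add_le _ _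
    _ < ε / 2 + ε / 2 := by linarith
    _ = ε := by ring

theorem main : S_MIX := by
  intro G Λ _ _ v V a hv h1 hd hV ha ha0 x y
  classical
  have h2 : HasSum (fun i => lp.single 2 i (y i)) y := lp.hasSum_single (by norm_num) y
  have h : y ∈ TT v V a x := by
    refine (TT_closed v V a x).mem_of_tendsto h2 (Eventually.of_forall fun s => ?_)
    refine (TT v V a x).sum_mem fun i _ => ?_
    have h3 : (lp.single 2 i (y i) : L2 Λ) = y i • dl i := by
      apply vec_ext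
      intro t
      by_cases ht : t = i
      · subst ht
        rw [lp.coeFn_smul, Pi.smul_apply, dl_apply_self]
        simp
      · rw [lp.coeFn_smul, Pi.smul_apply, dl_apply_ne ht]
        simp [lp.single_apply, ht]
    rw [h3]
    exact (TT v V a x).smul_mem _ (at_dl v V hv h1 hd hV a ha ha0 x i)
  exact h

end

end Pool.Agent.H257.HD.MIX

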