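import Pool.Agent.H257.HD.Stm

/-!
# Project HD, leaf NEU for subgroups (helper133, adapted)

If `G₀ ≤ G` and every `k ≠ 1` in `G` has infinitely many conjugates `g k g⁻¹`, `g ∈ G₀`, then there
is an ultrafilter `V` which contains `G₀` such that `g⁻¹ k g → ∞` along `V` for every `k ≠ 1`.
-/

set_option autoImplicit false

namespace Pool.Agent.H257.HD.NEU2

open scoped Pointwise
open Filter

variable {G : Type} [Group G] (G₀ : Subgroup G)

/-- the elements of `G₀` which commute with `c` -/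
def cz (c : G) : Subgroup G₀ := (Subgroup.centralizer {c}).subgroupOf G₀

lemma mem_cz (c : G) (g : G₀) : g ∈ cz G₀ c ↔ (g : G) * c = c * g := by
  rw [cz, Subgroup.mem_subgroupOf, Subgroup.mem_centralizer_singleton_iff]

/-- A centralizer of finite index gives a finite conjugacy class. -/
lemma finite_conj (c : G) (h : (cz G₀ c).FiniteIndex) :
    {x | ∃ k ∈ G₀, k * c * k⁻¹ = x}.Finite := by
  classical
  have hf : Finite (G₀ ⧸ cz G₀ c) := Subgroup.finite_quotient_of_finiteIndex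
  let F : G₀ ⧸ cz G₀ c → G := Quotient.lift (fun k : G₀ => (k : G) * c * (k : G)⁻¹) (by
    intro a b hab
    have h1 : a⁻¹ * b ∈ cz G₀ c := QuotientGroup.leftRel_apply.1 hab
    rw [mem_cz] at h1
    show (a : G) * c * (a : G)⁻¹ = b * c * (b : G)⁻¹
    have h2 : (b : G) = a * ((a⁻¹ * b : G₀) : G) := by push_cast; group
    generalize ((a⁻¹ * b : G₀) : G) = t at h1 h2
    rw [h2, mul_inv_rev, show (a : G) * t * c * (t⁻¹ * (a : G)⁻¹) = a * (t * c) * t⁻¹ * (a : G)⁻¹ by group,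
      h1]
    group)
  refine (Set.finite_range F).subset ?_
  rintro x ⟨k, hk, rfl⟩
  exact ⟨((⟨k, hk⟩ : G₀) : G₀ ⧸ cz G₀ c), rfl⟩

/-- The bad set is empty or a coset of a centralizer. -/
lemma bad_eq (k c : G) (g₀ : G₀) (h : (g₀ : G)⁻¹ * k * g₀ = c) :
    {g : G₀ | (g : G)⁻¹ * k * g = c} = g₀ • (cz G₀ c : Set G₀) := by
  ext g
  rw [Set.mem_smul_set_iff_inv_smul_mem, smul_eq_mul, SetLike.mem_coe, mem_cz, Set.mem_ofPred_eq]
  push_cast
  generalize (g : G) = g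
  generalize (g₀ : G) = g₀ at h ⊢
  subst h
  constructor
  · intro h
    have h2 : k = g * (g₀⁻¹ * k * g₀) * g⁻¹ := by rw [← h]; group
    have h3 : g₀⁻¹ * g * (g₀⁻¹ * k * g₀) = g₀⁻¹ * (g * (g₀⁻¹ * k * g₀) * g⁻¹) * g := by group
    rw [h3, ← h2]
    group
  · intro h
    have h3 : g⁻¹ * k * g = g⁻¹ * g₀ * (g₀⁻¹ * k * g₀ * (g₀⁻¹ * g)) := by group
    rw [h3, ← h]
    group

/-- No finite union of bad sets is everything. -/
lemma not_cover (hG : ∀ g : G, g ≠ 1 → {x : G | ∃ k ∈ G₀, k * g * k⁻¹ = x}.Infinite)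
    (u : Finset (G × G)) (hu : ∀ p ∈ u, p.1 ≠ 1) :
    ∃ g : G₀, ∀ p ∈ u, (g : G)⁻¹ * p.1 * g ≠ p.2 := by
  classical
  by_contra hcon
  push Not at hcon
  set w : Finset (G × G) := u.filter (fun p => ∃ g₀ : G₀, (g₀ : G)⁻¹ * p.1 * g₀ = p.2) with hw
  have hch : ∀ p : G × G, ∃ g₀ : G₀, p ∈ w → (g₀ : G)⁻¹ * p.1 * g₀ = p.2 := by
    intro p
    by_cases hp : p ∈ w
    · obtain ⟨g₀, h⟩ := (Finset.mem_filter.1 hp).2
      exact ⟨g₀, fun _ => h⟩
    · exact ⟨1, fun h => absurd h hp⟩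
  choose g₀ hg₀ using hch
  have hcov : ⋃ p ∈ w, g₀ p • ((cz G₀ p.2 : Subgroup G₀) : Set G₀) = Set.univ := by
    rw [Set.eq_univ_iff_forall]
    intro g
    obtain ⟨p, hp, hgp⟩ := hcon g
    have hpw : p ∈ w := Finset.mem_filter.2 ⟨hp, g, hgp⟩
    rw [Set.mem_iUnion₂]
    refine ⟨p, hpw, ?_⟩
    rw [← bad_eq G₀ p.1 p.2 (g₀ p) (hg₀ p hpw)]
    exact hgp
  obtain ⟨p, hpw, hfin⟩ := Subgroup.exists_finiteIndex_of_leftCoset_cover hcov
  have hp1 : p.1 ≠ 1 := hu p (Finset.mem_filter.1 hpw).1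
  have hp2 : p.2 ≠ 1 := by
    intro h
    apply hp1
    have h1 := hg₀ p hpw
    rw [h] at h1
    have h2 : p.1 = g₀ p * ((g₀ p : G)⁻¹ * p.1 * g₀ p) * (g₀ p : G)⁻¹ := by group
    rw [h2, h1]
    group
  exact (hG p.2 hp2) (finite_conj G₀ p.2 hfin)

theorem main (hG : ∀ g : G, g ≠ 1 → {x : G | ∃ k ∈ G₀, k * g * k⁻¹ = x}.Infinite) :
    ∃ V : Ultrafilter G₀, Esc (V.map (fun g : G₀ => (g : G))) := by
  classical
  let A : G × G → Set G₀ := fun p => {g | (g : G)⁻¹ * p.1 * g ≠ p.2}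
  let S : Set (Set G₀) := A '' {p | p.1 ≠ 1}
  have hfip : (Filter.generate S).NeBot := by
    rw [Filter.generate_neBot_iff]
    intro t ht hfin
    have hch : ∀ s : Set G₀, ∃ p : G × G, s ∈ t → p.1 ≠ 1 ∧ A p = s := by
      intro s
      by_cases hs : s ∈ t
      · obtain ⟨p, hp, hps⟩ := ht hs
        exact ⟨p, fun _ => ⟨hp, hps⟩⟩
      · exact ⟨(1, 1), fun h => absurd h hs⟩
    choose f hf using hch
    obtain ⟨g, hg⟩ := not_cover G₀ hG (hfin.toFinset.image f) (by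
      intro p hp
      obtain ⟨s, hs, rfl⟩ := Finset.mem_image.1 hp
      exact (hf s (hfin.mem_toFinset.1 hs)).1)
    refine ⟨g, ?_⟩
    rw [Set.mem_sInter]
    intro s hs
    rw [← (hf s hs).2]
    exact hg (f s) (Finset.mem_image.2 ⟨s, hfin.mem_toFinset.2 hs, rfl⟩)
  refine ⟨Ultrafilter.of (Filter.generate S), ?_⟩
  intro k hk c
  have h1 : A (k, c) ∈ Filter.generate S := Filter.GenerateSets.basic ⟨(k, c), hk, rfl⟩
  have h2 := Ultrafilter.of_le (Filter.generate S) h1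
  rw [Ultrafilter.coe_map, Filter.eventually_map]
  exact h2

end Pool.Agent.H257.HD.NEU2
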