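import Pool.Agent.H257.HD.Stm
import Pool.Graph.R_pool_sql_team_seeded_63374d34.N414.LR.CLS

/-!
# Project HD, leaf ORT for one ultrafilter (helper345, adapted)
-/

set_option autoImplicit false

namespace Pool.Agent.H257.HD.ORT2

open Pool.Agent.H494R3.GT Pool.Agent.N557.QW Pool.Agent.H257.HD
open Pool.Agent.N414.LR (Op)
open Pool.Agent.N414.LR.CLS (v_mul v_one inner_v norm_v inner_rgt)
open scoped Topology
open Filter

noncomputable section

variable {G Λ : Type} [Group G] [Group Λ]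

theorem comm_rgt (v : G →* unitary (Op Λ)) (hv : ∀ g, (v g : Op Λ) ∈ LG Λ) (k : G) (r : Λ)
    (x : L2 Λ) : (v k : Op Λ) (rgt r x) = rgt r ((v k : Op Λ) x) :=
  (congrArg (fun z : Op Λ => z x) (mem_LG.1 (hv k) r)).symm

theorem norm_rgt (r : Λ) (x : L2 Λ) : ‖rgt r x‖ = ‖x‖ := by
  have h := inner_rgt r x x
  rw [inner_self_eq_norm_sq_to_K, inner_self_eq_norm_sq_to_K] at h
  have h2 : ‖rgt r x‖ ^ 2 = ‖x‖ ^ 2 := by exact_mod_cast h
  exact (sq_eq_sq₀ (norm_nonneg _) (norm_nonneg _)).1 h2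

theorem est (v : G →* unitary (Op Λ)) (k : G) (p q : L2 Λ) (hp : ‖p‖ = 1) (hq : ‖q‖ = 1)
    (δ : ℝ) (h : ‖p - q‖ ≤ δ) :
    ‖inner ℂ p ((v k : Op Λ) p) - inner ℂ q ((v k : Op Λ) q)‖ ≤ 2 * δ := by
  have e : inner ℂ p ((v k : Op Λ) p) - inner ℂ q ((v k : Op Λ) q) =
      inner ℂ (p - q) ((v k : Op Λ) p) + inner ℂ q ((v k : Op Λ) (p - q)) := by
    rw [map_sub, inner_sub_left, inner_sub_right]
    ring
  rw [e]
  have h1 : ‖inner ℂ (p - q) ((v k : Op Λ) p)‖ ≤ δ := by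
    refine (norm_inner_le_norm _ _).trans ?_
    rw [norm_v, hp, mul_one]
    exact h
  have h2 : ‖inner ℂ q ((v k : Op Λ) (p - q))‖ ≤ δ := by
    refine (norm_inner_le_norm _ _).trans ?_
    rw [norm_v, hq, one_mul]
    exact h
  refine (norm_add_le _ _).trans ?_
  linarith

theorem main (hC0 : S_C0) (G Λ : Type) [Group G] [Group Λ] (v : G →* unitary (Op Λ)) (w : L2 Λ)
    (s : G → Λ) (V : Ultrafilter G) (hv : ∀ g, (v g : Op Λ) ∈ LG Λ)
    (h1 : ∀ g, g ≠ 1 → cf (v g : Op Λ) 1 = 0) (hw : ‖w‖ = 1)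
    (hpre : ∃ y, Tendsto (fun g => rgt (s g) ((v g : Op Λ) w)) V (𝓝 y)) (hesc : Esc V) (k : G)
    (hk : k ≠ 1) : inner ℂ w ((v k : Op Λ) w) = 0 := by
  obtain ⟨y, hy⟩ := hpre
  by_contra hne
  have hc : 0 < ‖inner ℂ w ((v k : Op Λ) w)‖ := norm_pos_iff.2 hne
  set c : ℝ := ‖inner ℂ w ((v k : Op Λ) w)‖ with hcdef
  have hE : ∀ᶠ g in (V : Filter G), ‖rgt (s g) ((v g : Op Λ) w) - y‖ < c / 8 := by
    have := (Metric.tendsto_nhds.1 hy) (c / 8) (by positivity)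
    simpa only [dist_eq_norm] using this
  obtain ⟨g', hg'⟩ := hE.exists
  have hk' : g' * k * g'⁻¹ ≠ 1 := by
    intro h
    apply hk
    have : g' * k = g' := by
      have h3 := congrArg (fun z => z * g') h
      simpa [mul_assoc] using h3
    exact mul_eq_left.1 this
  have htend : Tendsto (fun g : G => g⁻¹ * (g' * k * g'⁻¹) * g) V cofinite := by
    rw [Filter.tendsto_def]
    intro S hS
    rw [Filter.mem_cofinite] at hS
    have h3 : ∀ c' ∈ Sᶜ, ∀ᶠ g in (V : Filter G), g⁻¹ * (g' * k * g'⁻¹) * g ≠ c' :=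
      fun c' _ => hesc _ hk' c'
    have h4 := (hS.eventually_all (l := (V : Filter G))).2 h3
    filter_upwards [h4] with g hg
    by_contra hgS
    exact hg _ hgS rfl
  have h0 := (hC0 G Λ v hv h1 w w).comp htend
  have h0' := (Metric.tendsto_nhds.1 h0) (c / 4) (by positivity)
  obtain ⟨g, hg, hg0⟩ := (hE.and h0').exists
  rw [dist_zero_right] at hg0
  simp only [Function.comp] at hg0
  set γ : G := g'⁻¹ * g with hγ
  have hγk : g⁻¹ * (g' * k * g'⁻¹) * g = γ⁻¹ * (k * γ) := by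
    rw [hγ]; group
  rw [hγk, v_mul, v_mul, inner_v, inv_inv] at hg0
  have hp : ‖rgt (s g) ((v γ : Op Λ) w)‖ = 1 := by rw [norm_rgt, norm_v, hw]
  have hq : ‖rgt (s g') w‖ = 1 := by rw [norm_rgt, hw]
  have hd : ‖rgt (s g) ((v γ : Op Λ) w) - rgt (s g') w‖ ≤ c / 4 := by
    have e : rgt (s g) ((v γ : Op Λ) w) - rgt (s g') w =
        (v g'⁻¹ : Op Λ) (rgt (s g) ((v g : Op Λ) w) - rgt (s g') ((v g' : Op Λ) w)) := by
      rw [map_sub, comm_rgt v hv, comm_rgt v hv, ← v_mul, ← v_mul, inv_mul_cancel, v_one]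
    rw [e, norm_v]
    have e2 : rgt (s g) ((v g : Op Λ) w) - rgt (s g') ((v g' : Op Λ) w) =
        (rgt (s g) ((v g : Op Λ) w) - y) - (rgt (s g') ((v g' : Op Λ) w) - y) := by abel
    rw [e2]
    refine (norm_sub_le _ _).trans ?_
    linarith
  have h5 := est v k _ _ hp hq (c / 4) hd
  rw [comm_rgt v hv, comm_rgt v hv, inner_rgt, inner_rgt] at h5
  have h6 : c ≤ ‖inner ℂ ((v γ : Op Λ) w) ((v k : Op Λ) ((v γ : Op Λ) w))‖ +
      ‖inner ℂ ((v γ : Op Λ) w) ((v k : Op Λ) ((v γ : Op Λ) w)) -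
        inner ℂ w ((v k : Op Λ) w)‖ := by
    have h7 := norm_sub_norm_le (inner ℂ w ((v k : Op Λ) w))
      (inner ℂ ((v γ : Op Λ) w) ((v k : Op Λ) ((v γ : Op Λ) w)))
    rw [← norm_neg (inner ℂ w ((v k : Op Λ) w) - _), neg_sub] at h7
    rw [hcdef]
    linarith
  linarith

theorem c0 : S_C0 := fun _ _ _ _ v hv h1 x y => Pool.Agent.N414.LR.CLS.all_mem v x hv h1 y

end

end Pool.Agent.H257.HD.ORT2
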