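import Pool.Agent.H257.HD.Stm
import Pool.Graph.R_pool_sql_team_seeded_63374d34.N414.LR.TEN
import Pool.Graph.R_pool_sql_team_seeded_63374d34.N414.LR.BAR
import Pool.Graph.R_pool_sql_team_seeded_63374d34.N414.LR.RE0
import Pool.Graph.R_pool_sql_team_seeded_63374d34.N2.LR.HS

/-!
# Project HD, leaf REP (helper591): the representation with the coefficient `∑ |a_h|⁴`
-/

set_option autoImplicit false

namespace Pool.Agent.H257.HD.REP

open Pool.Agent.H494R3.GT Pool.Agent.N557.QW Pool.Agent.N169.QWP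
open Pool.Agent.N414.LR (Op)
open Pool.Agent.N414.LR.RE0 (cj cj_entry cj_one cj_mul cj_star)
open Pool.Agent.N2.LR.HS (mk2 mk2_apply sq_summable sq_tsum)
open scoped ENNReal Topology Pointwise
open Filter

noncomputable section

section general

variable {P : Type}

open scoped Classical in
lemma MM_apply (S : Set P) (v : L2 P) (x : P) : (MM S v) x = if x ∈ S then v x else 0 := by
  rw [← inner_dl, ← ContinuousLinearMap.adjoint_inner_left, ← ContinuousLinearMap.star_eq_adjoint,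
    star_MM, MM_dl]
  split_ifs with h
  · rw [inner_dl]
  · rw [inner_zero_left]

lemma MM_comm (S : Set P) (X : Op P) (h : ∀ p q, (p ∈ S ↔ q ∈ S) ∨ (X (dl p)) q = 0) :
    MM S * X = X * MM S := by
  classical
  apply op_ext
  intro p
  apply vec_ext
  intro q
  rw [mul_ap, mul_ap, MM_apply, MM_dl]
  by_cases hp : p ∈ S
  · rw [if_pos hp]
    by_cases hq : q ∈ S
    · rw [if_pos hq]
    · rw [if_neg hq]
      rcases h p q with h1 | h1
      · exact absurd (h1.1 hp) hq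
      · exact h1.symm
  · rw [if_neg hp, map_zero]
    by_cases hq : q ∈ S
    · rw [if_pos hq]
      rcases h p q with h1 | h1
      · exact absurd (h1.2 hq) hp
      · exact h1
    · rw [if_neg hq]
      rfl

/-- the coordinates of the image of a vector -/
lemma ap_coeff (x : Op P) (y : L2 P) (t : P) : (x y) t = ∑' r, (x (dl r)) t * y r := by
  have h0 : inner ℂ (dl t) (x y) = inner ℂ (star x (dl t)) y := by
    rw [ContinuousLinearMap.star_eq_adjoint, ContinuousLinearMap.adjoint_inner_left]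
  rw [← inner_dl t (x y), h0, lp.inner_eq_tsum]
  refine tsum_congr fun r => ?_
  rw [star_ap, RCLike.inner_apply, starRingEnd_self_apply, mul_comm]

lemma ap_summable (x : Op P) (y : L2 P) (t : P) : Summable fun r => (x (dl r)) t * y r := by
  have h := lp.summable_inner (𝕜 := ℂ) (star x (dl t)) y
  refine h.congr fun r => ?_
  rw [star_ap, RCLike.inner_apply, starRingEnd_self_apply, mul_comm]

lemma enorm_sq (x : L2 P) : ‖x‖ₑ ^ 2 = ∑' p, ‖x p‖ₑ ^ 2 := by
  have h1 : ‖x‖ₑ ^ 2 = ENNReal.ofReal (‖x‖ ^ 2) := by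
    rw [← ofReal_norm, ENNReal.ofReal_pow (norm_nonneg _)]
  rw [h1, ← sq_tsum, ENNReal.ofReal_tsum_of_nonneg (fun _ => by positivity) (sq_summable x)]
  refine tsum_congr fun p => ?_
  rw [← ofReal_norm, ENNReal.ofReal_pow (norm_nonneg _)]

lemma slice_le (x : L2 (P × (P × P))) (a : P) :
    ∑' b, ∑' c, ‖x (b, (c, a))‖ₑ ^ 2 ≤ ‖x‖ₑ ^ 2 := by
  rw [enorm_sq]
  have h1 : ∑' b, ∑' c, ‖x (b, (c, a))‖ₑ ^ 2 = ∑' p : P × P, ‖x (p.1, (p.2, a))‖ₑ ^ 2 :=
    (ENNReal.tsum_prod (f := fun b c => ‖x (b, (c, a))‖ₑ ^ 2)).symm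
  rw [h1]
  have hinj : Function.Injective (fun p : P × P => ((p.1, (p.2, a)) : P × (P × P))) := by
    rintro ⟨b, c⟩ ⟨b', c'⟩ e
    simp only [Prod.mk.injEq, and_true] at e
    rw [e.1, e.2]
  exact ENNReal.tsum_comp_le_tsum_of_injective hinj (fun y => ‖x y‖ₑ ^ 2)

lemma exists_small (x : L2 P) (ε : ℝ≥0∞) (hε : 0 < ε) :
    ∃ Φ : Finset P, ∀ S : Set P, (∀ p ∈ S, p ∉ Φ) → ‖MM S x‖ₑ ^ 2 ≤ ε := by
  classical
  have h0 : ∑' p, ‖x p‖ₑ ^ 2 ≠ ∞ := by
    rw [← enorm_sq]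
    exact ENNReal.pow_ne_top enorm_ne_top
  have h1 := (ENNReal.tendsto_tsum_compl_atTop_zero h0).eventually (ge_mem_nhds hε)
  obtain ⟨Φ, hΦ⟩ := h1.exists
  refine ⟨Φ, fun S hS => ?_⟩
  rw [enorm_sq]
  refine le_trans ?_ hΦ
  have h2 : (∑' b : {p // p ∉ Φ}, ‖x b‖ₑ ^ 2) =
      ∑' p, ({p | p ∉ Φ} : Set P).indicator (fun p => ‖x p‖ₑ ^ 2) p :=
    tsum_subtype ({p | p ∉ Φ} : Set P) (fun p => ‖x p‖ₑ ^ 2)
  rw [h2]
  refine ENNReal.tsum_le_tsum fun p => ?_
  rw [MM_apply]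
  by_cases hp : p ∈ S
  · rw [if_pos hp, Set.indicator_of_mem]
    exact hS p hp
  · rw [if_neg hp]
    simp

end general

variable {Λ : Type} [Group Λ]

/-- the permutation `(a, b, c) ↦ (a, b a⁻¹, c a⁻¹)` -/
def ee (Λ : Type) [Group Λ] : Equiv.Perm (Λ × (Λ × Λ)) where
  toFun p := (p.1, (p.2.1 * p.1⁻¹, p.2.2 * p.1⁻¹))
  invFun p := (p.1, (p.2.1 * p.1, p.2.2 * p.1))
  left_inv p := by simp
  right_inv p := by simp

lemma ee_ap (p : Λ × (Λ × Λ)) : ee Λ p = (p.1, (p.2.1 * p.1⁻¹, p.2.2 * p.1⁻¹)) := rfl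

open scoped Classical in
theorem main : S_REP := by
  intro G Λ _ _ v hv
  obtain ⟨T2, T21, T2m, T2s, T2e⟩ := Pool.Agent.N414.LR.TEN.main Λ Λ
  obtain ⟨T3, T31, T3m, T3s, T3e⟩ := Pool.Agent.N414.LR.TEN.main Λ (Λ × Λ)
  obtain ⟨C, C1, Cm, Cs, Ce⟩ := Pool.Agent.N414.LR.BAR.main Λ
  let T : Op Λ → Op Λ → Op Λ → Op (Λ × (Λ × Λ)) := fun x y z => T3 x (T2 y z)
  have T1 : T 1 1 1 = 1 := by
    change T3 1 (T2 1 1) = 1
    rw [T21, T31]
  have Tm : ∀ x x' y y' z z', T (x * x') (y * y') (z * z') = T x y z * T x' y' z' := by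
    intro x x' y y' z z'
    change T3 (x * x') (T2 (y * y') (z * z')) = T3 x (T2 y z) * T3 x' (T2 y' z')
    rw [T2m, T3m]
  have Ts : ∀ x y z, star (T x y z) = T (star x) (star y) (star z) := by
    intro x y z
    change star (T3 x (T2 y z)) = T3 (star x) (T2 (star y) (star z))
    rw [T3s, T2s]
  have Te' : ∀ x y z p q r p' q' r', (T x y z (dl (p, (q, r)))) (p', (q', r')) =
      (x (dl p)) p' * ((y (dl q)) q' * (z (dl r)) r') := by
    intro x y z p q r p' q' r'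
    change (T3 x (T2 y z) (dl (p, (q, r)))) (p', (q', r')) = _
    rw [← inner_dl, T3e, T2e, inner_dl, inner_dl, inner_dl]
  have Ce' : ∀ x p q, (C x (dl p)) q = (starRingEnd ℂ) ((x (dl p)) q) := by
    intro x p q
    rw [← inner_dl, ← inner_dl, Ce]
  have CL : ∀ x ∈ LG Λ, C x ∈ LG Λ := by
    intro x hx
    rw [mem_LG_iff]
    intro s t
    rw [cf, inner_dl, inner_dl, Ce', Ce', LG_coeff hx, LG_coeff hx]
    simp
  let Y : Op Λ → Op (Λ × (Λ × Λ)) := fun x => cj (ee Λ) (T (cj (Equiv.inv Λ) x) 1 1)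
  have Y1 : Y 1 = 1 := by
    change cj (ee Λ) (T (cj (Equiv.inv Λ) 1) 1 1) = 1
    rw [cj_one, T1, cj_one]
  have Ym : ∀ x y, Y (x * y) = Y x * Y y := by
    intro x y
    change cj (ee Λ) (T (cj (Equiv.inv Λ) (x * y)) 1 1) =
      cj (ee Λ) (T (cj (Equiv.inv Λ) x) 1 1) * cj (ee Λ) (T (cj (Equiv.inv Λ) y) 1 1)
    rw [cj_mul, ← cj_mul (ee Λ), ← Tm, one_mul]
  have Ys : ∀ x, Y (star x) = star (Y x) := by
    intro x
    change cj (ee Λ) (T (cj (Equiv.inv Λ) (star x)) 1 1) =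
      star (cj (ee Λ) (T (cj (Equiv.inv Λ) x) 1 1))
    rw [cj_star, ← cj_star (ee Λ), Ts, star_one]
  have Ye : ∀ x ∈ LG Λ, ∀ a b c a' b' c', (Y x (dl (a, (b, c)))) (a', (b', c')) =
      (cf x (a'⁻¹ * a)) * ((if b * a⁻¹ = b' * a'⁻¹ then 1 else 0) *
        (if c * a⁻¹ = c' * a'⁻¹ then 1 else 0)) := by
    intro x hx a b c a' b' c'
    change (cj (ee Λ) (T (cj (Equiv.inv Λ) x) 1 1) (dl (a, (b, c)))) (a', (b', c')) = _
    rw [cj_entry, ee_ap, ee_ap]
    rw [Te', cj_entry, LG_coeff hx]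
    congr 1
    · simp only [Equiv.inv_apply, inv_inv]
    · have h1 : ∀ b b' : Λ, (((1 : Op Λ) (dl (b * a⁻¹)) : L2 Λ)) (b' * a'⁻¹) =
          if b * a⁻¹ = b' * a'⁻¹ then 1 else 0 := by
        intro b b'
        change (dl (b * a⁻¹) : L2 Λ) (b' * a'⁻¹) = _
        by_cases h : b * a⁻¹ = b' * a'⁻¹
        · rw [if_pos h, h, dl_apply_self]
        · rw [if_neg h, dl_apply_ne (fun h' => h h'.symm)]
      rw [← h1 b b', ← h1 c c']
  have Yc : ∀ x ∈ LG Λ, ∀ g : Λ × (Λ × Λ), lam g * Y x = Y x * lam g := by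
    intro x hx g
    apply op_ext
    rintro ⟨a, ⟨b, c⟩⟩
    apply vec_ext
    rintro ⟨a', ⟨b', c'⟩⟩
    rw [mul_ap, mul_ap, lam_dl]
    have h1 : ∀ w : L2 (Λ × (Λ × Λ)), (lam g w) (a', (b', c')) = w (g⁻¹ * (a', (b', c'))) := by
      intro w
      rw [lam, UU_apply]
      rfl
    rw [h1]
    obtain ⟨h, ⟨k, l⟩⟩ := g
    have e1 : ((h, (k, l)) : Λ × (Λ × Λ))⁻¹ * (a', (b', c')) =
      (h⁻¹ * a', (k⁻¹ * b', l⁻¹ * c')) := rfl
    have e2 : ((h, (k, l)) : Λ × (Λ × Λ)) * (a, (b, c)) = (h * a, (k * b, l * c)) := rfl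
    rw [e1, e2, Ye x hx, Ye x hx]
    have e3 : ∀ k b b' : Λ,
        b * a⁻¹ = k⁻¹ * b' * (h⁻¹ * a')⁻¹ ↔ k * b * (h * a)⁻¹ = b' * a'⁻¹ := by
      intro k b b'
      constructor
      · intro e
        calc k * b * (h * a)⁻¹ = k * (b * a⁻¹) * h⁻¹ := by group
          _ = b' * a'⁻¹ := by rw [e]; group
      · intro e
        calc b * a⁻¹ = k⁻¹ * (k * b * (h * a)⁻¹) * h := by group
          _ = k⁻¹ * b' * (h⁻¹ * a')⁻¹ := by rw [e]; group
    have e4 : ∀ k b b' : Λ, (if b * a⁻¹ = k⁻¹ * b' * (h⁻¹ * a')⁻¹ then (1 : ℂ) else 0) =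
        if k * b * (h * a)⁻¹ = b' * a'⁻¹ then 1 else 0 := by
      intro k b b'
      by_cases h5 : b * a⁻¹ = k⁻¹ * b' * (h⁻¹ * a')⁻¹
      · rw [if_pos h5, if_pos ((e3 k b b').1 h5)]
      · rw [if_neg h5, if_neg (fun h6 => h5 ((e3 k b b').2 h6))]
    rw [e4, e4]
    congr 2
    group
  have TL : ∀ x ∈ LG Λ, ∀ y ∈ LG Λ, ∀ z ∈ LG Λ, T x y z ∈ LG (Λ × (Λ × Λ)) := by
    intro x hx y hy z hz
    rw [mem_LG_iff]
    rintro ⟨s, ⟨t, u⟩⟩ ⟨s', ⟨t', u'⟩⟩
    rw [cf, inner_dl, inner_dl]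
    have e1 : ((s', (t', u')) : Λ × (Λ × Λ)) * (s, (t, u))⁻¹ =
      (s' * s⁻¹, (t' * t⁻¹, u' * u⁻¹)) := rfl
    have e2 : (1 : Λ × (Λ × Λ)) = (1, (1, 1)) := rfl
    rw [e1, e2, Te', Te', LG_coeff hx, LG_coeff hy, LG_coeff hz, LG_coeff hx, LG_coeff hy,
      LG_coeff hz]
    simp
  have one_LG : (1 : Op Λ) ∈ LG Λ := (LG Λ).one_mem'
  have comm : ∀ x ∈ LG Λ, ∀ y ∈ LG Λ, ∀ z ∈ LG Λ, ∀ w ∈ LG Λ,
      Y x * T y z w = T y z w * Y x := by
    intro x hx y hy z hz w hw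
    exact commute (TL y hy z hz w hw) (Yc x hx)
  have un1 : ∀ x : unitary (Op Λ), star (x : Op Λ) * (x : Op Λ) = 1 := fun x =>
    (Unitary.mem_iff.1 x.2).1
  have un2 : ∀ x : unitary (Op Λ), (x : Op Λ) * star (x : Op Λ) = 1 := fun x =>
    (Unitary.mem_iff.1 x.2).2
  have Cu : ∀ x : unitary (Op Λ), C x ∈ unitary (Op Λ) := by
    intro x
    rw [Unitary.mem_iff, ← Cs, ← Cm, ← Cm, un1, un2, C1]
    exact ⟨rfl, rfl⟩
  have Tu : ∀ x ∈ unitary (Op Λ), ∀ y ∈ unitary (Op Λ), ∀ z ∈ unitary (Op Λ),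
      T x y z ∈ unitary (Op (Λ × (Λ × Λ))) := by
    intro x hx y hy z hz
    rw [Unitary.mem_iff] at hx hy hz ⊢
    rw [Ts, ← Tm, ← Tm, hx.1, hy.1, hz.1, hx.2, hy.2, hz.2, T1]
    exact ⟨rfl, rfl⟩
  have Yu : ∀ x : unitary (Op Λ), Y x ∈ unitary (Op (Λ × (Λ × Λ))) := by
    intro x
    rw [Unitary.mem_iff, ← Ys, ← Ym, ← Ym, un1, un2, Y1]
    exact ⟨rfl, rfl⟩
  have hu : ∀ g, T (v g) (C (v g)) (C (v g)) * Y (v g) ∈ unitary (Op (Λ × (Λ × Λ))) := by
    intro g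
    exact mul_mem (Tu _ (v g).2 _ (Cu _) _ (Cu _)) (Yu _)
  refine ⟨{ toFun := fun g => ⟨T (v g) (C (v g)) (C (v g)) * Y (v g), hu g⟩,
            map_one' := ?_, map_mul' := ?_ }, ?_, ?_⟩
  · apply Subtype.ext
    change T ((v 1 : unitary (Op Λ)) : Op Λ) (C ((v 1 : unitary (Op Λ)) : Op Λ))
      (C ((v 1 : unitary (Op Λ)) : Op Λ)) * Y ((v 1 : unitary (Op Λ)) : Op Λ) = 1
    rw [map_one]
    change T 1 (C 1) (C 1) * Y 1 = 1
    rw [C1, T1, Y1, one_mul]
  · intro g h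
    apply Subtype.ext
    change T ((v (g * h) : unitary (Op Λ)) : Op Λ) (C (v (g * h) : unitary (Op Λ)))
      (C (v (g * h) : unitary (Op Λ))) * Y ((v (g * h) : unitary (Op Λ)) : Op Λ) =
      T (v g) (C (v g)) (C (v g)) * Y (v g) * (T (v h) (C (v h)) (C (v h)) * Y (v h))
    have e : ((v (g * h) : unitary (Op Λ)) : Op Λ) = (v g : Op Λ) * (v h : Op Λ) := by
      rw [map_mul]; rfl
    rw [e, Cm, Tm, Ym]
    calc T (v g) (C (v g)) (C (v g)) * T (v h) (C (v h)) (C (v h)) * (Y (v g) * Y (v h))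
        = T (v g) (C (v g)) (C (v g)) * (T (v h) (C (v h)) (C (v h)) * Y (v g)) * Y (v h) := by
          simp only [mul_assoc]
      _ = T (v g) (C (v g)) (C (v g)) * (Y (v g) * T (v h) (C (v h)) (C (v h))) * Y (v h) := by
          rw [comm _ (hv g) _ (hv h) _ (CL _ (hv h)) _ (CL _ (hv h))]
      _ = T (v g) (C (v g)) (C (v g)) * Y (v g) * (T (v h) (C (v h)) (C (v h)) * Y (v h)) := by
          simp only [mul_assoc]
  · intro g
    change inner ℂ (dl ((1 : Λ), ((1 : Λ), (1 : Λ))))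
      ((T (v g) (C (v g)) (C (v g)) * Y (v g)) (dl (1, (1, 1)))) = _
    rw [inner_dl, mul_ap, mul_coeff]
    have hinj : Function.Injective (fun h : Λ => ((h⁻¹, (h⁻¹, h⁻¹)) : Λ × (Λ × Λ))) := by
      intro h h' e
      exact inv_injective (Prod.ext_iff.1 e).1
    rw [← hinj.tsum_eq]
    · rw [Complex.ofReal_tsum]
      refine tsum_congr fun h => ?_
      rw [Te', Ye _ (hv g), Ce', LG_coeff (hv g)]
      have e1 : (1 : Λ) * (h⁻¹)⁻¹ = h := by group
      have e2 : (h⁻¹)⁻¹ * (1 : Λ) = h := by group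
      have e3 : (1 : Λ) * 1⁻¹ = h⁻¹ * (h⁻¹)⁻¹ := by group
      rw [e1, e2, if_pos e3, mul_one, mul_one]
      have e4 : cf (v g : Op Λ) h * (starRingEnd ℂ) (cf (v g : Op Λ) h) =
          ((‖cf (v g : Op Λ) h‖ ^ 2 : ℝ) : ℂ) := by
        rw [Complex.mul_conj, Complex.normSq_eq_norm_sq]
      calc cf (v g : Op Λ) h * ((starRingEnd ℂ) (cf (v g : Op Λ) h) *
            (starRingEnd ℂ) (cf (v g : Op Λ) h)) * cf (v g : Op Λ) h
          = (cf (v g : Op Λ) h * (starRingEnd ℂ) (cf (v g : Op Λ) h)) *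
            (cf (v g : Op Λ) h * (starRingEnd ℂ) (cf (v g : Op Λ) h)) := by ring
        _ = ((‖cf (v g : Op Λ) h‖ ^ 4 : ℝ) : ℂ) := by
            rw [e4, ← Complex.ofReal_mul]
            congr 1
            ring
    · rintro ⟨a, ⟨b, c⟩⟩ hab
      by_cases e : a = b ∧ a = c
      · obtain ⟨e, e'⟩ := e
        subst e e'
        exact ⟨a⁻¹, by simp⟩
      · exfalso
        apply hab
        beta_reduce
        rw [Ye _ (hv g)]
        by_cases e1 : (1 : Λ) * 1⁻¹ = b * a⁻¹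
        · by_cases e2 : (1 : Λ) * 1⁻¹ = c * a⁻¹
          · exfalso
            apply e
            have e3 : b * a⁻¹ = 1 := by rw [← e1]; group
            have e4 : c * a⁻¹ = 1 := by rw [← e2]; group
            exact ⟨(mul_inv_eq_one.1 e3).symm, (mul_inv_eq_one.1 e4).symm⟩
          · rw [if_neg e2, mul_zero, mul_zero, mul_zero]
        · rw [if_neg e1, zero_mul, mul_zero, mul_zero]
  · rintro ⟨ζ, hζ, hinv⟩
    have hinv' : ∀ g, (T (v g) (C (v g)) (C (v g)) * Y (v g)) ζ = ζ := hinv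
    obtain ⟨⟨b₀, ⟨c₀, a⟩⟩, hne⟩ : ∃ x, ζ x ≠ 0 := by
      by_contra hcon
      push Not at hcon
      exact hζ (vec_ext hcon)
    have hinj : Function.Injective (fun p : Λ × Λ => ((p.1, (p.2, a)) : Λ × (Λ × Λ))) := by
      rintro ⟨b, c⟩ ⟨b', c'⟩ e
      simp only [Prod.mk.injEq, and_true] at e
      rw [e.1, e.2]
    have hsum : Summable fun p : Λ × Λ => ‖ζ (p.1, (p.2, a))‖ ^ 2 :=
      (sq_summable ζ).comp_injective hinj
    obtain ⟨K, -, hK⟩ := Pool.Agent.N2.LR.HS.main Λ (mk2 (fun p : Λ × Λ => ζ (p.1, (p.2, a))) hsum)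
    have hK' : ∀ b c, (K (dl c)) b = ζ (b, (c, a)) := by
      intro b c
      rw [← inner_dl, hK, mk2_apply]
    refine ⟨K, ?_, ?_, ?_⟩
    · intro h0
      apply hne
      rw [← hK', h0]
      rfl
    · have h1 : hs K ≤ ‖ζ‖ₑ ^ 2 := by
        rw [hs]
        simp only [en, hK']
        exact slice_le ζ a
      exact lt_of_le_of_lt h1 (ENNReal.pow_lt_top enorm_lt_top)
    · -- the entries of the translates
      have key : ∀ g b c, en (ad (v g : Op Λ) K) b c = (T (v g) (C (v g)) 1 ζ) (b, (c, a)) := by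
        intro g b c
        rw [en, ad, mul_ap, mul_ap, ap_coeff]
        have h1 : ∀ p, (K (star (v g : Op Λ) (dl c))) p =
            ∑' q, ζ (p, (q, a)) * (starRingEnd ℂ) (((v g : Op Λ) (dl q)) c) := by
          intro p
          rw [ap_coeff]
          refine tsum_congr fun q => ?_
          rw [hK', star_ap]
        have hS := ap_summable (T (v g) (C (v g)) 1) ζ (b, (c, a))
        rw [ap_coeff, hS.tsum_prod]
        refine tsum_congr fun p => ?_
        rw [h1, ← tsum_mul_left, (hS.prod_factor p).tsum_prod]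
        refine tsum_congr fun q => ?_
        rw [tsum_eq_single a]
        · rw [Te', Ce']
          have e1 : ((1 : Op Λ) (dl a) : L2 Λ) a = 1 := dl_apply_self a
          rw [e1]
          ring
        · intro r hr
          rw [Te']
          have e1 : ((1 : Op Λ) (dl r) : L2 Λ) a = 0 := dl_apply_ne (fun h => hr h.symm)
          rw [e1]
          ring
      intro ε hε
      obtain ⟨Φ, hΦ⟩ := exists_small ζ ε hε
      refine ⟨(fun x : Λ × (Λ × Λ) => x.1 * x.2.1⁻¹) '' (Φ : Set (Λ × (Λ × Λ))),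
        Φ.finite_toSet.image _, fun g => ?_⟩
      set A : Set Λ := (fun x : Λ × (Λ × Λ) => x.1 * x.2.1⁻¹) '' (Φ : Set (Λ × (Λ × Λ))) with hA
      let S : Set (Λ × (Λ × Λ)) := {x | x.1 * x.2.1⁻¹ ∉ A}
      let D : Op (Λ × (Λ × Λ)) := T 1 1 (C (v g)) * Y (v g)
      have hD : D ∈ unitary (Op (Λ × (Λ × Λ))) :=
        mul_mem (Tu _ (unitary (Op Λ)).one_mem _ (unitary (Op Λ)).one_mem _ (Cu _)) (Yu _)
      have hD' := Unitary.mem_iff.1 hD
      have hDE : D * T (v g) (C (v g)) 1 = T (v g) (C (v g)) (C (v g)) * Y (v g) := by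
        change T 1 1 (C (v g)) * Y (v g) * T (v g) (C (v g)) 1 = _
        rw [mul_assoc, comm _ (hv g) _ (hv g) _ (CL _ (hv g)) _ one_LG, ← mul_assoc, ← Tm,
          one_mul, one_mul, mul_one]
      have hE : T (v g) (C (v g)) 1 ζ = star D ζ := by
        have h1 : (D * T (v g) (C (v g)) 1) ζ = ζ := by rw [hDE]; exact hinv' g
        have h2 : (star D * (D * T (v g) (C (v g)) 1)) ζ = star D ζ := by
          rw [mul_ap, h1]
        rw [← mul_assoc, hD'.1, one_mul] at h2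
        exact h2
      have c1 : MM S * T 1 1 (C (v g)) = T 1 1 (C (v g)) * MM S := by
        apply MM_comm
        rintro ⟨p, ⟨q, r⟩⟩ ⟨p', ⟨q', r'⟩⟩
        by_cases e1 : p' = p
        · by_cases e2 : q' = q
          · subst e1 e2
            exact Or.inl Iff.rfl
          · right
            rw [Te']
            have e3 : ((1 : Op Λ) (dl q) : L2 Λ) q' = 0 := dl_apply_ne e2
            rw [e3]
            ring
        · right
          rw [Te']
          have e3 : ((1 : Op Λ) (dl p) : L2 Λ) p' = 0 := dl_apply_ne e1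
          rw [e3]
          ring
      have c2 : MM S * Y (v g) = Y (v g) * MM S := by
        apply MM_comm
        rintro ⟨p, ⟨q, r⟩⟩ ⟨p', ⟨q', r'⟩⟩
        by_cases e1 : q * p⁻¹ = q' * p'⁻¹
        · left
          change p * q⁻¹ ∉ A ↔ p' * q'⁻¹ ∉ A
          have e2 : p * q⁻¹ = p' * q'⁻¹ := by
            have := congrArg (fun x => x⁻¹) e1
            simpa using this
          rw [e2]
        · right
          rw [Ye _ (hv g), if_neg e1, zero_mul, mul_zero]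
      have c3 : MM S * D = D * MM S := by
        change MM S * (T 1 1 (C (v g)) * Y (v g)) = T 1 1 (C (v g)) * Y (v g) * MM S
        rw [← mul_assoc, c1, mul_assoc, c2, mul_assoc]
      have c4 : MM S * star D = star D * MM S := by
        have h1 := congrArg star c3
        rw [star_mul (MM S) D, star_mul D (MM S), star_MM] at h1
        exact h1.symm
      have hnorm : ‖star D (MM S ζ)‖ₑ = ‖MM S ζ‖ₑ := by
        have h1 : ‖star D (MM S ζ)‖ = ‖MM S ζ‖ :=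
          ContinuousLinearMap.norm_map_of_mem_unitary (Unitary.star_mem hD) _
        rw [← ofReal_norm, ← ofReal_norm, h1]
      have h1 : tl A (ad (v g : Op Λ) K) = ∑' b, ∑' c, ‖(MM S (star D ζ)) (b, (c, a))‖ₑ ^ 2 := by
        rw [tl]
        refine tsum_congr fun b => tsum_congr fun c => ?_
        rw [key, hE, MM_apply]
        by_cases h2 : b * c⁻¹ ∈ A
        · have h3 : ((b, (c, a)) : Λ × (Λ × Λ)) ∉ S := fun h4 => h4 h2
          rw [if_pos h2, if_neg h3]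
          simp
        · have h3 : ((b, (c, a)) : Λ × (Λ × Λ)) ∈ S := h2
          rw [if_neg h2, if_pos h3]
      rw [h1]
      refine (slice_le _ a).trans ?_
      have h5 : MM S (star D ζ) = star D (MM S ζ) := by
        rw [← mul_ap, c4, mul_ap]
      rw [h5, hnorm]
      refine hΦ S fun p hp hpΦ => hp ?_
      exact ⟨p, hpΦ, rfl⟩

end

end Pool.Agent.H257.HD.REP
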