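import Pool.Agent.H257.HD.Stm

/-!
# HD, leaf RNK: the Hilbert–Schmidt norm of a projection is an integer

If `b` is a Hilbert basis of the range of `e` then `‖e δ_c‖² = ∑_i |b_i(c)|²` (Parseval), so
`hs e = ∑_c ∑_i |b_i(c)|² = ∑_i 1`.
-/

set_option autoImplicit false

namespace Pool.Agent.H257.HD.RNK

open Pool.Agent.H494R3.GT Pool.Agent.N557.QW
open Pool.Agent.N414.LR (Op IsIcc)
open Pool.Agent.H257.HD
open scoped ENNReal Topology

noncomputable section

theorem enorm_sq_eq {E : Type} [SeminormedAddCommGroup E] (x : E) :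
    ‖x‖ₑ ^ 2 = ENNReal.ofReal (‖x‖ ^ 2) := by
  rw [ENNReal.ofReal_pow (norm_nonneg _), ofReal_norm]

/-- the norm of a vector of `ℓ²(P)` -/
theorem tsum_enorm_sq {P : Type} (x : L2 P) : ∑' c, ‖x c‖ₑ ^ 2 = ‖x‖ₑ ^ 2 := by
  have h := lp.hasSum_norm (p := 2) (by norm_num) x
  have h2 : HasSum (fun c => ‖x c‖ ^ 2) (‖x‖ ^ 2) := by
    simpa using h
  rw [enorm_sq_eq, ← h2.tsum_eq,
    ENNReal.ofReal_tsum_of_nonneg (fun c => by positivity) h2.summable]
  exact tsum_congr fun c => enorm_sq_eq _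

theorem main : S_HSB → S_RNK := by
  intro hB P e he hfin
  obtain ⟨h1, h2⟩ := he
  let V : Submodule ℂ (L2 P) := LinearMap.ker ((1 - e : Op P) : L2 P →ₗ[ℂ] L2 P)
  have hV : ∀ x : L2 P, x ∈ V ↔ e x = x := by
    intro x
    rw [LinearMap.mem_ker]
    have h0 : ((1 - e : Op P) : L2 P →ₗ[ℂ] L2 P) x = x - e x := rfl
    rw [h0, sub_eq_zero]
    exact eq_comm
  have hVe : ∀ x : L2 P, e x ∈ V := by
    intro x
    rw [hV]
    have := congrArg (fun T : Op P => T x) h1
    simpa using this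
  have hc : IsClosed (V : Set (L2 P)) := ContinuousLinearMap.isClosed_ker (1 - e : Op P)
  have : CompleteSpace V := hc.completeSpace_coe
  obtain ⟨w, b, -⟩ := exists_hilbertBasis ℂ V
  have key : ∀ c, ‖e (dl c)‖ₑ ^ 2 = ∑' i : w, ‖((b i : V) : L2 P) c‖ₑ ^ 2 := by
    intro c
    let y : V := ⟨e (dl c), hVe _⟩
    have hs := b.hasSum_inner_mul_inner y y
    have hin : ∀ i : w, inner ℂ (b i) y = (starRingEnd ℂ) (((b i : V) : L2 P) c) := by
      intro i
      have h3 : inner ℂ (b i) y = inner ℂ ((b i : V) : L2 P) (e (dl c)) := rfl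
      have h4 : inner ℂ ((b i : V) : L2 P) (e (dl c)) = inner ℂ ((b i : V) : L2 P) (dl c) := by
        have h5 : (star e) = e := h2
        have h6 : inner ℂ ((b i : V) : L2 P) (e (dl c)) =
            inner ℂ ((ContinuousLinearMap.adjoint e) ((b i : V) : L2 P)) (dl c) :=
          (ContinuousLinearMap.adjoint_inner_left e _ _).symm
        rw [h6]
        have h7 : (ContinuousLinearMap.adjoint e) = e := h2
        rw [h7, (hV _).1 (b i).2]
      rw [h3, h4, ← inner_conj_symm]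
      congr 1
      have := inner_dl c ((b i : V) : L2 P)
      simpa using this
    have hs2 : HasSum (fun i : w => ‖((b i : V) : L2 P) c‖ ^ 2) (‖e (dl c)‖ ^ 2) := by
      have h8 : HasSum (fun i : w => ((‖((b i : V) : L2 P) c‖ ^ 2 : ℝ) : ℂ))
          ((‖e (dl c)‖ ^ 2 : ℝ) : ℂ) := by
        have e1 : ∀ i : w, inner ℂ y (b i) * inner ℂ (b i) y =
            ((‖((b i : V) : L2 P) c‖ ^ 2 : ℝ) : ℂ) := by
          intro i
          rw [← inner_conj_symm y (b i), hin i, Complex.conj_conj, Complex.mul_conj,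
            Complex.normSq_eq_norm_sq]
        have e2 : inner ℂ y y = ((‖e (dl c)‖ ^ 2 : ℝ) : ℂ) := by
          have e3 : inner ℂ y y = inner ℂ (e (dl c)) (e (dl c)) := rfl
          rw [e3, inner_self_eq_norm_sq_to_K]
          push_cast
          rfl
        rw [← e2]
        have e4 : (fun i : w => ((‖((b i : V) : L2 P) c‖ ^ 2 : ℝ) : ℂ)) =
            fun i => inner ℂ y (b i) * inner ℂ (b i) y := funext fun i => (e1 i).symm
        rw [e4]
        exact hs
      exact_mod_cast h8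
    rw [enorm_sq_eq, ← hs2.tsum_eq,
      ENNReal.ofReal_tsum_of_nonneg (fun i => by positivity) hs2.summable]
    exact tsum_congr fun i => (enorm_sq_eq _).symm
  have norm1 : ∀ i : w, ∑' c, ‖((b i : V) : L2 P) c‖ₑ ^ 2 = 1 := by
    intro i
    rw [tsum_enorm_sq, enorm_sq_eq]
    have : ‖((b i : V) : L2 P)‖ = 1 := b.orthonormal.1 i
    rw [this]
    simp
  have hsum : hs e = (w.encard : ℝ≥0∞) := by
    rw [(hB P).col, tsum_congr key, ENNReal.tsum_comm, tsum_congr norm1]
    exact ENNReal.tsum_set_one w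
  have hw : w.encard ≠ ⊤ := by
    intro h
    rw [hsum, h] at hfin
    simp at hfin
  obtain ⟨m, hm⟩ := ENat.ne_top_iff_exists.1 hw
  refine ⟨m, ?_⟩
  rw [hsum, ← hm]
  rfl

end

end Pool.Agent.H257.HD.RNK
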