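import Pool.Agent.H257.HD.Stm

/-!
# Project HD, leaf RRZ: entrywise convergence with equality of the Hilbert-Schmidt norms gives
convergence in the Hilbert-Schmidt norm.
-/

set_option autoImplicit false

namespace Pool.Agent.H257.HD.RRZ

open Pool.Agent.H494R3.GT Pool.Agent.N557.QW
open Pool.Agent.N414.LR (Op IsIcc)
open scoped ENNReal Topology
open Filter

theorem hs_eq {P : Type} (T : Op P) : hs T = ∑' p : P × P, ‖en T p.1 p.2‖ₑ ^ 2 := by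
  unfold hs
  rw [ENNReal.tsum_prod']

theorem split {α : Type} (a : α → ℝ≥0∞) (Φ : Finset α) :
    ∑ x ∈ Φ, a x + ∑' x : {x // x ∉ Φ}, a x = ∑' x, a x := by
  have h := (ENNReal.summable (f := fun x : ((Φ : Set α) : Type) => a x)).tsum_add_tsum_compl
    (f := a) (s := (Φ : Set α)) ENNReal.summable
  rw [← h]
  congr 1
  rw [← Finset.tsum_subtype]
  rfl

theorem en_sub {P : Type} (S T : Op P) (b c : P) : en (S - T) b c = en S b c - en T b c := by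
  simp [en]

theorem sq_le (x y : ℂ) : ‖x - y‖ₑ ^ 2 ≤ 2 * ‖x‖ₑ ^ 2 + 2 * ‖y‖ₑ ^ 2 := by
  have h1 : ∀ z : ℂ, ‖z‖ₑ ^ 2 = ENNReal.ofReal (‖z‖ ^ 2) := by
    intro z
    rw [← ofReal_norm, ENNReal.ofReal_pow (norm_nonneg z)]
  have h2 : (2 : ℝ≥0∞) = ENNReal.ofReal 2 := by norm_num
  rw [h1, h1, h1, h2, ← ENNReal.ofReal_mul (by norm_num), ← ENNReal.ofReal_mul (by norm_num),
    ← ENNReal.ofReal_add (by positivity) (by positivity)]
  apply ENNReal.ofReal_le_ofReal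
  have := norm_sub_le x y
  nlinarith [sq_nonneg (‖x‖ - ‖y‖), norm_nonneg x, norm_nonneg y, norm_nonneg (x - y)]

theorem rrz : S_RRZ := by
  intro P ι U E f hE hf hlim
  rw [ENNReal.tendsto_nhds_zero]
  intro ε hε
  -- a finite positive `δ` with `7 δ ≤ ε`
  obtain ⟨δ, hδ0, hδt, hδε⟩ : ∃ δ : ℝ≥0∞, 0 < δ ∧ δ ≠ ∞ ∧ 7 * δ ≤ ε := by
    refine ⟨min 1 (ε / 7), ?_, ?_, ?_⟩
    · exact lt_min one_pos (ENNReal.div_pos hε.ne' (by norm_num))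
    · exact ne_top_of_le_ne_top ENNReal.one_ne_top (min_le_left _ _)
    · calc 7 * min 1 (ε / 7) ≤ 7 * (ε / 7) := by gcongr; exact min_le_right _ _
        _ ≤ ε := ENNReal.mul_div_le
  set F : P × P → ℝ≥0∞ := fun p => ‖en f p.1 p.2‖ₑ ^ 2 with hF
  have hsF : hs f = ∑' p, F p := hs_eq f
  have hFt : ∑' p, F p ≠ ∞ := by rw [← hsF]; exact hf.ne
  obtain ⟨Φ, hΦ⟩ : ∃ Φ : Finset (P × P), ∑' x : {x // x ∉ Φ}, F x ≤ δ := by
    have h := ENNReal.tendsto_tsum_compl_atTop_zero hFt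
    rw [ENNReal.tendsto_nhds_zero] at h
    exact (h δ hδ0).exists
  have hen : ∀ p : P × P, Tendsto (fun i => ‖en (E i) p.1 p.2‖ₑ ^ 2) U (𝓝 (F p)) := by
    intro p
    exact ((ENNReal.continuous_pow 2).tendsto _).comp ((hlim p.1 p.2).enorm)
  have hdf : ∀ p : P × P, Tendsto (fun i => ‖en (E i - f) p.1 p.2‖ₑ ^ 2) U (𝓝 0) := by
    intro p
    have h := (hlim p.1 p.2).sub_const (en f p.1 p.2)
    rw [sub_self] at h
    have h3 := ((ENNReal.continuous_pow 2).tendsto _).comp h.enorm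
    simp only [enorm_zero, ne_eq, OfNat.ofNat_ne_zero, not_false_eq_true, zero_pow] at h3
    refine h3.congr fun i => ?_
    simp [en_sub]
  have h1 : Tendsto (fun i => ∑ p ∈ Φ, ‖en (E i) p.1 p.2‖ₑ ^ 2) U (𝓝 (∑ p ∈ Φ, F p)) :=
    tendsto_finsetSum _ fun p _ => hen p
  have h2 : Tendsto (fun i => ∑ p ∈ Φ, ‖en (E i - f) p.1 p.2‖ₑ ^ 2) U (𝓝 0) := by
    have := tendsto_finsetSum Φ fun p (_ : p ∈ Φ) => hdf p
    simpa using this
  have hSt : ∑ p ∈ Φ, F p ≠ ∞ :=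
    ne_top_of_le_ne_top hFt (ENNReal.sum_le_tsum Φ)
  have e2 : ∀ᶠ i in U, ∑ p ∈ Φ, ‖en (E i - f) p.1 p.2‖ₑ ^ 2 ≤ δ := by
    rw [ENNReal.tendsto_nhds_zero] at h2
    exact h2 δ hδ0
  have e1 : ∀ᶠ i in U, ∑ p ∈ Φ, F p ≤ ∑ p ∈ Φ, ‖en (E i) p.1 p.2‖ₑ ^ 2 + δ := by
    have h := (ENNReal.tendsto_nhds hSt).1 h1 δ hδ0
    filter_upwards [h] with i hi
    have := hi.1
    exact tsub_le_iff_right.1 this
  filter_upwards [e1, e2] with i h1i h2i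
  set A : P × P → ℝ≥0∞ := fun p => ‖en (E i) p.1 p.2‖ₑ ^ 2 with hA
  have hsA : ∑' p, A p = ∑' p, F p := by
    rw [← hsF, ← hE i, hs_eq]
  have hAt : ∑ p ∈ Φ, A p ≠ ∞ := by
    refine ne_top_of_le_ne_top hFt ?_
    rw [← hsA]
    exact ENNReal.sum_le_tsum Φ
  have hA' : ∑' x : {x // x ∉ Φ}, A x ≤ 2 * δ := by
    have h3 : ∑ p ∈ Φ, A p + ∑' x : {x // x ∉ Φ}, A x ≤ ∑ p ∈ Φ, A p + 2 * δ := by
      rw [split, hsA, ← split F Φ]
      calc ∑ x ∈ Φ, F x + ∑' x : {x // x ∉ Φ}, F x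
          ≤ (∑ p ∈ Φ, A p + δ) + δ := add_le_add h1i hΦ
        _ = ∑ p ∈ Φ, A p + 2 * δ := by ring
    exact (ENNReal.add_le_add_iff_left hAt).1 h3
  rw [hs_eq, ← split _ Φ]
  have h4 : ∑' x : {x // x ∉ Φ}, ‖en (E i - f) (x : P × P).1 (x : P × P).2‖ₑ ^ 2 ≤
      2 * (2 * δ) + 2 * δ := by
    calc ∑' x : {x // x ∉ Φ}, ‖en (E i - f) (x : P × P).1 (x : P × P).2‖ₑ ^ 2
        ≤ ∑' x : {x // x ∉ Φ}, (2 * A x + 2 * F x) := by
          refine ENNReal.tsum_le_tsum fun x => ?_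
          rw [en_sub]
          exact sq_le _ _
      _ = 2 * ∑' x : {x // x ∉ Φ}, A x + 2 * ∑' x : {x // x ∉ Φ}, F x := by
          rw [ENNReal.tsum_add, ENNReal.tsum_mul_left, ENNReal.tsum_mul_left]
      _ ≤ 2 * (2 * δ) + 2 * δ := by gcongr
  calc _ ≤ δ + (2 * (2 * δ) + 2 * δ) := add_le_add h2i h4
    _ = 7 * δ := by ring
    _ ≤ ε := hδε

theorem main : S_HSB → S_RRZ := fun _ => rrz

end Pool.Agent.H257.HD.RRZ
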