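import Pool.Agent.H257.HD.Stm

/-! Project HD, leaf SPC: the spectral projection of a Hilbert–Schmidt operator. -/

set_option autoImplicit false

namespace Pool.Agent.H257.HD.SPC

open Pool.Agent.H494R3.GT Pool.Agent.N557.QW
open Pool.Agent.N414.LR (Op IsIcc)
open scoped ENNReal Topology Pointwise
open Filter

noncomputable section

variable {P : Type}

/-- powers of a self-adjoint operator can be moved -/
theorem inner_pow (A : Op P) (hs : star A = A) (a b : ℕ) (x y : L2 P) :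
    inner ℂ ((A ^ a) x) ((A ^ b) y) = inner ℂ ((A ^ (b + a)) x) y := by
  have h1 : star (A ^ b) = A ^ b := by rw [star_pow, hs]
  have h2 : inner ℂ ((A ^ a) x) ((A ^ b) y) = inner ℂ ((star (A ^ b)) ((A ^ a) x)) y := by
    rw [ContinuousLinearMap.star_eq_adjoint, ContinuousLinearMap.adjoint_inner_left]
  rw [h2, h1, pow_add]
  rfl

theorem norm_pow_le (A : Op P) (h1 : ‖A‖ = 1) (n : ℕ) (x : L2 P) : ‖(A ^ n) x‖ ≤ ‖x‖ := by
  induction n with
  | zero => simp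
  | succ n ih =>
    rw [pow_succ']
    calc ‖(A * A ^ n) x‖ = ‖A ((A ^ n) x)‖ := rfl
      _ ≤ ‖A‖ * ‖(A ^ n) x‖ := A.le_opNorm _
      _ ≤ ‖x‖ := by rw [h1, one_mul]; exact ih

theorem norm_anti (A : Op P) (h1 : ‖A‖ = 1) (x : L2 P) : Antitone fun n : ℕ => ‖(A ^ n) x‖ ^ 2 := by
  refine antitone_nat_of_succ_le fun n => ?_
  have : ‖(A ^ (n + 1)) x‖ ≤ ‖(A ^ n) x‖ := by
    rw [pow_succ']
    calc ‖(A * A ^ n) x‖ = ‖A ((A ^ n) x)‖ := rfl
      _ ≤ ‖A‖ * ‖(A ^ n) x‖ := A.le_opNorm _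
      _ = ‖(A ^ n) x‖ := by rw [h1, one_mul]
  exact pow_le_pow_left₀ (norm_nonneg _) this 2

/-- `‖A²ⁿ x - A²ᵐ x‖²` -/
theorem norm_diff (A : Op P) (hs : star A = A) (n m : ℕ) (x : L2 P) :
    ‖(A ^ (2 * n)) x - (A ^ (2 * m)) x‖ ^ 2 =
      ‖(A ^ (2 * n)) x‖ ^ 2 - 2 * ‖(A ^ (n + m)) x‖ ^ 2 + ‖(A ^ (2 * m)) x‖ ^ 2 := by
  rw [@norm_sub_sq ℂ]
  congr 3
  rw [inner_pow A hs, ← @inner_self_eq_norm_sq ℂ, inner_pow A hs]
  congr 4
  ring

theorem cau (A : Op P) (hs : star A = A) (h1 : ‖A‖ = 1) (x : L2 P) :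
    CauchySeq fun n : ℕ => (A ^ (2 * n)) x := by
  have h2 : Tendsto (fun n : ℕ => ‖(A ^ n) x‖ ^ 2) atTop (𝓝 (⨅ n : ℕ, ‖(A ^ n) x‖ ^ 2)) :=
    tendsto_atTop_ciInf (norm_anti A h1 x) ⟨0, by rintro _ ⟨n, rfl⟩; positivity⟩
  set l := ⨅ n : ℕ, ‖(A ^ n) x‖ ^ 2 with hl
  rw [Metric.cauchySeq_iff']
  intro ε hε
  obtain ⟨N, hN⟩ := (Metric.tendsto_atTop.1 h2) (ε ^ 2 / 4) (by positivity)
  refine ⟨N, fun n hn => ?_⟩
  rw [dist_eq_norm]
  have h3 := hN (2 * n) (by omega)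
  have h4 := hN (n + N) (by omega)
  have h5 := hN (2 * N) (by omega)
  rw [Real.dist_eq, abs_lt] at h3 h4 h5
  have h6 : ‖(A ^ (2 * n)) x - (A ^ (2 * N)) x‖ ^ 2 < ε ^ 2 := by
    rw [norm_diff A hs]
    linarith [h3.1, h3.2, h4.1, h4.2, h5.1, h5.2]
  exact lt_of_pow_lt_pow_left₀ 2 hε.le h6

theorem main : S_HSB → S_SPC := by
  intro hH P T hT hfin
  have H := hH P
  have hT0 : 0 < ‖T‖ := norm_pos_iff.2 hT
  set r : ℝ := (‖T‖ * ‖T‖)⁻¹ with hr
  have hr0 : 0 < r := by positivity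
  set A : Op P := (r : ℂ) • (star T * T) with hA
  have hA1 : ‖A‖ = 1 := by
    have h1 : ‖star T * T‖ = ‖T‖ * ‖T‖ := CStarRing.norm_star_mul_self (x := T)
    rw [hA, norm_smul, h1, Complex.norm_real, Real.norm_eq_abs, abs_of_pos hr0, hr]
    exact inv_mul_cancel₀ (by positivity)
  have hAs : star A = A := by
    rw [hA, star_smul, star_mul, star_star]
    simp
  have hAf : hs A < ∞ := by
    rw [hA, H.smul]
    refine ENNReal.mul_lt_top (by simp) ?_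
    refine lt_of_le_of_lt (H.mul _ _) ?_
    rw [H.star]
    exact ENNReal.mul_lt_top hfin hfin
  -- the strong limit
  have hlim : ∀ x : L2 P, ∃ y : L2 P, Tendsto (fun n : ℕ => (A ^ (2 * n)) x) atTop (𝓝 y) := fun x =>
    cauchySeq_tendsto_of_complete (cau A hAs hA1 x)
  choose E hE using hlim
  set e : Op P := continuousLinearMapOfTendsto (fun n : ℕ => A ^ (2 * n)) (f := E)
    (tendsto_pi_nhds.2 hE) with he
  have hee : ∀ x, Tendsto (fun n : ℕ => (A ^ (2 * n)) x) atTop (𝓝 (e x)) := fun x => hE x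
  have hen : ∀ x, ‖e x‖ ≤ ‖x‖ := fun x =>
    le_of_tendsto (hee x).norm (Eventually.of_forall fun n => norm_pow_le A hA1 (2 * n) x)
  -- `A² e = e` and `e A² = e`
  have hBe : ∀ x, (A ^ 2) (e x) = e x := by
    intro x
    have h1 : Tendsto (fun n : ℕ => (A ^ 2) ((A ^ (2 * n)) x)) atTop (𝓝 ((A ^ 2) (e x))) :=
      ((A ^ 2).continuous.tendsto _).comp (hee x)
    have h2 : Tendsto (fun n : ℕ => (A ^ (2 * (n + 1))) x) atTop (𝓝 (e x)) :=
      (hee x).comp (tendsto_add_atTop_nat 1)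
    refine tendsto_nhds_unique h1 (h2.congr fun n => ?_)
    rw [show 2 * (n + 1) = 2 + 2 * n by ring, pow_add]
    rfl
  have heB : ∀ x, e ((A ^ 2) x) = e x := by
    intro x
    have h2 : Tendsto (fun n : ℕ => (A ^ (2 * (n + 1))) x) atTop (𝓝 (e x)) :=
      (hee x).comp (tendsto_add_atTop_nat 1)
    refine tendsto_nhds_unique (hee ((A ^ 2) x)) (h2.congr fun n => ?_)
    rw [show 2 * (n + 1) = 2 * n + 2 by ring, pow_add]
    rfl
  have hBne : ∀ (n : ℕ) x, (A ^ (2 * n)) (e x) = e x := by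
    intro n x
    induction n with
    | zero => simp
    | succ n ih =>
      rw [show 2 * (n + 1) = 2 * n + 2 by ring, pow_add]
      show (A ^ (2 * n)) ((A ^ 2) (e x)) = e x
      rw [hBe, ih]
  have hidem : e * e = e := by
    ext1 x
    show e (e x) = e x
    refine tendsto_nhds_unique (hee (e x)) ?_
    simp only [hBne]
    exact tendsto_const_nhds
  have hself : star e = e := by
    rw [ContinuousLinearMap.star_eq_adjoint, eq_comm, ContinuousLinearMap.eq_adjoint_iff]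
    intro x y
    have h1 : Tendsto (fun n : ℕ => inner ℂ ((A ^ (2 * n)) x) y) atTop (𝓝 (inner ℂ (e x) y)) :=
      (hee x).inner tendsto_const_nhds
    have h2 : Tendsto (fun n : ℕ => inner ℂ x ((A ^ (2 * n)) y)) atTop (𝓝 (inner ℂ x (e y))) :=
      tendsto_const_nhds.inner (hee y)
    refine tendsto_nhds_unique h1 (h2.congr fun n => ?_)
    have := inner_pow A hAs 0 (2 * n) x y
    simpa using this
  -- convergence in the Hilbert–Schmidt norm
  have hcol : Summable fun c : P => ‖(A ^ 2) (dl c)‖ ^ 2 := by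
    have h1 : hs (A ^ 2) < ∞ := by
      rw [pow_two]
      exact lt_of_le_of_lt (H.mul _ _) (ENNReal.mul_lt_top hAf hAf)
    rw [H.col] at h1
    have h2 : ∀ c : P, ‖(A ^ 2) (dl c)‖ₑ ^ 2 = ENNReal.ofReal (‖(A ^ 2) (dl c)‖ ^ 2) := by
      intro c
      rw [ENNReal.ofReal_pow (norm_nonneg _), ofReal_norm]
    simp only [h2] at h1
    exact (ENNReal.summable_toReal h1.ne).congr fun c => ENNReal.toReal_ofReal (by positivity)
  have hdom : ∀ (n : ℕ) (c : P), ‖(e - A ^ (2 * (n + 1))) (dl c)‖ ^ 2 ≤ 4 * ‖(A ^ 2) (dl c)‖ ^ 2 := by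
    intro n c
    have h1 : (e - A ^ (2 * (n + 1))) (dl c) = e ((A ^ 2) (dl c)) - (A ^ (2 * n)) ((A ^ 2) (dl c)) := by
      rw [heB, show 2 * (n + 1) = 2 * n + 2 by ring, pow_add]
      rfl
    rw [h1]
    have h2 : ‖e ((A ^ 2) (dl c)) - (A ^ (2 * n)) ((A ^ 2) (dl c))‖ ≤ 2 * ‖(A ^ 2) (dl c)‖ := by
      refine (norm_sub_le _ _).trans ?_
      have h3 := hen ((A ^ 2) (dl c))
      have h4 := norm_pow_le A hA1 (2 * n) ((A ^ 2) (dl c))
      linarith
    calc ‖e ((A ^ 2) (dl c)) - (A ^ (2 * n)) ((A ^ 2) (dl c))‖ ^ 2 ≤ (2 * ‖(A ^ 2) (dl c)‖) ^ 2 :=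
          pow_le_pow_left₀ (norm_nonneg _) h2 2
      _ = 4 * ‖(A ^ 2) (dl c)‖ ^ 2 := by ring
  have hconv0 : Tendsto (fun n : ℕ => ∑' c : P, ‖(e - A ^ (2 * (n + 1))) (dl c)‖ ^ 2) atTop (𝓝 0) := by
    have h1 := tendsto_tsum_of_dominated_convergence (𝓕 := (atTop : Filter ℕ))
      (f := fun (n : ℕ) (c : P) => ‖(e - A ^ (2 * (n + 1))) (dl c)‖ ^ 2) (g := fun _ => (0 : ℝ))
      (bound := fun c => 4 * ‖(A ^ 2) (dl c)‖ ^ 2) (hcol.mul_left 4) ?_ ?_
    · simpa using h1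
    · intro c
      have h2 : Tendsto (fun n : ℕ => e (dl c) - (A ^ (2 * (n + 1))) (dl c)) atTop (𝓝 (e (dl c) - e (dl c))) :=
        tendsto_const_nhds.sub ((hee (dl c)).comp (tendsto_add_atTop_nat 1))
      rw [sub_self] at h2
      have h3 := (h2.norm).pow 2
      simpa using h3
    · refine Eventually.of_forall fun n c => ?_
      rw [Real.norm_eq_abs, abs_of_nonneg (by positivity)]
      exact hdom n c
  have hhs : ∀ n : ℕ, hs (e - A ^ (2 * (n + 1))) =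
      ENNReal.ofReal (∑' c : P, ‖(e - A ^ (2 * (n + 1))) (dl c)‖ ^ 2) := by
    intro n
    rw [H.col, ENNReal.ofReal_tsum_of_nonneg (fun c => by positivity)
      (Summable.of_nonneg_of_le (fun c => by positivity) (hdom n) (hcol.mul_left 4))]
    refine tsum_congr fun c => ?_
    rw [ENNReal.ofReal_pow (norm_nonneg _), ofReal_norm]
  have hconv : Tendsto (fun n : ℕ => hs (e - A ^ (2 * (n + 1)))) atTop (𝓝 0) := by
    simp only [hhs]
    have := (ENNReal.continuous_ofReal.tendsto 0).comp hconv0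
    rw [ENNReal.ofReal_zero] at this
    exact this
  refine ⟨e, A, ⟨hidem, hself⟩, ?_, ?_, ⟨r, rfl⟩, ?_⟩
  · -- `e ≠ 0`
    intro h0
    have h1 : ∀ᶠ n : ℕ in atTop, hs (e - A ^ (2 * (n + 1))) ≤ 1 / 4 := by
      have h2 : (0 : ℝ≥0∞) < 1 / 4 := by simp
      exact (hconv.eventually (gt_mem_nhds h2)).mono fun n hn => le_of_lt hn
    obtain ⟨N, hN⟩ := eventually_atTop.1 h1
    have h2 : N + 1 ≤ 2 ^ (N + 1) := (Nat.lt_two_pow_self).le
    obtain ⟨m, hm⟩ : ∃ m, 2 ^ (N + 1) = m + 1 := ⟨2 ^ (N + 1) - 1, by omega⟩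
    have h3 := hN m (by omega)
    rw [h0, zero_sub, ← hm, ← pow_succ'] at h3
    have h4 : ‖A ^ 2 ^ (N + 1 + 1)‖ = 1 := by
      have h5 : ∀ j : ℕ, ‖A ^ 2 ^ j‖ = 1 := by
        intro j
        induction j with
        | zero => rw [pow_zero, pow_one, hA1]
        | succ j ih =>
          have h6 : ‖star (A ^ 2 ^ j) * A ^ 2 ^ j‖ = ‖A ^ 2 ^ j‖ * ‖A ^ 2 ^ j‖ :=
            CStarRing.norm_star_mul_self (x := A ^ 2 ^ j)
          rw [star_pow, hAs, ih, ← pow_add, ← two_mul, ← pow_succ', mul_one] at h6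
          exact h6
      exact h5 _
    have h5 : ‖A ^ 2 ^ (N + 1 + 1)‖ ≤ 1 / 2 := by
      refine ContinuousLinearMap.opNorm_le_bound _ (by norm_num) fun x => ?_
      have h6 := H.vec (-A ^ 2 ^ (N + 1 + 1)) x
      have h7 : ‖(-A ^ 2 ^ (N + 1 + 1)) x‖ₑ ^ 2 ≤ 1 / 4 * ‖x‖ₑ ^ 2 := h6.trans (by gcongr)
      have h8 : ‖(-A ^ 2 ^ (N + 1 + 1)) x‖ = ‖(A ^ 2 ^ (N + 1 + 1)) x‖ := by
        show ‖-((A ^ 2 ^ (N + 1 + 1)) x)‖ = _
        rw [norm_neg]
      rw [← ofReal_norm, ← ofReal_norm, h8, ← ENNReal.ofReal_pow (norm_nonneg _),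
        ← ENNReal.ofReal_pow (norm_nonneg _)] at h7
      have h9 : (1 / 4 : ℝ≥0∞) = ENNReal.ofReal (1 / 4) := by
        rw [ENNReal.ofReal_div_of_pos (by norm_num)]
        simp
      rw [h9, ← ENNReal.ofReal_mul (by norm_num), ENNReal.ofReal_le_ofReal_iff (by positivity)] at h7
      have h10 : ‖(A ^ 2 ^ (N + 1 + 1)) x‖ ^ 2 ≤ (1 / 2 * ‖x‖) ^ 2 := by
        calc _ ≤ 1 / 4 * ‖x‖ ^ 2 := h7
          _ = _ := by ring
      exact le_of_sq_le_sq h10 (by positivity)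
    rw [h4] at h5
    norm_num at h5
  · have h1 : e = e * A ^ 2 := by
      ext1 x
      exact (heB x).symm
    rw [h1]
    refine lt_of_le_of_lt (H.mull _ _) ?_
    refine ENNReal.mul_lt_top (by simp) ?_
    rw [pow_two]
    exact lt_of_le_of_lt (H.mul _ _) (ENNReal.mul_lt_top hAf hAf)
  · intro ε hε
    obtain ⟨n, hn⟩ := (hconv.eventually (gt_mem_nhds hε)).exists
    refine ⟨2 * n + 1, ?_⟩
    have : 2 * n + 1 + 1 = 2 * (n + 1) := by ring
    rw [this]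
    exact le_of_lt hn

end

end Pool.Agent.H257.HD.SPC
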