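import Pool.Agent.H257.HD.Stm

/-!
# TCL: tight operators form a closed `*`-algebra
-/

set_option autoImplicit false

namespace Pool.Agent.H257.HD.TCL

open Pool.Agent.H494R3.GT Pool.Agent.N557.QW
open Pool.Agent.N414.LR (Op IsIcc)
open scoped ENNReal Topology Pointwise

theorem ad_add {P : Type} (u S T : Op P) : ad u (S + T) = ad u S + ad u T := by
  unfold ad
  rw [mul_add, add_mul]

theorem ad_smul {P : Type} (u : Op P) (c : ℂ) (T : Op P) : ad u (c • T) = c • ad u T := by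
  unfold ad
  rw [mul_smul_comm, smul_mul_assoc]

theorem ad_star {P : Type} (u T : Op P) : ad u (Star.star T) = Star.star (ad u T) := by
  unfold ad
  rw [star_mul, star_mul, star_star, mul_assoc]

theorem ad_mul {P : Type} {u : Op P} (hu : u ∈ unitary (Op P)) (S T : Op P) :
    ad u (S * T) = ad u S * ad u T := by
  unfold ad
  have h : Star.star u * u = 1 := Unitary.star_mul_self_of_mem hu
  calc u * (S * T) * Star.star u = u * S * 1 * T * Star.star u := by simp only [mul_assoc, one_mul]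
    _ = u * S * (Star.star u * u) * T * Star.star u := by rw [h]
    _ = u * S * Star.star u * (u * T * Star.star u) := by simp only [mul_assoc]

theorem hs_ad {P : Type} (H : HSB P) {u : Op P} (hu : u ∈ unitary (Op P)) (T : Op P) :
    hs (ad u T) = hs T := by
  unfold ad
  rw [(H.uni (Star.star u) (u * T) (Unitary.star_mem hu)).2, (H.uni u T hu).1]

theorem four_mul (ε : ℝ≥0∞) : 2 * (ε / 4) + 2 * (ε / 4) = ε := by
  rw [← add_mul]
  norm_num
  exact ENNReal.mul_div_cancel (by norm_num) (by norm_num)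

theorem div_pos' {ε k : ℝ≥0∞} (hε : 0 < ε) (hk : k < ∞) : 0 < ε / k :=
  ENNReal.div_pos hε.ne' hk.ne

theorem mul_div_le' {ε k : ℝ≥0∞} : k * (ε / (k + 1)) ≤ ε := by
  calc k * (ε / (k + 1)) ≤ (k + 1) * (ε / (k + 1)) := by gcongr; exact le_self_add
    _ ≤ ε := ENNReal.mul_div_le

/-- **TCL** -/
theorem main : S_HSB → S_TLB → S_TCL := by
  intro hH hT G Λ _ _ v
  have H := hH Λ
  have L := hT Λ
  have hu : ∀ g, (v g : Op Λ) ∈ unitary (Op Λ) := fun g => (v g).2
  refine ⟨?_, ?_, ?_, ?_, ?_⟩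
  · rintro S T ⟨hS, hS'⟩ ⟨hT, hT'⟩
    refine ⟨lt_of_le_of_lt (H.add S T) ?_, fun ε hε => ?_⟩
    · exact ENNReal.add_lt_top.2 ⟨ENNReal.mul_lt_top (by norm_num) hS,
        ENNReal.mul_lt_top (by norm_num) hT⟩
    · obtain ⟨A, hA, hA'⟩ := hS' (ε / 4) (div_pos' hε (by norm_num))
      obtain ⟨B, hB, hB'⟩ := hT' (ε / 4) (div_pos' hε (by norm_num))
      refine ⟨A ∪ B, hA.union hB, fun g => ?_⟩
      rw [ad_add]
      refine (L.add _ _ _).trans ?_
      conv_rhs => rw [← four_mul ε]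
      gcongr
      · exact (L.anti _ _ _ Set.subset_union_left).trans (hA' g)
      · exact (L.anti _ _ _ Set.subset_union_right).trans (hB' g)
  · rintro c T ⟨hT, hT'⟩
    have hc : ‖c‖ₑ ^ 2 < ∞ := by
      exact ENNReal.pow_lt_top enorm_lt_top
    refine ⟨?_, fun ε hε => ?_⟩
    · rw [H.smul]
      exact ENNReal.mul_lt_top hc hT
    · obtain ⟨A, hA, hA'⟩ := hT' (ε / (‖c‖ₑ ^ 2 + 1))
        (div_pos' hε (ENNReal.add_lt_top.2 ⟨hc, by norm_num⟩))
      refine ⟨A, hA, fun g => ?_⟩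
      rw [ad_smul, L.smul]
      exact (mul_le_mul_right (hA' g) _).trans mul_div_le'
  · rintro S T ⟨hS, hS'⟩ ⟨hT, hT'⟩
    refine ⟨lt_of_le_of_lt (H.mul S T) (ENNReal.mul_lt_top hS hT), fun ε hε => ?_⟩
    obtain ⟨A, hA, hA'⟩ := hS' (ε / 4 / (hs T + 1))
      (div_pos' (div_pos' hε (by norm_num)) (ENNReal.add_lt_top.2 ⟨hT, by norm_num⟩))
    obtain ⟨B, hB, hB'⟩ := hT' (ε / 4 / (hs S + 1))
      (div_pos' (div_pos' hε (by norm_num)) (ENNReal.add_lt_top.2 ⟨hS, by norm_num⟩))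
    refine ⟨A * B, hA.mul hB, fun g => ?_⟩
    rw [ad_mul (hu g)]
    refine (L.mul _ _ _ _).trans ?_
    rw [hs_ad H (hu g), hs_ad H (hu g)]
    conv_rhs => rw [← four_mul ε]
    gcongr
    · rw [mul_comm]
      exact (mul_le_mul_right (hA' g) _).trans mul_div_le'
    · exact (mul_le_mul_right (hB' g) _).trans mul_div_le'
  · rintro T ⟨hT, hT'⟩
    refine ⟨by rwa [H.star], fun ε hε => ?_⟩
    obtain ⟨A, hA, hA'⟩ := hT' ε hε
    refine ⟨A⁻¹, hA.inv, fun g => ?_⟩
    rw [ad_star, L.star]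
    exact hA' g
  · intro T hlim
    have e1 : ∀ S : Op Λ, T = S + (T - S) := fun S => by abel
    refine ⟨?_, fun ε hε => ?_⟩
    · obtain ⟨S, ⟨hS, -⟩, hS'⟩ := hlim 1 (by norm_num)
      rw [e1 S]
      refine lt_of_le_of_lt (H.add _ _) (ENNReal.add_lt_top.2
        ⟨ENNReal.mul_lt_top (by norm_num) hS, ENNReal.mul_lt_top (by norm_num) ?_⟩)
      exact lt_of_le_of_lt hS' (by norm_num)
    · obtain ⟨S, ⟨-, hS⟩, hS'⟩ := hlim (ε / 4) (div_pos' hε (by norm_num))
      obtain ⟨A, hA, hA'⟩ := hS (ε / 4) (div_pos' hε (by norm_num))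
      refine ⟨A, hA, fun g => ?_⟩
      rw [e1 S, ad_add]
      refine (L.add _ _ _).trans ?_
      conv_rhs => rw [← four_mul ε]
      gcongr
      · exact hA' g
      · refine (L.le _ _).trans ?_
        rw [hs_ad H (hu g)]
        exact hS'

end Pool.Agent.H257.HD.TCL
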