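import Pool.Agent.H257.HD.Stm

set_option autoImplicit false

namespace Pool.Agent.H257.HD.TLBx

open Pool.Agent.H494R3.GT Pool.Agent.N557.QW
open Pool.Agent.N414.LR (Op IsIcc)
open scoped ENNReal Topology Pointwise
open Filter

theorem two_mul_le (a b : ℝ≥0∞) : 2 * (a * b) ≤ a ^ 2 + b ^ 2 := by
  rcases le_total a b with h | h
  · obtain ⟨c, rfl⟩ := exists_add_of_le h
    calc 2 * (a * (a + c)) ≤ 2 * (a * (a + c)) + c ^ 2 := le_self_add
      _ = a ^ 2 + (a + c) ^ 2 := by ring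
  · obtain ⟨c, rfl⟩ := exists_add_of_le h
    calc 2 * ((b + c) * b) ≤ 2 * ((b + c) * b) + c ^ 2 := le_self_add
      _ = (b + c) ^ 2 + b ^ 2 := by ring

theorem add_sq_le (a b : ℝ≥0∞) : (a + b) ^ 2 ≤ 2 * a ^ 2 + 2 * b ^ 2 := by
  calc (a + b) ^ 2 = (a ^ 2 + b ^ 2) + 2 * (a * b) := by ring
    _ ≤ (a ^ 2 + b ^ 2) + (a ^ 2 + b ^ 2) := by gcongr; exact two_mul_le a b
    _ = _ := by ring

/-- Cauchy–Schwarz -/
theorem cs {ι : Type} (x y : ι → ℝ≥0∞) :
    (∑' c, x c * y c) ^ 2 ≤ (∑' c, x c ^ 2) * ∑' c, y c ^ 2 := by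
  have h : 2 * (∑' c, x c * y c) ^ 2 ≤ 2 * ((∑' c, x c ^ 2) * ∑' c, y c ^ 2) := by
    calc 2 * (∑' c, x c * y c) ^ 2 = ∑' c, ∑' d, 2 * ((x c * y d) * (x d * y c)) := by
          rw [sq, ← ENNReal.tsum_mul_right, ← ENNReal.tsum_mul_left]
          refine tsum_congr fun c => ?_
          rw [← ENNReal.tsum_mul_left, ← ENNReal.tsum_mul_left]
          refine tsum_congr fun d => ?_
          ring
      _ ≤ ∑' c, ∑' d, ((x c * y d) ^ 2 + (x d * y c) ^ 2) :=
          ENNReal.tsum_le_tsum fun c => ENNReal.tsum_le_tsum fun d => two_mul_le _ _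
      _ = ∑' c, ∑' d, (x c * y d) ^ 2 + ∑' c, ∑' d, (x d * y c) ^ 2 := by
          rw [← ENNReal.tsum_add]
          refine tsum_congr fun c => ?_
          rw [ENNReal.tsum_add]
      _ = 2 * ((∑' c, x c ^ 2) * ∑' c, y c ^ 2) := by
          have e1 : ∑' c, ∑' d, (x c * y d) ^ 2 = (∑' c, x c ^ 2) * ∑' c, y c ^ 2 := by
            rw [← ENNReal.tsum_mul_right]
            refine tsum_congr fun c => ?_
            rw [← ENNReal.tsum_mul_left]
            refine tsum_congr fun d => ?_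
            ring
          have e2 : ∑' c, ∑' d, (x d * y c) ^ 2 = (∑' c, x c ^ 2) * ∑' c, y c ^ 2 := by
            rw [ENNReal.tsum_comm, e1]
          rw [e1, e2, two_mul]
  exact (ENNReal.mul_le_mul_iff_right (by norm_num) (by norm_num)).1 h

section

variable {P : Type}

theorem en_add (S T : Op P) (b c : P) : en (S + T) b c = en S b c + en T b c := rfl

theorem en_smul (a : ℂ) (T : Op P) (b c : P) : en (a • T) b c = a * en T b c := rfl

theorem en_star (T : Op P) (b c : P) : en (star T) b c = (starRingEnd ℂ) (en T c b) := by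
  unfold en
  rw [← inner_dl b, ← inner_dl c, ContinuousLinearMap.star_eq_adjoint,
    ContinuousLinearMap.adjoint_inner_right, inner_conj_symm]

theorem enorm_en_star (T : Op P) (b c : P) : ‖en (star T) b c‖ₑ = ‖en T c b‖ₑ := by
  rw [en_star]
  simp [enorm_eq_nnnorm]

theorem en_mul_le (S T : Op P) (b d : P) : ‖en (S * T) b d‖ₑ ≤ ∑' c, ‖en S b c‖ₑ * ‖en T c d‖ₑ := by
  have h1 : en (S * T) b d = ∑' c, en S b c * en T c d := by
    have h2 : en (S * T) b d = inner ℂ (star S (dl b)) (T (dl d)) := by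
      unfold en
      rw [mul_ap, ← inner_dl b, ContinuousLinearMap.star_eq_adjoint,
        ContinuousLinearMap.adjoint_inner_left]
    rw [h2, lp.inner_eq_tsum]
    refine tsum_congr fun c => ?_
    have h3 : (star S (dl b)) c = (starRingEnd ℂ) (en S b c) := en_star S c b
    rw [h3, RCLike.inner_apply, starRingEnd_self_apply]
    show T (dl d) c * en S b c = en S b c * en T c d
    rw [mul_comm]
    rfl
  rw [h1]
  refine (enorm_tsum_le_tsum_enorm).trans (le_of_eq ?_)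
  refine tsum_congr fun c => ?_
  rw [enorm_mul]

end

section

variable {Λ : Type} [Group Λ]

theorem le (A : Set Λ) (T : Op Λ) : tl A T ≤ hs T := by
  unfold tl hs
  refine ENNReal.tsum_le_tsum fun b => ENNReal.tsum_le_tsum fun c => ?_
  split_ifs
  · exact bot_le
  · exact le_rfl

theorem anti (A B : Set Λ) (T : Op Λ) (h : A ⊆ B) : tl B T ≤ tl A T := by
  unfold tl
  refine ENNReal.tsum_le_tsum fun b => ENNReal.tsum_le_tsum fun c => ?_
  by_cases h1 : b * c⁻¹ ∈ B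
  · rw [if_pos h1]
    exact bot_le
  · rw [if_neg h1, if_neg (fun h2 => h1 (h h2))]

theorem add (A : Set Λ) (S T : Op Λ) : tl A (S + T) ≤ 2 * tl A S + 2 * tl A T := by
  unfold tl
  rw [← ENNReal.tsum_mul_left, ← ENNReal.tsum_mul_left, ← ENNReal.tsum_add]
  refine ENNReal.tsum_le_tsum fun b => ?_
  rw [← ENNReal.tsum_mul_left, ← ENNReal.tsum_mul_left, ← ENNReal.tsum_add]
  refine ENNReal.tsum_le_tsum fun c => ?_
  split_ifs
  · simp
  · rw [en_add]
    refine le_trans ?_ (add_sq_le _ _)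
    gcongr
    exact enorm_add_le _ _

theorem smul (A : Set Λ) (c : ℂ) (T : Op Λ) : tl A (c • T) = ‖c‖ₑ ^ 2 * tl A T := by
  unfold tl
  rw [← ENNReal.tsum_mul_left]
  refine tsum_congr fun b => ?_
  rw [← ENNReal.tsum_mul_left]
  refine tsum_congr fun d => ?_
  split_ifs
  · simp
  · rw [en_smul, enorm_mul, mul_pow]

theorem star' (A : Set Λ) (T : Op Λ) : tl A⁻¹ (star T) = tl A T := by
  unfold tl
  rw [ENNReal.tsum_comm]
  refine tsum_congr fun c => tsum_congr fun b => ?_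
  have h : b * c⁻¹ ∈ A⁻¹ ↔ c * b⁻¹ ∈ A := by
    rw [Set.mem_inv, mul_inv_rev, inv_inv]
  rw [enorm_en_star]
  by_cases h1 : c * b⁻¹ ∈ A
  · rw [if_pos h1, if_pos (h.2 h1)]
  · rw [if_neg h1, if_neg (fun h2 => h1 (h.1 h2))]

theorem rgt' (A : Set Λ) (s : Λ) (T : Op Λ) : tl A (ad (rgt s) T) = tl A T := by
  have he : ∀ b c, en (ad (rgt s) T) b c = en T (b * s⁻¹) (c * s⁻¹) := by
    intro b c
    unfold ad en
    rw [star_rgt, mul_ap, mul_ap, rgt_dl]
    rw [rgt, UU_apply]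
    rfl
  classical
  unfold tl
  rw [← (Equiv.mulRight s⁻¹).tsum_eq (fun b => ∑' c, if b * c⁻¹ ∈ A then 0 else ‖en T b c‖ₑ ^ 2)]
  refine tsum_congr fun b => ?_
  rw [← (Equiv.mulRight s⁻¹).tsum_eq (fun c =>
    if (Equiv.mulRight s⁻¹) b * c⁻¹ ∈ A then 0 else ‖en T ((Equiv.mulRight s⁻¹) b) c‖ₑ ^ 2)]
  refine tsum_congr fun c => ?_
  rw [he]
  have h1 : (Equiv.mulRight s⁻¹) b * ((Equiv.mulRight s⁻¹) c)⁻¹ = b * c⁻¹ := by
    simp only [Equiv.coe_mulRight]
    group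
  have h2 : (Equiv.mulRight s⁻¹) b = b * s⁻¹ := rfl
  have h3 : (Equiv.mulRight s⁻¹) c = c * s⁻¹ := rfl
  by_cases h : b * c⁻¹ ∈ A
  · rw [if_pos h, if_pos (by rw [h1]; exact h)]
  · rw [if_neg h, if_neg (by rw [h1]; exact h), h2, h3]

theorem mul' (A B : Set Λ) (S T : Op Λ) :
    tl (A * B) (S * T) ≤ 2 * (tl A S * hs T) + 2 * (hs S * tl B T) := by
  classical
  set p : Λ → Λ → ℝ≥0∞ := fun b c => if b * c⁻¹ ∈ A then 0 else ‖en S b c‖ₑ with hp
  set q : Λ → Λ → ℝ≥0∞ := fun c d => if c * d⁻¹ ∈ B then 0 else ‖en T c d‖ₑ with hq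
  have hpt : ∀ b d, (if b * d⁻¹ ∈ A * B then 0 else ‖en (S * T) b d‖ₑ ^ 2) ≤
      2 * ((∑' c, p b c ^ 2) * ∑' c, ‖en T c d‖ₑ ^ 2) +
        2 * ((∑' c, ‖en S b c‖ₑ ^ 2) * ∑' c, q c d ^ 2) := by
    intro b d
    by_cases h : b * d⁻¹ ∈ A * B
    · rw [if_pos h]
      exact bot_le
    · rw [if_neg h]
      have h1 : ‖en (S * T) b d‖ₑ ≤ ∑' c, p b c * ‖en T c d‖ₑ + ∑' c, ‖en S b c‖ₑ * q c d := by
        refine (en_mul_le S T b d).trans ?_
        rw [← ENNReal.tsum_add]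
        refine ENNReal.tsum_le_tsum fun c => ?_
        by_cases h2 : b * c⁻¹ ∈ A
        · have h3 : c * d⁻¹ ∉ B := by
            intro h3
            apply h
            refine ⟨_, h2, _, h3, ?_⟩
            show b * c⁻¹ * (c * d⁻¹) = b * d⁻¹
            group
          simp only [hq, if_neg h3]
          exact le_add_self
        · simp only [hp, if_neg h2]
          exact le_self_add
      calc ‖en (S * T) b d‖ₑ ^ 2 ≤
            (∑' c, p b c * ‖en T c d‖ₑ + ∑' c, ‖en S b c‖ₑ * q c d) ^ 2 := by gcongr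
        _ ≤ 2 * (∑' c, p b c * ‖en T c d‖ₑ) ^ 2 + 2 * (∑' c, ‖en S b c‖ₑ * q c d) ^ 2 :=
            add_sq_le _ _
        _ ≤ _ := by
            gcongr
            · exact cs _ _
            · exact cs _ _
  have e1 : ∑' b, ∑' c, p b c ^ 2 = tl A S := by
    unfold tl
    refine tsum_congr fun b => tsum_congr fun c => ?_
    simp only [hp]
    split_ifs <;> simp
  have e2 : ∑' d, ∑' c, q c d ^ 2 = tl B T := by
    unfold tl
    rw [ENNReal.tsum_comm]
    refine tsum_congr fun b => tsum_congr fun c => ?_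
    simp only [hq]
    split_ifs <;> simp
  have e3 : ∑' d, ∑' c, ‖en T c d‖ₑ ^ 2 = hs T := ENNReal.tsum_comm
  calc tl (A * B) (S * T) ≤ ∑' b, ∑' d, (2 * ((∑' c, p b c ^ 2) * ∑' c, ‖en T c d‖ₑ ^ 2) +
        2 * ((∑' c, ‖en S b c‖ₑ ^ 2) * ∑' c, q c d ^ 2)) := by
        unfold tl
        refine ENNReal.tsum_le_tsum fun b => ENNReal.tsum_le_tsum fun d => ?_
        convert hpt b d
    _ = 2 * (tl A S * hs T) + 2 * (hs S * tl B T) := by
        rw [← e1, ← e2, ← e3, ← ENNReal.tsum_mul_right, ← ENNReal.tsum_mul_left]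
        unfold hs
        rw [← ENNReal.tsum_mul_right, ← ENNReal.tsum_mul_left (a := 2), ← ENNReal.tsum_add]
        refine tsum_congr fun b => ?_
        rw [ENNReal.tsum_add, ENNReal.tsum_mul_left, ENNReal.tsum_mul_left, ENNReal.tsum_mul_left,
          ENNReal.tsum_mul_left]

end

end Pool.Agent.H257.HD.TLBx

namespace Pool.Agent.H257.HD.TLB

theorem main : S_TLB := fun _ _ => {
  le := TLBx.le
  anti := TLBx.anti
  add := TLBx.add
  smul := TLBx.smul
  star := TLBx.star'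
  rgt := TLBx.rgt'
  mul := TLBx.mul' }

end Pool.Agent.H257.HD.TLB
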