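import Pool.Agent.H257.HD.Stm

/-!
# Project HD, leaf VEC
-/

set_option autoImplicit false

namespace Pool.Agent.H257.HD.VEC

open Pool.Agent.H494R3.GT Pool.Agent.N557.QW Pool.Agent.H257.HD
open Pool.Agent.N414.LR (Op IsIcc)
open scoped ENNReal Topology Pointwise
open Filter

/-- the truncation of `f` to the coordinates in `F` -/
noncomputable def tr {P : Type} (f : Op P) (F : Finset P) : Op P :=
  ∑ c ∈ F, (innerSL ℂ (dl c)).smulRight (f (dl c))

theorem tr_ap {P : Type} (f : Op P) (F : Finset P) (x : L2 P) :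
    tr f F x = ∑ c ∈ F, x c • f (dl c) := by
  simp only [tr, _root_.sum_apply, ContinuousLinearMap.smulRight_apply,
    innerSL_apply_apply, inner_dl]

open scoped Classical in
theorem tr_dl {P : Type} (f : Op P) (F : Finset P) (c : P) :
    tr f F (dl c) = if c ∈ F then f (dl c) else 0 := by
  rw [tr_ap]
  split_ifs with h
  · rw [Finset.sum_eq_single c]
    · rw [dl_apply_self, one_smul]
    · intro b _ hb
      rw [dl_apply_ne hb, zero_smul]
    · intro h2; exact absurd h h2
  · apply Finset.sum_eq_zero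
    intro b hb
    have : b ≠ c := fun h2 => h (h2 ▸ hb)
    rw [dl_apply_ne this, zero_smul]

theorem tr_compact {P : Type} (f : Op P) (F : Finset P) : IsCompactOperator (tr f F) := by
  have h1 : ∀ c : P, (innerSL ℂ (dl c)).smulRight (f (dl c)) ∈
      compactOperator (RingHom.id ℂ) (L2 P) (L2 P) := by
    intro c
    have h2 : IsCompactOperator (innerSL ℂ (dl c : L2 P)) :=
      isCompactOperator_of_locallyCompactSpace_dom _
    exact h2.clm_comp (ContinuousLinearMap.toSpanSingleton ℂ (f (dl c)))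
  exact (compactOperator (RingHom.id ℂ) (L2 P) (L2 P)).sum_mem fun c _ => h1 c

theorem norm_le (HB : S_HSB) {P : Type} (T : Op P) : ‖T‖ₑ ^ 2 ≤ hs T := by
  by_cases h : hs T = ∞
  · rw [h]; exact le_top
  have hv := (HB P).vec T
  generalize hs T = b at h hv
  lift b to NNReal using h
  have h1 : ∀ x, ‖T x‖ ≤ Real.sqrt b * ‖x‖ := by
    intro x
    have h2 := hv x
    rw [enorm_eq_nnnorm, enorm_eq_nnnorm] at h2
    have h3 : ‖T x‖₊ ^ 2 ≤ b * ‖x‖₊ ^ 2 := by
      exact_mod_cast h2
    have h4 : ‖T x‖ ^ 2 ≤ b * ‖x‖ ^ 2 := by exact_mod_cast h3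
    have h5 : Real.sqrt (b * ‖x‖ ^ 2) = Real.sqrt b * ‖x‖ := by
      rw [Real.sqrt_mul (NNReal.coe_nonneg b), Real.sqrt_sq (norm_nonneg x)]
    rw [← h5, ← Real.sqrt_sq (norm_nonneg (T x))]
    exact Real.sqrt_le_sqrt h4
  have h5 := T.opNorm_le_bound (Real.sqrt_nonneg _) h1
  have h6 : ‖T‖ ^ 2 ≤ (b : ℝ) := by
    have := pow_le_pow_left₀ (norm_nonneg T) h5 2
    rwa [Real.sq_sqrt (NNReal.coe_nonneg b)] at this
  have h7 : ‖T‖₊ ^ 2 ≤ b := by exact_mod_cast h6
  rw [enorm_eq_nnnorm]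
  exact_mod_cast h7

theorem tendsto_norm {ι : Type} {E : Type} [SeminormedAddCommGroup E] {U : Filter ι}
    {a : ι → E} (h : Tendsto (fun i => ‖a i‖ₑ ^ 2) U (𝓝 0)) : Tendsto a U (𝓝 0) := by
  rw [tendsto_zero_iff_enorm_tendsto_zero]
  have h2 := (ENNReal.continuous_rpow_const (y := 1 / 2)).tendsto 0 |>.comp h
  have h3 : ((0 : ℝ≥0∞) ^ (1 / 2 : ℝ)) = 0 := by
    rw [ENNReal.zero_rpow_of_pos (by norm_num)]
  rw [h3] at h2
  refine h2.congr fun i => ?_
  simp only [Function.comp_apply]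
  rw [← ENNReal.rpow_natCast, ← ENNReal.rpow_mul]
  norm_num

theorem compact (HB : S_HSB) {P : Type} (f : Op P) (hf : hs f < ∞) : IsCompactOperator f := by
  classical
  have h1 : Tendsto (fun F : Finset P => hs (tr f F - f)) atTop (𝓝 0) := by
    have h2 : (∑' c, ‖f (dl c)‖ₑ ^ 2) ≠ ∞ := by
      rw [← (HB P).col]; exact hf.ne
    refine (ENNReal.tendsto_tsum_compl_atTop_zero h2).congr fun F => ?_
    rw [(HB P).col, ← tsum_subtype_eq_of_support_subset (s := {c | c ∉ F})]
    · apply tsum_congr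
      intro c
      rw [_root_.sub_apply, tr_dl, if_neg c.2, zero_sub, enorm_neg]
    · intro c hc hF
      apply hc
      have hF : c ∈ F := hF
      simp only [_root_.sub_apply, tr_dl, if_pos hF, sub_self, enorm_zero]
      norm_num
  have h3 : Tendsto (fun F : Finset P => tr f F) atTop (𝓝 f) := by
    rw [← tendsto_sub_nhds_zero_iff]
    apply tendsto_norm
    exact tendsto_of_tendsto_of_tendsto_of_le_of_le tendsto_const_nhds h1 (fun _ => zero_le)
      fun F => norm_le HB _
  exact isCompactOperator_of_tendsto h3 (Eventually.of_forall fun F => tr_compact f F)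

theorem main : S_HSB → S_VEC := by
  intro HB P ι U E f x hx hE hf hU
  obtain ⟨K, hK, hK2⟩ := (compact HB f hf).image_closedBall_subset_compact 1
  have h1 : K ∈ U.map (fun i => f (x i)) := by
    rw [Ultrafilter.mem_map]
    refine Filter.univ_mem' fun i => hK2 ⟨x i, ?_, rfl⟩
    simp [hx i]
  obtain ⟨y, -, hy⟩ := hK.ultrafilter_le_nhds' _ h1
  have h2 : Tendsto (fun i => f (x i)) U (𝓝 y) := hy
  have h3 : Tendsto (fun i => (E i - f) (x i)) U (𝓝 0) := by
    apply tendsto_norm
    refine tendsto_of_tendsto_of_tendsto_of_le_of_le tendsto_const_nhds hU (fun _ => zero_le)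
      fun i => ?_
    have h4 := (HB P).vec (E i - f) (x i)
    have h5 : ‖x i‖ₑ = 1 := by
      rw [← ofReal_norm, hx i, ENNReal.ofReal_one]
    rwa [h5, one_pow, mul_one] at h4
  refine ⟨y, ?_⟩
  have h4 := h3.add h2
  rw [zero_add] at h4
  refine h4.congr fun i => ?_
  rw [_root_.sub_apply, hE i, sub_add_cancel]

end Pool.Agent.H257.HD.VEC
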