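import Pool.Agent.H257.HD.Stm

/-!
# Project HD (helper257), leaf WLM: weak limits of translates of a tight projection (by helper604)
-/

set_option autoImplicit false

namespace Pool.Agent.H257.HD.WLM

open Pool.Agent.H494R3.GT Pool.Agent.N557.QW
open Pool.Agent.N414.LR (Op IsIcc)
open scoped ENNReal Topology Pointwise InnerProductSpace ComplexConjugate
open Filter

noncomputable section

/-- weak limits of bounded families along ultrafilters (after helper847, `H770R2.Kad.prove_wlim`) -/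
theorem wlim {H : Type*} [NormedAddCommGroup H] [InnerProductSpace ℂ H] [CompleteSpace H]
    {I : Type*} (U : Ultrafilter I) (T : I → H →L[ℂ] H) (r : ℝ)
    (hT : ∀ i, ‖T i‖ ≤ r) :
    ∃ F : H →L[ℂ] H, ∀ ξ η : H, Tendsto (fun i => ⟪η, T i ξ⟫_ℂ) U (𝓝 ⟪η, F ξ⟫_ℂ) := by
  have hb : ∀ (η ξ : H) (i : I), ‖⟪η, T i ξ⟫_ℂ‖ ≤ r * ‖η‖ * ‖ξ‖ := by
    intro η ξ i
    calc ‖⟪η, T i ξ⟫_ℂ‖ ≤ ‖η‖ * ‖T i ξ‖ := norm_inner_le_norm _ _
      _ ≤ ‖η‖ * (r * ‖ξ‖) := by
          gcongr
          exact (T i).le_of_opNorm_le (hT i) ξ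
      _ = r * ‖η‖ * ‖ξ‖ := by ring
  have hex : ∀ η ξ : H, ∃ z : ℂ, ‖z‖ ≤ r * ‖η‖ * ‖ξ‖ ∧
      Filter.Tendsto (fun i => ⟪η, T i ξ⟫_ℂ) U (nhds z) := by
    intro η ξ
    obtain ⟨z, hz, hl⟩ := (isCompact_closedBall (0 : ℂ) (r * ‖η‖ * ‖ξ‖)).ultrafilter_le_nhds
      (U.map fun i => ⟪η, T i ξ⟫_ℂ) (by
        rw [Ultrafilter.coe_map, Filter.le_principal_iff, Filter.mem_map]
        exact Filter.univ_mem' fun i => by
          rw [Set.mem_preimage, mem_closedBall_zero_iff]
          exact hb η ξ i)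
    exact ⟨z, mem_closedBall_zero_iff.mp hz, hl⟩
  choose B hB1 hB2 using hex
  have huniq : ∀ (η ξ : H) (z : ℂ), Filter.Tendsto (fun i => ⟪η, T i ξ⟫_ℂ) U (nhds z) →
      B η ξ = z := fun η ξ z h => tendsto_nhds_unique (hB2 η ξ) h
  let f : H →ₗ⋆[ℂ] H →ₗ[ℂ] ℂ := LinearMap.mk₂'ₛₗ (starRingEnd ℂ) (RingHom.id ℂ) B
    (fun η η' ξ => huniq _ _ _ (by
      simpa only [inner_add_left] using (hB2 η ξ).add (hB2 η' ξ)))
    (fun c η ξ => huniq _ _ _ (by
      simpa only [inner_smul_left, smul_eq_mul] using (hB2 η ξ).const_mul (conj c)))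
    (fun η ξ ξ' => huniq _ _ _ (by
      simpa only [map_add, inner_add_right] using (hB2 η ξ).add (hB2 η ξ')))
    (fun c η ξ => huniq _ _ _ (by
      simpa only [map_smul, inner_smul_right, smul_eq_mul, RingHom.id_apply] using
        (hB2 η ξ).const_mul c))
  have hf : ∀ η ξ, f η ξ = B η ξ := fun η ξ => rfl
  let g : H →L⋆[ℂ] H →L[ℂ] ℂ := LinearMap.mkContinuous₂ f r (fun η ξ => by
    rw [hf]
    exact hB1 η ξ)
  have hg : ∀ η ξ, g η ξ = B η ξ := fun η ξ => rfl
  let F : H →L[ℂ] H := InnerProductSpace.continuousLinearMapOfBilin g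
  have hF : ∀ η ξ, ⟪F η, ξ⟫_ℂ = B η ξ := fun η ξ =>
    InnerProductSpace.continuousLinearMapOfBilin_apply g η ξ
  refine ⟨ContinuousLinearMap.adjoint F, fun ξ η => ?_⟩
  rw [ContinuousLinearMap.adjoint_inner_right, hF]
  exact hB2 η ξ

lemma en_eq {P : Type} (T : Op P) (b c : P) : en T b c = inner ℂ (dl b) (T (dl c)) := by
  rw [inner_dl]; rfl

/-- a projection has norm at most one -/
lemma pr_norm {P : Type} {e : Op P} (he : IsPr e) : ‖e‖ ≤ 1 := by
  refine ContinuousLinearMap.opNorm_le_bound _ zero_le_one fun x => ?_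
  rw [one_mul]
  have h1 : ⟪e x, e x⟫_ℂ = ⟪x, e x⟫_ℂ := by
    conv_lhs => rw [← ContinuousLinearMap.adjoint_inner_right]
    rw [← ContinuousLinearMap.star_eq_adjoint, he.2, ← mul_ap, he.1]
  have h2 : ‖e x‖ * ‖e x‖ ≤ ‖x‖ * ‖e x‖ := by
    have h3 : ‖⟪e x, e x⟫_ℂ‖ = ‖e x‖ * ‖e x‖ := by
      rw [inner_self_eq_norm_sq_to_K, ← sq]
      simp
    rw [← h3, h1]
    exact norm_inner_le_norm _ _
  by_cases h0 : ‖e x‖ = 0
  · rw [h0]; exact norm_nonneg _
  · exact le_of_mul_le_mul_right h2 (lt_of_le_of_ne (norm_nonneg _) (Ne.symm h0))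

/-- the square of the norm in `ℓ²` -/
lemma enorm_sq {P : Type} (x : L2 P) : ‖x‖ₑ ^ 2 = ∑' c, ‖x c‖ₑ ^ 2 := by
  have h1 := lp.hasSum_norm (p := 2) (by norm_num) x
  simp only [ENNReal.toReal_ofNat, Real.rpow_ofNat] at h1
  have h2 : ∀ y : ℂ, ‖y‖ₑ ^ 2 = ENNReal.ofReal (‖y‖ ^ 2) := fun y => by
    rw [ENNReal.ofReal_pow (norm_nonneg _), ofReal_norm]
  have h3 : ‖x‖ₑ ^ 2 = ENNReal.ofReal (‖x‖ ^ 2) := by
    rw [ENNReal.ofReal_pow (norm_nonneg _), ofReal_norm]
  rw [h3, ← h1.tsum_eq, ENNReal.ofReal_tsum_of_nonneg (fun c => by positivity) h1.summable]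
  exact tsum_congr fun c => (h2 _).symm

/-- Fatou's lemma along an ultrafilter -/
lemma fatou {P I : Type} (U : Ultrafilter I) (T : I → Op P) (f : Op P) (q : P → P → Prop)
    [∀ b c, Decidable (q b c)] (m : ℝ≥0∞)
    (h : ∀ b c, Tendsto (fun i => en (T i) b c) U (𝓝 (en f b c)))
    (hm : ∀ i, ∑' b, ∑' c, (if q b c then 0 else ‖en (T i) b c‖ₑ ^ 2) ≤ m) :
    ∑' b, ∑' c, (if q b c then 0 else ‖en f b c‖ₑ ^ 2) ≤ m := by
  rw [← ENNReal.tsum_prod, ENNReal.tsum_eq_iSup_sum]
  refine iSup_le fun s => ?_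
  have h1 : Tendsto (fun i => ∑ p ∈ s, (if q p.1 p.2 then 0 else ‖en (T i) p.1 p.2‖ₑ ^ 2)) U
      (𝓝 (∑ p ∈ s, (if q p.1 p.2 then 0 else ‖en f p.1 p.2‖ₑ ^ 2))) := by
    refine tendsto_finsetSum s fun p _ => ?_
    by_cases hq : q p.1 p.2
    · simp only [hq, if_true]
      exact tendsto_const_nhds
    · simp only [hq, if_false]
      exact ((ENNReal.continuous_pow 2).tendsto _).comp
        ((continuous_enorm.tendsto _).comp (h p.1 p.2))
  refine le_of_tendsto h1 (Eventually.of_forall fun i => ?_)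
  refine le_trans ?_ (hm i)
  rw [← ENNReal.tsum_prod]
  exact ENNReal.sum_le_tsum s

lemma rgt_uni {Λ : Type} [Group Λ] (s : Λ) : (rgt s : Op Λ) ∈ unitary (Op Λ) := by
  rw [Unitary.mem_iff, star_rgt]
  constructor
  · exact op_ext fun x => by
      rw [mul_ap, rgt_dl, rgt_dl, mul_assoc, mul_inv_cancel, mul_one]; rfl
  · exact op_ext fun x => by
      rw [mul_ap, rgt_dl, rgt_dl, mul_assoc, inv_mul_cancel, mul_one]; rfl

lemma ad_pr {P : Type} {u e : Op P} (hu : u ∈ unitary (Op P)) (he : IsPr e) : IsPr (ad u e) := by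
  have h1 : star u * u = 1 := (Unitary.mem_iff.1 hu).1
  constructor
  · unfold ad
    calc u * e * star u * (u * e * star u) = u * e * (star u * u) * e * star u := by
          simp only [mul_assoc]
      _ = u * (e * e) * star u := by rw [h1, mul_one]; simp only [mul_assoc]
      _ = _ := by rw [he.1]
  · unfold ad
    rw [star_mul, star_mul, star_star, he.2, mul_assoc]

lemma ad_hs {P : Type} (hB : HSB P) {u T : Op P} (hu : u ∈ unitary (Op P)) :
    hs (ad u T) = hs T := by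
  unfold ad
  rw [(hB.uni (star u) _ (Unitary.star_mem hu)).2, (hB.uni u _ hu).1]

lemma ad_tendsto {P I : Type} (U : Filter I) (T : I → Op P) (f u : Op P)
    (h : ∀ ξ η : L2 P, Tendsto (fun i => ⟪η, T i ξ⟫_ℂ) U (𝓝 ⟪η, f ξ⟫_ℂ)) (b c : P) :
    Tendsto (fun i => en (ad u (T i)) b c) U (𝓝 (en (ad u f) b c)) := by
  have h1 : ∀ S : Op P, en (ad u S) b c = ⟪star u (dl b), S (star u (dl c))⟫_ℂ := by
    intro S
    rw [en_eq]
    unfold ad
    rw [mul_ap, mul_ap]
    conv_rhs => rw [ContinuousLinearMap.star_eq_adjoint, ContinuousLinearMap.adjoint_inner_left]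
    rfl
  simp only [h1]
  exact h _ _

open scoped Classical in
theorem main : S_HSB → S_TLB → S_WLM := by
  intro hHSB hTLB G Λ _ _ v e hv he hT s U
  have hB := hHSB Λ
  have hL := hTLB Λ
  set E : G → Op Λ := fun g => ad (rgt (s g)) (ad (v g : Op Λ) e) with hE
  have hpr : ∀ g, IsPr (E g) := fun g => ad_pr (rgt_uni _) (ad_pr (v g).2 he)
  have hnorm : ∀ g, ‖E g‖ ≤ 1 := fun g => pr_norm (hpr g)
  have hhs : ∀ g, hs (E g) = hs e := fun g => by
    rw [hE]
    simp only
    rw [ad_hs hB (rgt_uni _), ad_hs hB (v g).2]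
  obtain ⟨f, hf⟩ := wlim U E 1 hnorm
  have hent : ∀ b c, Tendsto (fun g => en (E g) b c) U (𝓝 (en f b c)) := fun b c => by
    simp only [en_eq]
    exact hf _ _
  -- the translates
  have hk : ∀ (k g : G), ad (v k : Op Λ) (E g) = ad (rgt (s g)) (ad (v (k * g) : Op Λ) e) := by
    intro k g
    have h1 := mem_LG.1 (hv k) (s g)
    have h2 : (v k : Op Λ) * rgt (s g) = rgt (s g) * (v k : Op Λ) := h1.symm
    have h3 : star (rgt (s g) : Op Λ) * star (v k : Op Λ) =
        star (v k : Op Λ) * star (rgt (s g) : Op Λ) := by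
      rw [← star_mul, ← star_mul, h2]
    have h4 : (v (k * g) : Op Λ) = (v k : Op Λ) * (v g : Op Λ) := by
      rw [map_mul]; rfl
    rw [hE]
    simp only [ad]
    rw [h4, star_mul]
    calc (v k : Op Λ) * (rgt (s g) * ((v g : Op Λ) * e * star (v g : Op Λ)) * star (rgt (s g))) *
          star (v k : Op Λ) =
        ((v k : Op Λ) * rgt (s g)) * ((v g : Op Λ) * e * star (v g : Op Λ)) *
          (star (rgt (s g)) * star (v k : Op Λ)) := by simp only [mul_assoc]
      _ = (rgt (s g) * (v k : Op Λ)) * ((v g : Op Λ) * e * star (v g : Op Λ)) *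
          (star (v k : Op Λ) * star (rgt (s g))) := by rw [h2, h3]
      _ = _ := by simp only [mul_assoc]
  have htl : ∀ (A : Set Λ) (ε : ℝ≥0∞), (∀ g : G, tl A (ad (v g : Op Λ) e) ≤ ε) →
      ∀ k g, tl A (ad (v k : Op Λ) (E g)) ≤ ε := by
    intro A ε h k g
    rw [hk, hL.rgt]
    exact h _
  have htl1 : ∀ (A : Set Λ) (ε : ℝ≥0∞), (∀ g : G, tl A (ad (v g : Op Λ) e) ≤ ε) →
      ∀ g, tl A (E g) ≤ ε := by
    intro A ε h g
    rw [hE]
    simp only
    rw [hL.rgt]
    exact h _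
  have hhsf : hs f ≤ hs e := by
    have := fatou U E f (fun _ _ => False) (hs e) hent (fun g => by
      simp only [if_false]
      exact (hhs g).le)
    simp only [if_false] at this
    exact this
  have htight : Tight v f := by
    refine ⟨lt_of_le_of_lt hhsf hT.1, fun ε hε => ?_⟩
    obtain ⟨A, hA, h⟩ := hT.2 ε hε
    refine ⟨A, hA, fun k => ?_⟩
    exact fatou U (fun g => ad (v k : Op Λ) (E g)) (ad (v k : Op Λ) f)
      (fun b c => b * c⁻¹ ∈ A) ε (fun b c => ad_tendsto U E f _ hf b c) (fun g => htl A ε h k g)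
  -- strong convergence at the basis vectors
  have hstr : ∀ d, Tendsto (fun g => E g (dl d)) U (𝓝 (f (dl d))) := by
    intro d
    rw [tendsto_iff_edist_tendsto_0]
    have hsq : Tendsto (fun g => ‖(E g + (-1 : ℂ) • f) (dl d)‖ₑ ^ 2) U (𝓝 0) := by
      rw [ENNReal.tendsto_nhds_zero]
      intro η hη
      obtain ⟨A, hA, h⟩ := hT.2 (η / 8) (ENNReal.div_pos hη.ne' (by norm_num))
      have h1 : tl A f ≤ η / 8 :=
        fatou U E f (fun b c => b * c⁻¹ ∈ A) _ hent (fun g => htl1 A _ h g)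
      have h2 : ∀ g, tl A (E g + (-1 : ℂ) • f) ≤ η / 2 := by
        intro g
        refine (hL.add A _ _).trans ?_
        rw [hL.smul]
        have h3 := htl1 A _ h g
        have h4 : ‖(-1 : ℂ)‖ₑ ^ 2 = 1 := by simp
        rw [h4, one_mul]
        calc 2 * tl A (E g) + 2 * tl A f ≤ 2 * (η / 8) + 2 * (η / 8) := by gcongr
          _ = 4 * (η / 8) := by ring
          _ = η / 2 := by
              rw [← mul_div_assoc, show (8 : ℝ≥0∞) = 4 * 2 by norm_num,
                ENNReal.mul_div_mul_left _ _ (by norm_num) (by norm_num)]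
      have hfin : {c : Λ | c * d⁻¹ ∈ A}.Finite :=
        hA.preimage (mul_left_injective _).injOn
      have h5 : ∀ g, ‖(E g + (-1 : ℂ) • f) (dl d)‖ₑ ^ 2 ≤
          ∑ c ∈ hfin.toFinset, ‖en (E g) c d - en f c d‖ₑ ^ 2 + η / 2 := by
        intro g
        rw [enorm_sq]
        have h6 : ∀ c, ‖((E g + (-1 : ℂ) • f) (dl d)) c‖ₑ ^ 2 ≤
            (if c * d⁻¹ ∈ A then ‖en (E g) c d - en f c d‖ₑ ^ 2 else 0) +
            ∑' c', (if c * c'⁻¹ ∈ A then 0 else ‖en (E g + (-1 : ℂ) • f) c c'‖ₑ ^ 2) := by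
          intro c
          by_cases hc : c * d⁻¹ ∈ A
          · rw [if_pos hc]
            refine le_trans (le_of_eq ?_) le_self_add
            have : ((E g + (-1 : ℂ) • f) (dl d)) c = en (E g) c d - en f c d := by
              simp only [en, add_apply, smul_apply,
                lp.coeFn_add, lp.coeFn_smul, Pi.add_apply, Pi.smul_apply, smul_eq_mul]
              ring
            rw [this]
          · rw [if_neg hc, zero_add]
            refine le_trans (le_of_eq ?_) (ENNReal.le_tsum d)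
            rw [if_neg hc]
            rfl
        refine (ENNReal.tsum_le_tsum h6).trans ?_
        rw [ENNReal.tsum_add]
        refine add_le_add (le_of_eq ?_) (h2 g)
        rw [tsum_eq_sum (s := hfin.toFinset)]
        · refine Finset.sum_congr rfl fun c hc => ?_
          rw [Set.Finite.mem_toFinset] at hc
          exact if_pos hc
        · intro c hc
          rw [Set.Finite.mem_toFinset] at hc
          exact if_neg hc
      have h7 : Tendsto (fun g => ∑ c ∈ hfin.toFinset, ‖en (E g) c d - en f c d‖ₑ ^ 2) U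
          (𝓝 (∑ c ∈ hfin.toFinset, 0)) := by
        refine tendsto_finsetSum _ fun c _ => ?_
        have h8 : Tendsto (fun g => en (E g) c d - en f c d) U (𝓝 (en f c d - en f c d)) :=
          (hent c d).sub_const _
        rw [sub_self] at h8
        have h9 := ((ENNReal.continuous_pow 2).tendsto _).comp
          ((continuous_enorm.tendsto _).comp h8)
        simpa [Function.comp_def] using h9
      rw [Finset.sum_const_zero] at h7
      have h10 : ∀ᶠ g in (U : Filter G),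
          ∑ c ∈ hfin.toFinset, ‖en (E g) c d - en f c d‖ₑ ^ 2 ≤ η / 2 :=
        (ENNReal.tendsto_nhds_zero.1 h7) (η / 2) (ENNReal.div_pos hη.ne' (by norm_num))
      filter_upwards [h10] with g hg
      calc _ ≤ _ := h5 g
        _ ≤ η / 2 + η / 2 := by gcongr
        _ = η := ENNReal.add_halves η
    have h1 : ∀ g, edist (E g (dl d)) (f (dl d)) = ‖(E g + (-1 : ℂ) • f) (dl d)‖ₑ := by
      intro g
      rw [edist_eq_enorm_sub]
      congr 1
      rw [add_apply, smul_apply]
      simp [sub_eq_add_neg]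
    simp only [h1]
    have h2 := hsq
    rw [ENNReal.tendsto_nhds_zero] at h2 ⊢
    intro η hη
    filter_upwards [h2 (η ^ 2) (ENNReal.pow_pos hη 2)] with g hg
    exact (ENNReal.pow_le_pow_left_iff (n := 2) (by norm_num)).1 hg
  have hstar : star f = f := by
    apply op_ext_inner
    intro x y
    rw [ContinuousLinearMap.star_eq_adjoint, ContinuousLinearMap.adjoint_inner_right]
    refine tendsto_nhds_unique (f := fun g => ⟪E g (dl x), dl y⟫_ℂ) (l := (U : Filter G)) ?_ ?_
    · have h1 := hf (dl x) (dl y)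
      have h2 := (Complex.continuous_conj.tendsto _).comp h1
      have h3 : ∀ T : Op Λ, conj ⟪dl y, T (dl x)⟫_ℂ = ⟪T (dl x), dl y⟫_ℂ := fun T =>
        inner_conj_symm _ _
      simpa only [Function.comp_def, h3] using h2
    · have h1 := hf (dl y) (dl x)
      refine h1.congr fun g => ?_
      rw [← ContinuousLinearMap.adjoint_inner_left, ← ContinuousLinearMap.star_eq_adjoint,
        (hpr g).2]
  have hidem : f * f = f := by
    apply op_ext
    intro d
    refine ext_inner_left ℂ fun x => ?_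
    rw [mul_ap]
    refine tendsto_nhds_unique (f := fun g => ⟪x, E g (E g (dl d))⟫_ℂ) (l := (U : Filter G)) ?_ ?_
    · have h1 := hf (f (dl d)) x
      have h2 : Tendsto (fun g => ⟪x, E g (E g (dl d) - f (dl d))⟫_ℂ) U (𝓝 0) := by
        rw [tendsto_zero_iff_norm_tendsto_zero]
        have h3 : Tendsto (fun g => ‖x‖ * ‖E g (dl d) - f (dl d)‖) U (𝓝 (‖x‖ * 0)) := by
          refine Tendsto.const_mul _ ?_
          exact tendsto_iff_norm_sub_tendsto_zero.1 (hstr d)
        rw [mul_zero] at h3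
        refine squeeze_zero (fun g => norm_nonneg _) (fun g => ?_) h3
        refine (norm_inner_le_norm _ _).trans ?_
        gcongr
        calc ‖E g (E g (dl d) - f (dl d))‖ ≤ 1 * ‖E g (dl d) - f (dl d)‖ :=
              (E g).le_of_opNorm_le (hnorm g) _
          _ = _ := one_mul _
      have h3 := h1.add h2
      rw [add_zero] at h3
      refine h3.congr fun g => ?_
      rw [← inner_add_right, ← map_add]
      congr 2
      abel
    · refine (hf (dl d) x).congr fun g => ?_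
      rw [← mul_ap, (hpr g).1]
  exact ⟨f, ⟨hidem, hstar⟩, htight, hhsf, hent⟩

end

end Pool.Agent.H257.HD.WLM
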