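import Pool.Agent.H257.HD.Pre
import Pool.Agent.H257.HD.HSB
import Pool.Agent.H257.HD.TLB
import Pool.Agent.H257.HD.TCL
import Pool.Agent.H257.HD.SPC
import Pool.Agent.H257.HD.RNK
import Pool.Agent.H257.HD.DIA
import Pool.Agent.H257.HD.WLM
import Pool.Agent.H257.HD.RRZ
import Pool.Agent.H257.HD.VEC
import Pool.Agent.H257.HD.NEU2
import Pool.Agent.H257.HD.ORT2
import Pool.Agent.H257.HD.MIX
import Pool.Agent.H257.HD.COF2
import Pool.Agent.H257.HD.FIN2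
import Pool.Agent.H257.HD.REP
import Pool.Agent.H257.HD.GAP

/-!
# Project HD: the main theorem for subgroups with property (T)
-/

set_option autoImplicit false

namespace Pool.Agent.H257.HD

open Pool.Agent.H494R3.GT Pool.Agent.N557.QW
open Pool.Agent.N414.LR (Op IsIcc)
open Pool.Agent.W661.RC (HasT)
open scoped ENNReal Topology Pointwise
open Filter

noncomputable section

theorem t_pre : S_PRE :=
  pre HSB.main (TCL.main HSB.main TLB.main) (SPC.main HSB.main) (RNK.main HSB.main)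
    (DIA.main HSB.main TLB.main) (WLM.main HSB.main TLB.main) (RRZ.main HSB.main)
    (VEC.main HSB.main)

theorem main2 (Γ : Type) [Group Γ] (Γ₀ : Subgroup Γ)
    (hicc : ∀ g : Γ, g ≠ 1 → {x : Γ | ∃ k ∈ Γ₀, k * g * k⁻¹ = x}.Infinite) (hT : HasT Γ₀)
    (S : Finset Γ₀) (h1 : 1 ∈ S) (hS : Subgroup.closure (S : Set Γ₀) = ⊤) :
    ∃ r : ℝ, 0 ≤ r ∧ r < 1 ∧
    ∀ (Λ : Type) [Group Λ] (v : Γ →* unitary (Op Λ)), (∀ g, (v g : Op Λ) ∈ LG Λ) →
      (∀ g, g ≠ 1 → cf (v g : Op Λ) 1 = 0) →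
      (Submodule.span ℂ (Set.range fun g => (v g : Op Λ) (dl 1))).topologicalClosure = ⊤ →
      (∃ (f : Γ₀ →* Λ) (χ : Γ₀ →* unitary ℂ) (w : Op Λ), Function.Injective f ∧
        (Γ₀ = ⊤ → Function.Surjective f) ∧ w ∈ LG Λ ∧ w ∈ unitary (Op Λ) ∧
        ∀ g : Γ₀, (v g : Op Λ) = ((χ g : unitary ℂ) : ℂ) • (w * lam (f g) * star w)) ∨
      ∀ n : ℕ, ∑ w ∈ Fintype.piFinset (fun _ : Fin n => S),
        (∑' h, ‖cf (v ((List.ofFn w).prod : Γ₀) : Op Λ) h‖ ^ 4) ≤ (r * S.card) ^ n := by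
  classical
  obtain ⟨r, hr0, hr1, hr⟩ := GAP.main Γ₀ hT S h1 hS
  refine ⟨r, hr0, hr1, ?_⟩
  intro Λ _ v hv htr hd
  let v₀ : Γ₀ →* unitary (Op Λ) := v.comp Γ₀.subtype
  have hv₀ : ∀ g : Γ₀, (v₀ g : Op Λ) ∈ LG Λ := fun g => hv g
  have htr₀ : ∀ g : Γ₀, g ≠ 1 → cf (v₀ g : Op Λ) 1 = 0 := fun g hg =>
    htr g fun h => hg (Subtype.ext h)
  obtain ⟨ρ, hco, hinv⟩ := REP.main Γ₀ Λ v₀ hv₀
  by_cases hζ : ∃ ζ : L2 (Λ × (Λ × Λ)), ζ ≠ 0 ∧ ∀ g, (ρ g : Op (Λ × (Λ × Λ))) ζ = ζ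
  · left
    obtain ⟨w, s, hw, hp⟩ := t_pre Γ₀ Λ v₀ hv₀ (hinv hζ)
    obtain ⟨V, hV⟩ := NEU2.main Γ₀ hicc
    let s' : Γ → Λ := fun g => if h : g ∈ Γ₀ then s ⟨g, h⟩ else 1
    have hs' : ∀ g : Γ₀, s' g = s g := fun g => by
      simp only [s', SetLike.coe_mem, dif_pos, Subtype.coe_eta]
    have hlim : ∀ U : Ultrafilter Γ₀, ∃ y, Tendsto (fun g => rgt (s' g) ((v g : Op Λ) w))
        (U.map (fun g : Γ₀ => (g : Γ))) (𝓝 y) := by
      intro U
      obtain ⟨y, hy⟩ := hp U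
      refine ⟨y, ?_⟩
      rw [Ultrafilter.coe_map, Filter.tendsto_map'_iff]
      refine hy.congr fun g => ?_
      simp only [Function.comp, hs']
      rfl
    have h2 := ORT2.main ORT2.c0 Γ Λ v w s' (V.map (fun g : Γ₀ => (g : Γ))) hv htr hw
      (hlim V) hV
    have h3 := Pool.Agent.N414.LR.UNI.main Γ Λ v w hw hv htr hd h2
    obtain ⟨W, hW, hWu, hWw⟩ := Pool.Agent.N499.LR.WWW.main Λ w hw h3
    have hx : ∀ h : Γ₀, ∃ (β : ℂ) (x : Λ), star W * (v₀ h : Op Λ) * W = β • lam x := by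
      intro h
      refine COF2.main MIX.main Γ Λ v W s' (V.map (fun g : Γ₀ => (g : Γ))) hv htr hd hW hWu h
        (by rw [hWw]; exact hlim V) ?_ hV
      rw [hWw]
      obtain ⟨y, hy⟩ := hp (V.map (fun g => g * h))
      refine ⟨y, ?_⟩
      rw [Ultrafilter.coe_map, Filter.tendsto_map'_iff] at hy ⊢
      refine hy.congr fun g => ?_
      simp only [Function.comp]
      have h4 : (g : Γ) * (h : Γ) = ((g * h : Γ₀) : Γ) := rfl
      rw [h4, hs']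
      rfl
    by_cases htop : Γ₀ = ⊤
    · have hd₀ : (Submodule.span ℂ (Set.range fun g => (v₀ g : Op Λ) (dl 1))).topologicalClosure
          = ⊤ := by
        have h5 : (Set.range fun g => (v₀ g : Op Λ) (dl 1)) =
            (Set.range fun g => (v g : Op Λ) (dl 1)) := by
          ext x
          constructor
          · rintro ⟨g, rfl⟩
            exact ⟨g, rfl⟩
          · rintro ⟨g, rfl⟩
            exact ⟨⟨g, by rw [htop]; exact Subgroup.mem_top g⟩, rfl⟩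
        rw [h5]
        exact hd
      obtain ⟨f, χ, hf⟩ := FIN.main Γ₀ Λ v₀ W hv₀ htr₀ hd₀ hW hWu hx
      exact ⟨f.toMonoidHom, χ, W, f.injective, fun _ => f.surjective, hW, hWu, hf⟩
    · obtain ⟨f, χ, hinj, hf⟩ := FIN2.main Γ₀ Λ v₀ W htr₀ hW hWu hx
      exact ⟨f, χ, W, hinj, fun h => absurd h htop, hW, hWu, hf⟩
  · right
    intro n
    set o : L2 (Λ × (Λ × Λ)) := dl (1, (1, 1)) with ho
    have ho1 : ‖o‖ = 1 :=
      (dl_orthonormal (P := Λ × (Λ × Λ)) (f := fun g => g) Function.injective_id).1 (1, (1, 1))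
    have h4 := GAP.pow Γ₀ S r (L2 (Λ × (Λ × Λ))) ρ hr0 (hr _ ρ (by
      intro x hx
      by_contra hne
      exact hζ ⟨x, hne, hx⟩)) n o
    have h5 : ((∑ w ∈ Fintype.piFinset (fun _ : Fin n => S),
        (∑' h, ‖cf (v ((List.ofFn w).prod : Γ₀) : Op Λ) h‖ ^ 4) : ℝ) : ℂ) =
        inner ℂ o (∑ w ∈ Fintype.piFinset (fun _ : Fin n => S),
          (ρ (List.ofFn w).prod : Op (Λ × (Λ × Λ))) o) := by
      rw [inner_sum, Complex.ofReal_sum]
      exact Finset.sum_congr rfl fun w _ => (hco _).symm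
    have h6 := norm_inner_le_norm (𝕜 := ℂ) o (∑ w ∈ Fintype.piFinset (fun _ : Fin n => S),
          (ρ (List.ofFn w).prod : Op (Λ × (Λ × Λ))) o)
    rw [← h5, Complex.norm_real, ho1, one_mul] at h6
    rw [ho1, mul_one] at h4
    exact (le_abs_self _).trans (h6.trans h4)

end

end Pool.Agent.H257.HD
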