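import Pool.Agent.H257.HD.Stm

/-!
# Project HD, leaf NEU (helper133)

In an icc group there is an ultrafilter `V` such that `g⁻¹ k g → ∞` along `V` for every `k ≠ 1`.
-/

set_option autoImplicit false

namespace Pool.Agent.H257.HD.NEU

open Pool.Agent.N414.LR (IsIcc)
open scoped Pointwise
open Filter

/-- A centralizer of finite index gives a finite conjugacy class. -/
lemma finite_conj {G : Type} [Group G] (c : G) (h : (Subgroup.centralizer {c}).FiniteIndex) :
    {x | ∃ k, k * c * k⁻¹ = x}.Finite := by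
  classical
  have hf : Finite (G ⧸ Subgroup.centralizer {c}) := Subgroup.finite_quotient_of_finiteIndex
  let F : G ⧸ Subgroup.centralizer {c} → G := Quotient.lift (fun k : G => k * c * k⁻¹) (by
    intro a b hab
    have h1 : a⁻¹ * b ∈ Subgroup.centralizer {c} := QuotientGroup.leftRel_apply.1 hab
    rw [Subgroup.mem_centralizer_singleton_iff] at h1
    show a * c * a⁻¹ = b * c * b⁻¹
    have h2 : b = a * (a⁻¹ * b) := by group
    generalize a⁻¹ * b = t at h1 h2
    subst h2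
    rw [mul_inv_rev, show a * t * c * (t⁻¹ * a⁻¹) = a * (t * c) * t⁻¹ * a⁻¹ by group, h1]
    group)
  refine (Set.finite_range F).subset ?_
  rintro x ⟨k, rfl⟩
  exact ⟨(k : G ⧸ Subgroup.centralizer {c}), rfl⟩

/-- The bad set is empty or a coset of a centralizer. -/
lemma bad_eq {G : Type} [Group G] (k c g₀ : G) (h : g₀⁻¹ * k * g₀ = c) :
    {g : G | g⁻¹ * k * g = c} = g₀ • (Subgroup.centralizer {c} : Set G) := by
  ext g
  rw [Set.mem_smul_set_iff_inv_smul_mem, smul_eq_mul, SetLike.mem_coe,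
    Subgroup.mem_centralizer_singleton_iff, Set.mem_ofPred_eq]
  subst h
  constructor
  · intro h
    have h2 : k = g * (g₀⁻¹ * k * g₀) * g⁻¹ := by rw [← h]; group
    have h3 : g₀⁻¹ * g * (g₀⁻¹ * k * g₀) = g₀⁻¹ * (g * (g₀⁻¹ * k * g₀) * g⁻¹) * g := by group
    rw [h3, ← h2]
    group
  · intro h
    have h3 : g⁻¹ * k * g = g⁻¹ * g₀ * (g₀⁻¹ * k * g₀ * (g₀⁻¹ * g)) := by group
    rw [h3, ← h]
    group

/-- No finite union of bad sets is everything. -/
lemma not_cover {G : Type} [Group G] (hG : IsIcc G) (u : Finset (G × G))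
    (hu : ∀ p ∈ u, p.1 ≠ 1) : ∃ g : G, ∀ p ∈ u, g⁻¹ * p.1 * g ≠ p.2 := by
  classical
  by_contra hcon
  push Not at hcon
  -- the nonempty bad sets
  set w : Finset (G × G) := u.filter (fun p => ∃ g₀ : G, g₀⁻¹ * p.1 * g₀ = p.2) with hw
  have hch : ∀ p : G × G, ∃ g₀ : G, p ∈ w → g₀⁻¹ * p.1 * g₀ = p.2 := by
    intro p
    by_cases hp : p ∈ w
    · obtain ⟨g₀, h⟩ := (Finset.mem_filter.1 hp).2
      exact ⟨g₀, fun _ => h⟩
    · exact ⟨1, fun h => absurd h hp⟩
  choose g₀ hg₀ using hch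
  have hcov : ⋃ p ∈ w, g₀ p • ((Subgroup.centralizer {p.2} : Subgroup G) : Set G) = Set.univ := by
    rw [Set.eq_univ_iff_forall]
    intro g
    obtain ⟨p, hp, hgp⟩ := hcon g
    have hpw : p ∈ w := Finset.mem_filter.2 ⟨hp, g, hgp⟩
    rw [Set.mem_iUnion₂]
    refine ⟨p, hpw, ?_⟩
    rw [← bad_eq p.1 p.2 (g₀ p) (hg₀ p hpw)]
    exact hgp
  obtain ⟨p, hpw, hfin⟩ := Subgroup.exists_finiteIndex_of_leftCoset_cover hcov
  have hp1 : p.1 ≠ 1 := hu p (Finset.mem_filter.1 hpw).1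
  have hp2 : p.2 ≠ 1 := by
    intro h
    apply hp1
    have h1 := hg₀ p hpw
    rw [h] at h1
    have h2 : p.1 = g₀ p * ((g₀ p)⁻¹ * p.1 * g₀ p) * (g₀ p)⁻¹ := by group
    rw [h2, h1]
    group
  exact (hG p.2 hp2) (finite_conj p.2 hfin)

theorem main : S_NEU := by
  classical
  intro G _ hG
  -- the complements of the bad sets
  let A : G × G → Set G := fun p => {g | g⁻¹ * p.1 * g ≠ p.2}
  let S : Set (Set G) := A '' {p | p.1 ≠ 1}
  have hfip : (Filter.generate S).NeBot := by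
    rw [Filter.generate_neBot_iff]
    intro t ht hfin
    have hch : ∀ s : Set G, ∃ p : G × G, s ∈ t → p.1 ≠ 1 ∧ A p = s := by
      intro s
      by_cases hs : s ∈ t
      · obtain ⟨p, hp, hps⟩ := ht hs
        exact ⟨p, fun _ => ⟨hp, hps⟩⟩
      · exact ⟨(1, 1), fun h => absurd h hs⟩
    choose f hf using hch
    obtain ⟨g, hg⟩ := not_cover hG (hfin.toFinset.image f) (by
      intro p hp
      obtain ⟨s, hs, rfl⟩ := Finset.mem_image.1 hp
      exact (hf s (hfin.mem_toFinset.1 hs)).1)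
    refine ⟨g, ?_⟩
    rw [Set.mem_sInter]
    intro s hs
    rw [← (hf s hs).2]
    exact hg (f s) (Finset.mem_image.2 ⟨s, hfin.mem_toFinset.2 hs, rfl⟩)
  refine ⟨Ultrafilter.of (Filter.generate S), ?_⟩
  intro k hk c
  have h1 : A (k, c) ∈ Filter.generate S := Filter.GenerateSets.basic ⟨(k, c), hk, rfl⟩
  exact Ultrafilter.of_le (Filter.generate S) h1

end Pool.Agent.H257.HD.NEU
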