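import Pool.Agent.H257.HD.Stm
import Pool.Graph.R_pool_sql_team_seeded_63374d34.N414.LR.Final

/-!
# Project HD: assembly of PRE and of the main theorem
-/

set_option autoImplicit false

namespace Pool.Agent.H257.HD

open Pool.Agent.H494R3.GT Pool.Agent.N557.QW Pool.Agent.N169.QWP
open Pool.Agent.N414.LR (Op IsIcc)
open Pool.Agent.N414.LR.CLS (norm_v star_v v_mul v_one)
open Pool.Agent.W661.RC (HasT)
open scoped ENNReal Topology Pointwise
open Filter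

noncomputable section

lemma rgt_mem_unitary {Λ : Type} [Group Λ] (s : Λ) : (rgt s : Op Λ) ∈ unitary (Op Λ) := by
  rw [Unitary.mem_iff, star_rgt]
  constructor <;> · apply op_ext; intro t; simp [mul_ap, rgt_dl]

lemma uni_left {P : Type} {u : Op P} (hu : u ∈ unitary (Op P)) (x : L2 P) : star u (u x) = x := by
  have := congrArg (fun z : Op P => z x) (Unitary.star_mul_self_of_mem hu)
  simpa using this

lemma ad_mul_vec {P : Type} {u : Op P} (hu : u ∈ unitary (Op P)) (T : Op P) (x : L2 P) :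
    ad u T (u x) = u (T x) := by
  rw [ad, mul_ap, mul_ap, uni_left hu]

lemma en_ad_rgt {Λ : Type} [Group Λ] (s : Λ) (T : Op Λ) (b c : Λ) :
    en (ad (rgt s) T) b c = en T (b * s⁻¹) (c * s⁻¹) := by
  rw [en, ad, mul_ap, mul_ap, star_rgt, rgt_dl, rgt, UU_apply, en]
  rfl

lemma rgt_star_ap {Λ : Type} [Group Λ] (s : Λ) (x : L2 Λ) : ‖rgt s x‖ = ‖x‖ := by
  have h := uni_left (rgt_mem_unitary s) x
  have h2 : inner ℂ (rgt s x) (rgt s x) = inner ℂ x x := by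
    conv_rhs => rw [← h]
    rw [ContinuousLinearMap.star_eq_adjoint, ContinuousLinearMap.adjoint_inner_right, ← ContinuousLinearMap.star_eq_adjoint, h]
  rw [inner_self_eq_norm_sq_to_K, inner_self_eq_norm_sq_to_K] at h2
  have h3 : ‖rgt s x‖ ^ 2 = ‖x‖ ^ 2 := by exact_mod_cast h2
  exact (sq_eq_sq₀ (norm_nonneg _) (norm_nonneg _)).1 h3

theorem pre (hHSB : S_HSB) (hTCL : S_TCL) (hSPC : S_SPC) (hRNK : S_RNK) (hDIA : S_DIA)
    (hWLM : S_WLM) (hRRZ : S_RRZ) (hVEC : S_VEC) : S_PRE := by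
  classical
  intro G Λ _ _ v hv ⟨T, hT0, hT⟩
  have B := hHSB Λ
  have C := hTCL G Λ v
  obtain ⟨e0, A, he0, hne0, hhs0, ⟨r, rfl⟩, hlim⟩ := hSPC Λ T hT0 hT.1
  have hA : Tight v ((r : ℂ) • (star T * T)) := C.smul _ _ (C.mul _ _ (C.star _ hT) hT)
  have hApow : ∀ n : ℕ, Tight v (((r : ℂ) • (star T * T)) ^ (n + 1)) := by
    intro n
    induction n with
    | zero => simpa using hA
    | succ n ih => rw [pow_succ]; exact C.mul _ _ ih hA
  have ht0 : Tight v e0 := C.lim _ fun ε hε => by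
    obtain ⟨n, hn⟩ := hlim ε hε
    exact ⟨_, hApow n, hn⟩
  have hQ : ∃ m : ℕ, ∃ e : Op Λ, IsPr e ∧ e ≠ 0 ∧ Tight v e ∧ hs e = m := by
    obtain ⟨m, hm⟩ := hRNK Λ e0 he0 hhs0
    exact ⟨m, e0, he0, hne0, ht0, hm⟩
  obtain ⟨e, he, hne, hte, hm⟩ := Nat.find_spec hQ
  obtain ⟨κ, hκ, hs'⟩ := hDIA G Λ v e he hne hte
  choose s0 hs0 using hs'
  obtain ⟨x0, hx0⟩ : ∃ x0, e x0 ≠ 0 := by
    by_contra h
    push Not at h
    exact hne (by ext1 x; exact h x)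
  have hnx : ‖e x0‖ ≠ 0 := norm_ne_zero_iff.2 hx0
  set w : L2 Λ := ((‖e x0‖⁻¹ : ℝ) : ℂ) • e x0 with hw
  have hw1 : ‖w‖ = 1 := by
    rw [hw, norm_smul, Complex.norm_real, norm_inv, norm_norm, inv_mul_cancel₀ hnx]
  have hew : e w = w := by
    rw [hw, map_smul]
    congr 1
    have := congrArg (fun z : Op Λ => z x0) he.1
    exact this
  refine ⟨w, fun g => (s0 g)⁻¹, hw1, ?_⟩
  intro U
  obtain ⟨f, hf, htf, hfle, hent⟩ := hWLM G Λ v e hv he hte (fun g => (s0 g)⁻¹) U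
  have hf0 : f ≠ 0 := by
    intro h0
    have h1 := (hent 1 1).norm
    have h2 : κ ≤ ‖en f 1 1‖ := by
      refine ge_of_tendsto h1 (Eventually.of_forall fun g => ?_)
      rw [en_ad_rgt]
      simpa using hs0 g
    rw [h0] at h2
    simp [en] at h2
    linarith
  have hfm : hs f = hs e := by
    refine le_antisymm hfle ?_
    obtain ⟨m', hm'⟩ := hRNK Λ f hf htf.1
    rw [hm, hm', Nat.cast_le]
    exact Nat.find_min' hQ ⟨f, hf, hf0, htf, hm'⟩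
  have hE : ∀ g, hs (ad (rgt (s0 g)⁻¹) (ad (v g : Op Λ) e)) = hs f := by
    intro g
    rw [hfm, ad, ad]
    rw [(B.uni _ _ (Unitary.star_mem (rgt_mem_unitary _))).2, (B.uni _ _ (rgt_mem_unitary _)).1,
      (B.uni _ _ (Unitary.star_mem (v g).2)).2, (B.uni _ _ (v g).2).1]
  have hconv := hRRZ Λ G U (fun g => ad (rgt (s0 g)⁻¹) (ad (v g : Op Λ) e)) f hE htf.1 hent
  obtain ⟨y, hy⟩ := hVEC Λ G U (fun g => ad (rgt (s0 g)⁻¹) (ad (v g : Op Λ) e)) f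
    (fun g => rgt (s0 g)⁻¹ ((v g : Op Λ) w)) (fun g => by rw [rgt_star_ap, norm_v, hw1])
    (fun g => by
      rw [ad_mul_vec (rgt_mem_unitary _), ad_mul_vec (v g).2, hew]) htf.1 hconv
  exact ⟨y, hy⟩

theorem mainThm (hREP : S_REP) (hGAP : S_GAP) (hPOW : S_POW) (hPRE : S_PRE) (hNEU : S_NEU)
    (hORT : S_ORT) (hCOF : S_COF) (hFIN : S_FIN) : S_MAIN := by
  intro Γ _ hicc hT S h1 hS
  obtain ⟨r, hr0, hr1, hr⟩ := hGAP Γ hT S h1 hS
  refine ⟨r, hr0, hr1, ?_⟩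
  intro Λ _ v hv htr hd
  obtain ⟨ρ, hco, hinv⟩ := hREP Γ Λ v hv
  by_cases hζ : ∃ ζ : L2 (Λ × (Λ × Λ)), ζ ≠ 0 ∧ ∀ g, (ρ g : Op (Λ × (Λ × Λ))) ζ = ζ
  · left
    obtain ⟨w, s, hw, hp⟩ := hPRE Γ Λ v hv (hinv hζ)
    obtain ⟨V, hV⟩ := hNEU Γ hicc
    have h2 := hORT Γ Λ v w s V hv htr hw hp hV
    have h3 := Pool.Agent.N414.LR.UNI.main Γ Λ v w hw hv htr hd h2
    obtain ⟨W, hW, hWu, hWw⟩ := Pool.Agent.N499.LR.WWW.main Λ w hw h3
    obtain ⟨f, χ, hf⟩ := hFIN Γ Λ v W hv htr hd hW hWu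
      (hCOF Γ Λ v W s V hv htr hd hW hWu (by rw [hWw]; exact hp) hV)
    exact ⟨f, χ, W, hW, hWu, hf⟩
  · right
    intro n
    set o : L2 (Λ × (Λ × Λ)) := dl (1, (1, 1)) with ho
    have ho1 : ‖o‖ = 1 :=
      (dl_orthonormal (P := Λ × (Λ × Λ)) (f := fun g => g) Function.injective_id).1 (1, (1, 1))
    have h4 := hPOW Γ S r (L2 (Λ × (Λ × Λ))) ρ hr0 (hr _ ρ (by
      intro x hx
      by_contra hne
      exact hζ ⟨x, hne, hx⟩)) n o
    have h5 : ((∑ w ∈ Fintype.piFinset (fun _ : Fin n => S),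
        (∑' h, ‖cf (v (List.ofFn w).prod : Op Λ) h‖ ^ 4) : ℝ) : ℂ) =
        inner ℂ o (∑ w ∈ Fintype.piFinset (fun _ : Fin n => S),
          (ρ (List.ofFn w).prod : Op (Λ × (Λ × Λ))) o) := by
      rw [inner_sum, Complex.ofReal_sum]
      exact Finset.sum_congr rfl fun w _ => (hco _).symm
    have h6 := norm_inner_le_norm (𝕜 := ℂ) o (∑ w ∈ Fintype.piFinset (fun _ : Fin n => S),
          (ρ (List.ofFn w).prod : Op (Λ × (Λ × Λ))) o)
    rw [← h5, Complex.norm_real, ho1, one_mul] at h6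
    rw [ho1, mul_one] at h4
    exact (le_abs_self _).trans (h6.trans h4)

end

end Pool.Agent.H257.HD
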