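import Pool.Graph.R_pool_sql_team_seeded_63374d34.N414.LR.Stm

/-!
# Project HD (height decay dichotomy for Kazhdan groups): definitions and statements

`Λ` is a group, `L2 Λ = ℓ²(Λ)`, `dl` the canonical basis, `LG Λ` the group von Neumann algebra
(commutant of the right translations `rgt s : dl t ↦ dl (t s)`), `lam s : dl t ↦ dl (s t)`,
`cf x h = ⟨dl h, x (dl 1)⟩` the Fourier coefficients.  `v : G →* unitary (Op Λ)` is a homomorphism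
with values in `LG Λ`.

GOAL: `G` icc with property (T), `v` the unitaries of a trace preserving isomorphism
`L(G) ≅ L(Λ)`.  Either `v` is group-like or `∑_h |cf (v g) h|⁴` decays exponentially in mean along
products of generators, at a rate which depends only on `G`.
-/

set_option autoImplicit false

namespace Pool.Agent.H257.HD

open Pool.Agent.H494R3.GT Pool.Agent.N557.QW
open Pool.Agent.N414.LR (Op IsIcc)
open Pool.Agent.W661.RC (HasT)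
open scoped ENNReal Topology Pointwise
open Filter

noncomputable section

/-- the matrix entry `T(b, c) = ⟨dl b, T (dl c)⟩` -/
def en {P : Type} (T : Op P) (b c : P) : ℂ := (T (dl c)) b

/-- the square of the Hilbert–Schmidt norm, in `[0, ∞]` -/
def hs {P : Type} (T : Op P) : ℝ≥0∞ := ∑' b, ∑' c, ‖en T b c‖ₑ ^ 2

open scoped Classical in
/-- the tail of `T`: the square sum of the entries `T(b, c)` with `b c⁻¹ ∉ A` -/
def tl {Λ : Type} [Group Λ] (A : Set Λ) (T : Op Λ) : ℝ≥0∞ :=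
  ∑' b, ∑' c, if b * c⁻¹ ∈ A then 0 else ‖en T b c‖ₑ ^ 2

/-- `u T u*` -/
def ad {P : Type} (u T : Op P) : Op P := u * T * star u

/-- `T` is Hilbert–Schmidt and the tails of all its translates `v_g T v_g*` are uniformly small -/
def Tight {G Λ : Type} [Group G] [Group Λ] (v : G →* unitary (Op Λ)) (T : Op Λ) : Prop :=
  hs T < ∞ ∧ ∀ ε : ℝ≥0∞, 0 < ε → ∃ A : Set Λ, A.Finite ∧ ∀ g : G, tl A (ad (v g : Op Λ) T) ≤ ε

/-- `e` is an orthogonal projection -/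
def IsPr {P : Type} (e : Op P) : Prop := e * e = e ∧ star e = e

/-- HSB: elementary properties of the Hilbert–Schmidt norm. -/
structure HSB (P : Type) : Prop where
  col : ∀ T : Op P, hs T = ∑' c, ‖T (dl c)‖ₑ ^ 2
  star : ∀ T : Op P, hs (star T) = hs T
  uni : ∀ u T : Op P, u ∈ unitary (Op P) → hs (u * T) = hs T ∧ hs (T * u) = hs T
  add : ∀ S T : Op P, hs (S + T) ≤ 2 * hs S + 2 * hs T
  smul : ∀ (c : ℂ) (T : Op P), hs (c • T) = ‖c‖ₑ ^ 2 * hs T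
  vec : ∀ (T : Op P) (x : L2 P), ‖T x‖ₑ ^ 2 ≤ hs T * ‖x‖ₑ ^ 2
  mul : ∀ S T : Op P, hs (S * T) ≤ hs S * hs T
  mull : ∀ S T : Op P, hs (S * T) ≤ ‖S‖ₑ ^ 2 * hs T
  mulr : ∀ S T : Op P, hs (S * T) ≤ hs S * ‖T‖ₑ ^ 2
  ent : ∀ (T : Op P) (b c : P), ‖en T b c‖ₑ ^ 2 ≤ hs T
  zero : ∀ T : Op P, hs T = 0 → T = 0

def S_HSB : Prop := ∀ P : Type, HSB P

/-- TLB: elementary properties of the tails. -/
structure TLB (Λ : Type) [Group Λ] : Prop where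
  le : ∀ (A : Set Λ) (T : Op Λ), tl A T ≤ hs T
  anti : ∀ (A B : Set Λ) (T : Op Λ), A ⊆ B → tl B T ≤ tl A T
  add : ∀ (A : Set Λ) (S T : Op Λ), tl A (S + T) ≤ 2 * tl A S + 2 * tl A T
  smul : ∀ (A : Set Λ) (c : ℂ) (T : Op Λ), tl A (c • T) = ‖c‖ₑ ^ 2 * tl A T
  star : ∀ (A : Set Λ) (T : Op Λ), tl A⁻¹ (star T) = tl A T
  rgt : ∀ (A : Set Λ) (s : Λ) (T : Op Λ), tl A (ad (rgt s) T) = tl A T
  mul : ∀ (A B : Set Λ) (S T : Op Λ),
    tl (A * B) (S * T) ≤ 2 * (tl A S * hs T) + 2 * (hs S * tl B T)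

def S_TLB : Prop := ∀ (Λ : Type) [Group Λ], TLB Λ

/-- TCL: the tight operators form a `*`-algebra which is closed in the Hilbert–Schmidt norm.
(For a product use `v_g S T v_g* = (v_g S v_g*) (v_g T v_g*)` and `TLB.mul`.) -/
structure TCL {G Λ : Type} [Group G] [Group Λ] (v : G →* unitary (Op Λ)) : Prop where
  add : ∀ S T : Op Λ, Tight v S → Tight v T → Tight v (S + T)
  smul : ∀ (c : ℂ) (T : Op Λ), Tight v T → Tight v (c • T)
  mul : ∀ S T : Op Λ, Tight v S → Tight v T → Tight v (S * T)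
  star : ∀ T : Op Λ, Tight v T → Tight v (star T)
  lim : ∀ T : Op Λ, (∀ ε : ℝ≥0∞, 0 < ε → ∃ S : Op Λ, Tight v S ∧ hs (T - S) ≤ ε) → Tight v T

def S_TCL : Prop :=
  ∀ (G Λ : Type) [Group G] [Group Λ] (v : G →* unitary (Op Λ)), TCL v

/-- SPC: a closed `*`-algebra of Hilbert–Schmidt operators contains a projection.
Proof.  Let `A = T* T / ‖T* T‖`, a positive contraction with `‖A‖ = 1` and `hs A < ∞`.  The
numbers `⟨Aⁿ x, x⟩` decrease, so `‖Aⁿ x - Aᵐ x‖² = ⟨A²ⁿ x, x⟩ - 2 ⟨Aⁿ⁺ᵐ x, x⟩ + ⟨A²ᵐ x, x⟩ → 0` and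
`Aⁿ x → e x` for an operator `e`; it is a projection with `A e = e = e A`.  As
`‖(Aⁿ - e) δ_a‖ = ‖(Aⁿ⁻¹ - e) A δ_a‖ ≤ 2 ‖A δ_a‖`, dominated convergence gives `hs (Aⁿ - e) → 0`
(also `hs e < ∞`), so `e` is a limit of polynomials in `A` without constant term.  As
`hs (Aⁿ) ≥ ‖Aⁿ‖² = 1` for `n = 2ᵏ`, `e ≠ 0`. -/
def S_SPC : Prop :=
  ∀ (P : Type) (T : Op P), T ≠ 0 → hs T < ∞ → ∃ (e A : Op P), IsPr e ∧ e ≠ 0 ∧ hs e < ∞ ∧
    (∃ r : ℝ, A = (r : ℂ) • (star T * T)) ∧ ∀ ε : ℝ≥0∞, 0 < ε → ∃ n : ℕ, hs (e - A ^ (n + 1)) ≤ ε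

/-- RNK: the Hilbert–Schmidt norm of a projection is an integer (the dimension of its range).
Proof.  If `x_1, …, x_n` is an orthonormal family in the range of `e` then
`hs e = ∑_c ‖e δ_c‖² ≥ ∑_c ∑_i |⟨x_i, δ_c⟩|² = n`, with equality if it spans the range. -/
def S_RNK : Prop :=
  ∀ (P : Type) (e : Op P), IsPr e → hs e < ∞ → ∃ m : ℕ, hs e = m

/-- DIA: the translates of a tight projection have a diagonal entry which is not small.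
Proof.  Let `m = hs e > 0`, `A` finite with `tl A (ad (v g) e) ≤ m / 2` for all `g`.  If all diagonal
entries of the projection `f = ad (v g) e` are `≤ κ`, then `|f(b,c)|² ≤ f(b,b) f(c,c) ≤ κ f(c,c)`, so
`m = hs f ≤ tl A f + ∑_c ∑_{b ∈ A c} |f(b,c)|² ≤ m / 2 + |A| κ ∑_c f(c,c) = m / 2 + |A| κ m`
(`∑_c f(c,c) = ∑_c ‖f δ_c‖² = hs f = m`), so `κ ≥ 1 / (2 |A|)`. -/
def S_DIA : Prop :=
  ∀ (G Λ : Type) [Group G] [Group Λ] (v : G →* unitary (Op Λ)) (e : Op Λ),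
    IsPr e → e ≠ 0 → Tight v e →
    ∃ κ : ℝ, 0 < κ ∧ ∀ g : G, ∃ s : Λ, κ ≤ ‖en (ad (v g : Op Λ) e) s s‖

/-- WLM: weak limits of translates of a tight projection are tight projections.
Proof.  `E i = ad (rgt (s i)) (ad (v (g i)) e)` is a projection, `hs (E i) = hs e`.  The entries
`en (E i) b c` are bounded by `1` and have limits `φ(b,c)` along the ultrafilter.
`∑ |φ(b,c)|² ≤ hs e` (finite sums), so by `S_HS` of project LR there is an operator `f` with entries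
`φ`.  `star f = f`.  `f * f = f`: let `A` be finite with `tl A (ad (v g) e) ≤ ε²` for all `g`, hence
`tl A (E i) ≤ ε²` (the tail is invariant under `ad (rgt s)`), and `tl A f ≤ ε²` (Fatou/finite sums).
`E(b,d) = ∑_c E(b,c) E(c,d)`; the sum over `c` with `b c⁻¹ ∉ A` is at most
`(∑_{c : b c⁻¹ ∉ A} |E(b,c)|²)^{1/2} (∑_c |E(c,d)|²)^{1/2} ≤ ε √(hs e)`; the sum over the FINITE set of
`c` with `b c⁻¹ ∈ A` converges.  So `|φ(b,d) - ∑_{c : b c⁻¹ ∈ A} φ(b,c) φ(c,d)| ≤ ε √(hs e)` and the same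
estimate for the tail of `φ` gives `|f(b,d) - (f f)(b,d)| ≤ 2 ε √(hs e)`.
`Tight v f`: for `k ∈ G` the entries of `ad (v k) (E i) = ad (rgt (s i)) (ad (v (k * g i)) e)`
converge to those of `ad (v k) f` (`⟨x, E i y⟩ → ⟨x, f y⟩` for all vectors, as the `E i` are bounded),
`tl A (ad (v k) (E i)) ≤ ε`, and Fatou. -/
def S_WLM : Prop :=
  ∀ (G Λ : Type) [Group G] [Group Λ] (v : G →* unitary (Op Λ)) (e : Op Λ),
    (∀ g, (v g : Op Λ) ∈ LG Λ) → IsPr e → Tight v e →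
    ∀ (s : G → Λ) (U : Ultrafilter G), ∃ f : Op Λ, IsPr f ∧ Tight v f ∧ hs f ≤ hs e ∧
      ∀ b c, Tendsto (fun g => en (ad (rgt (s g)) (ad (v g : Op Λ) e)) b c) U (𝓝 (en f b c))

/-- RRZ: entrywise convergence with convergence of the norms gives convergence in norm.
Proof.  For a finite set `Φ` of pairs with `∑_{∉ Φ} |f|² ≤ ε`:
`∑_{∉ Φ} |E i|² = hs f - ∑_Φ |E i|² → hs f - ∑_Φ |f|² ≤ ε`, and
`hs (E i - f) ≤ ∑_Φ |E i - f|² + 2 ∑_{∉ Φ} |E i|² + 2 ∑_{∉ Φ} |f|²`. -/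
def S_RRZ : Prop :=
  ∀ (P ι : Type) (U : Filter ι) (E : ι → Op P) (f : Op P), (∀ i, hs (E i) = hs f) → hs f < ∞ →
    (∀ b c, Tendsto (fun i => en (E i) b c) U (𝓝 (en f b c))) →
    Tendsto (fun i => hs (E i - f)) U (𝓝 0)

/-- VEC: unit vectors in the ranges of operators which converge in Hilbert–Schmidt norm converge.
Proof.  `x i` has a weak (coordinatewise) limit `y` along the ultrafilter, `‖y‖ ≤ 1`.
`‖x i - f (x i)‖ = ‖(E i - f) (x i)‖ → 0`, and `f (x i) → f y` in norm as `f` is Hilbert–Schmidt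
(`hs f = ∑_c ‖f δ_c‖²`; for a finite set `F` with `∑_{c ∉ F} ‖f δ_c‖² ≤ ε²`:
`‖f (x i - y)‖ ≤ ∑_{c ∈ F} |x i c - y c| ‖f δ_c‖ + ε ‖x i - y‖`).  So `x i → f y`. -/
def S_VEC : Prop :=
  ∀ (P ι : Type) (U : Ultrafilter ι) (E : ι → Op P) (f : Op P) (x : ι → L2 P),
    (∀ i, ‖x i‖ = 1) → (∀ i, E i (x i) = x i) → hs f < ∞ →
    Tendsto (fun i => hs (E i - f)) U (𝓝 0) → ∃ y, Tendsto x U (𝓝 y)

/-- the orbit of `w` under `v` is relatively compact modulo the right translations, with the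
translations `s g` -/
def Pre {G Λ : Type} [Group G] [Group Λ] (v : G →* unitary (Op Λ)) (w : L2 Λ) (s : G → Λ) : Prop :=
  ∀ U : Ultrafilter G, ∃ y, Tendsto (fun g => rgt (s g) ((v g : Op Λ) w)) U (𝓝 y)

/-- PRE: if there is a nonzero tight operator then there is a unit vector whose orbit is relatively
compact modulo the right translations. -/
def S_PRE : Prop :=
  ∀ (G Λ : Type) [Group G] [Group Λ] (v : G →* unitary (Op Λ)), (∀ g, (v g : Op Λ) ∈ LG Λ) →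
    (∃ T : Op Λ, T ≠ 0 ∧ Tight v T) → ∃ (w : L2 Λ) (s : G → Λ), ‖w‖ = 1 ∧ Pre v w s

/-- `g⁻¹ k g → ∞` along `V` for every `k ≠ 1` -/
def Esc {G : Type} [Group G] (V : Ultrafilter G) : Prop :=
  ∀ k : G, k ≠ 1 → ∀ c : G, ∀ᶠ g in V, g⁻¹ * k * g ≠ c

/-- NEU: Proof.  `{g | g⁻¹ k g = c}` is empty or a coset of the centralizer of a conjugate of `k`,
which has infinite index as `G` is icc.  By B. H. Neumann's lemma (Mathlib:
`Subgroup.exists_finiteIndex_of_leftCoset_cover`) no finite union of such sets is `G`; so their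
complements generate a proper filter. -/
def S_NEU : Prop := ∀ (G : Type) [Group G], IsIcc G → ∃ V : Ultrafilter G, Esc V

/-- C0: `v_m → 0` weakly.  (Available: `Pool.Agent.N414.LR.CLS.all_mem`.) -/
def S_C0 : Prop :=
  ∀ (G Λ : Type) [Group G] [Group Λ] (v : G →* unitary (Op Λ)),
    (∀ g, (v g : Op Λ) ∈ LG Λ) → (∀ g, g ≠ 1 → cf (v g : Op Λ) 1 = 0) →
    ∀ x y : L2 Λ, Tendsto (fun g : G => inner ℂ x ((v g : Op Λ) y)) cofinite (𝓝 0)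

/-- ORT: Proof.  Let `y` be the limit of `rgt (s g) (v g w)` along `V`, `ε > 0`, `E` the set of `g`
with `‖rgt (s g) (v g w) - y‖ < ε`, `g' ∈ E` fixed and `g ∈ E`.  Put `γ = g'⁻¹ g` and
`u = rgt (s g)⁻¹ rgt (s g')`, a unitary which commutes with all `v k`.  Then `‖v γ w - u w‖ < 2 ε`, so
`|⟨v γ w, v k (v γ w)⟩ - ⟨w, v k w⟩| ≤ 4 ε` and `⟨v γ w, v k (v γ w)⟩ = ⟨w, v (g⁻¹ (g' k g'⁻¹) g) w⟩`
tends to `0` along `V`, by `S_C0` and `Esc V`. -/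
def S_ORT : Prop :=
  ∀ (G Λ : Type) [Group G] [Group Λ] (v : G →* unitary (Op Λ)) (w : L2 Λ) (s : G → Λ)
    (V : Ultrafilter G), (∀ g, (v g : Op Λ) ∈ LG Λ) → (∀ g, g ≠ 1 → cf (v g : Op Λ) 1 = 0) →
    ‖w‖ = 1 → Pre v w s → Esc V → ∀ k : G, k ≠ 1 → inner ℂ w ((v k : Op Λ) w) = 0

/-- MIX: `v_g* a v_g → τ(a)` weakly along `V`.
Proof.  By density `‖a δ_1 - ∑_{k ∈ F} c_k v_k δ_1‖ ≤ η` for a finite `F ⊆ G ∖ {1}` (as
`⟨v_1 δ_1, a δ_1⟩ = 0`).  As the trace norm `‖x δ_1‖`, `x ∈ L(Λ)`, is invariant under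
multiplication of `x` by unitaries of `L(Λ)` from both sides, `‖v_g* (a - ∑ c_k v_k) v_g δ_1‖ ≤ η`,
and `v_g* v_k v_g = v (g⁻¹ k g) → 0` weakly along `V`.  So `⟨x, v_g* a v_g δ_1⟩ → 0` for all `x`; with
`y = rgt t δ_1` in place of `δ_1` the same holds as `rgt t` commutes with everything, and then for
all `y` by linearity and boundedness. -/
def S_MIX : Prop :=
  ∀ (G Λ : Type) [Group G] [Group Λ] (v : G →* unitary (Op Λ)) (V : Ultrafilter G) (a : Op Λ),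
    (∀ g, (v g : Op Λ) ∈ LG Λ) → (∀ g, g ≠ 1 → cf (v g : Op Λ) 1 = 0) →
    (Submodule.span ℂ (Set.range fun g => (v g : Op Λ) (dl 1))).topologicalClosure = ⊤ →
    Esc V → a ∈ LG Λ → cf a 1 = 0 → ∀ x y : L2 Λ,
    Tendsto (fun g => inner ℂ x ((star (v g : Op Λ) * a * (v g : Op Λ)) y)) V (𝓝 0)

/-- COF: Proof.  Put `u_g = W* v_g W ∈ U(L(Λ))`, `b = u_h`, `w = W δ_1`.  Let `y`, `y'` be the limits
along `V` of `rgt (s g) (v g w)` and of `rgt (s (g h)) (v (g h) w)` (use `Pre` for the image of `V`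
under `g ↦ g h`).  Let `ε > 0` and `E` the set of the `g` for which both are within `ε` of the
limits; `g' ∈ E` fixed, `g ∈ E`, `γ = g⁻¹ g'`, `t = s(g) s(g')⁻¹`, `t' = s(g h) s(g' h)⁻¹`.  Then
`‖v γ w - rgt t w‖ < 2 ε` and `‖v γ (v h w) - rgt t' (v h w)‖ < 2 ε`; apply `W*`:
`‖u_γ δ_1 - δ_t‖ < 2 ε` and `‖u_γ b δ_1 - rgt t' (b δ_1)‖ < 2 ε`.  By the trace property
`‖(u_γ - lam t) b δ_1‖ = ‖(u_γ - lam t) δ_1‖ < 2 ε`, so `‖lam t (b δ_1) - rgt t' (b δ_1)‖ < 4 ε`, i.e.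
`|β(t⁻¹ z) - β(z t'⁻¹)| < 4 ε` for all `z`, `β = b δ_1`.  Suppose `x₁ ≠ x₂` and `β(x_i) ≠ 0`; let
`c = min |β(x_i)|`, `8 ε ≤ c`, `8 ε < 1`.  With `z = t x_i`: `t x_i t'⁻¹` is in the finite set
`Φ = {z | c / 2 ≤ |β z|}`, so `t x t⁻¹ ∈ Ψ = Φ Φ⁻¹` (finite) for `x = x₁ x₂⁻¹ ≠ 1` and all `g ∈ E`.  But
`‖lam t (lam x) (lam t)* δ_1 - u_γ (lam x) u_γ* δ_1‖ ≤ 4 ε` (trace property), so
`|⟨δ_z, u_γ (lam x) u_γ* δ_1⟩| ≥ 1 - 4 ε` for `z = t x t⁻¹`, while `u_γ (lam x) u_γ* =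
W* v_g* (v_{g'} W (lam x) W* v_{g'}*) v_g W → 0` weakly along `V` by `S_MIX` (the element in the middle
has trace `cf (lam x) 1 = 0`), for the finitely many `z ∈ Ψ`: contradiction.  So `β = β(x) δ_x`. -/
def S_COF : Prop :=
  ∀ (G Λ : Type) [Group G] [Group Λ] (v : G →* unitary (Op Λ)) (W : Op Λ) (s : G → Λ)
    (V : Ultrafilter G), (∀ g, (v g : Op Λ) ∈ LG Λ) → (∀ g, g ≠ 1 → cf (v g : Op Λ) 1 = 0) →
    (Submodule.span ℂ (Set.range fun g => (v g : Op Λ) (dl 1))).topologicalClosure = ⊤ →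
    W ∈ LG Λ → W ∈ unitary (Op Λ) → Pre v (W (dl 1)) s → Esc V →
    ∀ h : G, ∃ (β : ℂ) (x : Λ), star W * (v h : Op Λ) * W = β • lam x

/-- FIN: Proof.  `β_h lam (x_h) = W* v_h W` is multiplicative in `h`; compare coefficients: `x` and `β`
are homomorphisms.  `v_h (W δ_1) = W (β_h lam x_h δ_1) = β_h rgt x_h (W δ_1)`.  Then `S_END`
of project LR (`Pool.Agent.N414.LR.END.t_end`). -/
def S_FIN : Prop :=
  ∀ (G Λ : Type) [Group G] [Group Λ] (v : G →* unitary (Op Λ)) (W : Op Λ),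
    (∀ g, (v g : Op Λ) ∈ LG Λ) → (∀ g, g ≠ 1 → cf (v g : Op Λ) 1 = 0) →
    (Submodule.span ℂ (Set.range fun g => (v g : Op Λ) (dl 1))).topologicalClosure = ⊤ →
    W ∈ LG Λ → W ∈ unitary (Op Λ) →
    (∀ h : G, ∃ (β : ℂ) (x : Λ), star W * (v h : Op Λ) * W = β • lam x) →
    ∃ (f : G ≃* Λ) (χ : G →* unitary ℂ),
      ∀ g, (v g : Op Λ) = ((χ g : unitary ℂ) : ℂ) • (W * lam (f g) * star W)

/-- REP: the representation with the coefficient `g ↦ ∑_h |cf (v g) h|⁴`; an invariant vector gives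
a tight operator.
Proof.  With `T`, `C` from `S_TEN`, `S_BAR` (on `Λ × (Λ × Λ)` the operator `T x (T y z)`), `ρ g =
T v (T (C v) (C v)) * Y v`, `v = v g`, where `Y x = ∑_h x(h) rgt (h⁻¹, h⁻¹, h⁻¹)`, i.e.
`Y x = cj ee (T (cj inv x) 1)`, `ee (a, b, c) = (a, b a⁻¹, c a⁻¹)`, as in the proof of `S_RE0`
(module `N414.LR.RE0`).  Let `ρ g ζ = ζ` for all `g`, `ζ ≠ 0`.  For `a ∈ Λ` let `K_a` be the operator
with the entries `K_a(b, c) = ζ(b, c, a)` (`S_HS`); choose `a` with `K_a ≠ 0`.  The entries of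
`ad (v g) K_a` are `(T v (T (C v) 1) ζ)(b, c, a)`, and `T v (T (C v) 1) ζ = D* ζ` with
`D = T 1 (T 1 (C v)) * Y v` unitary (as `T v (T (C v) 1) * D = ρ g`, everything commutes).  `D*`
commutes with the multiplication `Q` by the indicator function of `{(p,q,r) | p q⁻¹ ∉ A}`.  So
`tl A (ad (v g) K_a) = ∑_{b c⁻¹ ∉ A} |(D* ζ)(b,c,a)|² ≤ ‖Q D* ζ‖² = ‖Q ζ‖² =
∑_{p q⁻¹ ∉ A} |ζ(p,q,r)|²`, which is small if `A ⊇ {p q⁻¹ | (p,q,r) ∈ Φ}` for a large finite `Φ`. -/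
def S_REP : Prop :=
  ∀ (G Λ : Type) [Group G] [Group Λ] (v : G →* unitary (Op Λ)), (∀ g, (v g : Op Λ) ∈ LG Λ) →
    ∃ ρ : G →* unitary (Op (Λ × (Λ × Λ))),
      (∀ g, inner ℂ (dl ((1 : Λ), ((1 : Λ), (1 : Λ)))) ((ρ g : Op (Λ × (Λ × Λ))) (dl (1, (1, 1)))) =
        ((∑' h, ‖cf (v g : Op Λ) h‖ ^ 4 : ℝ) : ℂ)) ∧
      ((∃ ζ : L2 (Λ × (Λ × Λ)), ζ ≠ 0 ∧ ∀ g, (ρ g : Op (Λ × (Λ × Λ))) ζ = ζ) →
        ∃ T : Op Λ, T ≠ 0 ∧ Tight v T)

/-- GAP: the averaging operator of a finite generating set has norm at most `r < 1` in all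
representations without invariant vectors.
Proof.  `Pool.Agent.W440.RC.main : PtaP` gives `c > 0` with `c ‖ξ‖² ≤ ∑_{s ∈ S} ‖π s ξ - ξ‖²`.  Put
`N = |S|`.  `‖∑_s π s ξ‖² = N² ‖ξ‖² - 1/2 ∑_{s,t} ‖π s ξ - π t ξ‖² ≤ N² ‖ξ‖² - ∑_s ‖π s ξ - ξ‖² ≤
(N² - c) ‖ξ‖²` (the pairs with `s = 1` or `t = 1`). -/
def S_GAP : Prop :=
  ∀ (G : Type) [Group G], HasT G → ∀ S : Finset G, 1 ∈ S → Subgroup.closure (S : Set G) = ⊤ →
    ∃ r : ℝ, 0 ≤ r ∧ r < 1 ∧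
    ∀ (H : Type) [NormedAddCommGroup H] [InnerProductSpace ℂ H] [CompleteSpace H]
      (π : G →* unitary (H →L[ℂ] H)),
      (∀ x : H, (∀ g : G, (π g : H →L[ℂ] H) x = x) → x = 0) →
      ∀ ξ : H, ‖∑ s ∈ S, (π s : H →L[ℂ] H) ξ‖ ≤ r * S.card * ‖ξ‖

/-- POW: iterating the averaging operator. -/
def S_POW : Prop :=
  ∀ (G : Type) [Group G] (S : Finset G) (r : ℝ) (H : Type) [NormedAddCommGroup H]
    [InnerProductSpace ℂ H] [CompleteSpace H] (π : G →* unitary (H →L[ℂ] H)), 0 ≤ r →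
    (∀ ξ : H, ‖∑ s ∈ S, (π s : H →L[ℂ] H) ξ‖ ≤ r * S.card * ‖ξ‖) →
    ∀ (n : ℕ) (ξ : H),
      ‖∑ w ∈ Fintype.piFinset (fun _ : Fin n => S), (π (List.ofFn w).prod : H →L[ℂ] H) ξ‖ ≤
        (r * S.card) ^ n * ‖ξ‖

/-- The final theorem. -/
def S_MAIN : Prop :=
  ∀ (Γ : Type) [Group Γ], IsIcc Γ → HasT Γ →
    ∀ S : Finset Γ, 1 ∈ S → Subgroup.closure (S : Set Γ) = ⊤ → ∃ r : ℝ, 0 ≤ r ∧ r < 1 ∧
    ∀ (Λ : Type) [Group Λ] (v : Γ →* unitary (Op Λ)), (∀ g, (v g : Op Λ) ∈ LG Λ) →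
      (∀ g, g ≠ 1 → cf (v g : Op Λ) 1 = 0) →
      (Submodule.span ℂ (Set.range fun g => (v g : Op Λ) (dl 1))).topologicalClosure = ⊤ →
      (∃ (f : Γ ≃* Λ) (χ : Γ →* unitary ℂ) (w : Op Λ), w ∈ LG Λ ∧ w ∈ unitary (Op Λ) ∧
        ∀ g, (v g : Op Λ) = ((χ g : unitary ℂ) : ℂ) • (w * lam (f g) * star w)) ∨
      ∀ n : ℕ, ∑ w ∈ Fintype.piFinset (fun _ : Fin n => S),
        (∑' h, ‖cf (v (List.ofFn w).prod : Op Λ) h‖ ^ 4) ≤ (r * S.card) ^ n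

end

end Pool.Agent.H257.HD
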